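import Pool.Agent.Work.MP_8b5b22_gt.C.Ren

/-!
# Module C/CNat (S-M)

* `Coll.lt_iff`, `Coll.inj`: from `mono` and trichotomy.  `Coll.le_apply`: `a ≤ e a` (induction).
* `Coll.init`: if all ordinals `< δ` are in `M` then `e` is the identity below `δ` and `δ ≤ β`:
  strong induction on `a < δ`: `a = e a'` for some `a' < β`; `a' ≤ e a' = a`; if `a' < a` then by
  induction `e a' = a' < a`, contradiction; so `a' = a`.
* `nat_mem`: `0 ∈ M`: the predicate `D x := ∀ y < σ, ¬ y < x` is definable and holds exactly for `0`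
  among the ordinals `< σ`.  If `n ∈ M` then `n + 1 ∈ M`: `D x := n < x ∧ ∀ y < σ, y < x → y ≤ n`.
* `omega_mem`: let `L x := 0 < x ∧ ∀ y < x, ∃ z < x, y < z` (in the form with quantifiers `< σ`);
  `D x := L x ∧ ∀ y < x, ¬ L y` holds exactly for `ω` among the ordinals `< σ`.
-/

open Set

universe u

namespace CWV

theorem Coll.lt_iff {M : Set Od} {β : Od} {e : Od → Od} (h : Coll M β e) {a b : Od} (ha : a < β)
    (hb : b < β) : e a < e b ↔ a < b := by
  refine ⟨fun hab => ?_, fun hab => h.mono a b hab hb⟩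
  by_contra hn
  rcases (not_lt.1 hn).lt_or_eq with h1 | h1
  · exact lt_asymm hab (h.mono b a h1 ha)
  · subst h1
    exact lt_irrefl _ hab

theorem Coll.inj {M : Set Od} {β : Od} {e : Od → Od} (h : Coll M β e) {a b : Od} (ha : a < β)
    (hb : b < β) (hab : e a = e b) : a = b := by
  rcases lt_trichotomy a b with h1 | h1 | h1
  · exact absurd hab (h.mono a b h1 hb).ne
  · exact h1
  · exact absurd hab (h.mono b a h1 ha).ne'

theorem Coll.le_self {M : Set Od} {β : Od} {e : Od → Od} (h : Coll M β e) :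
    ∀ a < β, a ≤ e a := by
  intro a
  induction a using WellFoundedLT.induction with
  | ind a ih =>
    intro ha
    by_contra hn
    have hn' : e a < a := not_le.1 hn
    have h1 := ih (e a) hn' (hn'.trans ha)
    have h2 := h.mono (e a) a hn' ha
    exact absurd h2 (not_lt.2 h1)

theorem Coll.init {M : Set Od} {β δ : Od} {e : Od → Od} (h : Coll M β e)
    (hδ : ∀ x < δ, x ∈ M) : ∀ a < δ, a < β ∧ e a = a := by
  intro a
  induction a using WellFoundedLT.induction with
  | ind a ih =>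
    intro ha
    obtain ⟨a', ha', hea⟩ := h.surj a (hδ a ha)
    have h1 := h.le_self a' ha'
    rw [hea] at h1
    rcases h1.lt_or_eq with h2 | h2
    · have h3 := (ih a' h2 (h2.trans ha)).2
      rw [hea] at h3
      exact absurd h3 h2.ne'
    · subst h2
      exact ⟨ha', hea⟩

theorem nat_mem {σ : Od} {M : Set Od} (hM : TV σ M) (hσ : Ordinal.omega0 ≤ σ) (n : ℕ) :
    (n : Od) ∈ M := by
  have hnat : ∀ n : ℕ, (n : Od) < σ := fun n => (Ordinal.natCast_lt_omega0 n).trans_le hσ
  induction n with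
  | zero =>
    have hD : Dfn σ M (fun v => ∀ y < σ, ¬ y < v 0) := by
      refine ((Dfn.lt 1 0).not.all 1).congr fun v _ => ?_
      simp [Function.update]
    obtain ⟨x, hx, hx'⟩ := hM.2 (fun x => ∀ y < σ, ¬ y < x) 0 hD
      ⟨0, by simpa using hnat 0, fun y _ h => by simp at h⟩
    have : x = 0 := by
      by_contra hne
      exact hx' 0 (by simpa using hnat 0) (pos_iff_ne_zero.2 hne)
    rw [Nat.cast_zero, ← this]
    exact hx
  | succ n ih =>
    have hD : Dfn σ M (fun v => (n : Od) < v 0 ∧ ∀ y < σ, y < v 0 → y ≤ (n : Od)) := by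
      have h1 : Dfn σ M (fun v => v 1 < v 0 ∧ ∀ y < σ, y < v 0 → y ≤ v 1) := by
        refine (Dfn.lt 1 0).and ((((Dfn.lt 2 0).imp (Dfn.le 2 1)).all 2).congr fun v _ => ?_)
        simp [Function.update]
      refine (Dfn.subst ih (hnat n) 1 h1).congr fun v _ => ?_
      simp [Function.update]
    obtain ⟨x, hx, hx1, hx2⟩ := hM.2 (fun x => (n : Od) < x ∧ ∀ y < σ, y < x → y ≤ (n : Od)) 0 hD
      ⟨((n + 1 : ℕ) : Od), hnat _, by exact_mod_cast Nat.lt_succ_self n, fun y _ h => by
        rw [Nat.cast_succ] at h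
        exact Order.lt_add_one_iff.1 h⟩
    have hx3 : ((n + 1 : ℕ) : Od) ≤ x := by
      rw [Nat.cast_succ]
      exact Order.add_one_le_iff.2 hx1
    rcases hx3.lt_or_eq with h4 | h4
    · have h5 := hx2 _ (hnat _) h4
      have : (n + 1 : ℕ) ≤ n := by exact_mod_cast h5
      omega
    · rw [h4]
      exact hx

theorem omega_mem {σ : Od} {M : Set Od} (hM : TV σ M) (hσ : Ordinal.omega0 < σ) :
    Ordinal.omega0 ∈ M := by
  have hnat : ∀ n : ℕ, (n : Od) < σ := fun n => (Ordinal.natCast_lt_omega0 n).trans hσ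
  have hL : ∀ (i j k : ℕ), i ≠ j → i ≠ k → j ≠ k → Dfn σ M (fun v => (∃ y < σ, y < v i) ∧
      ∀ y < σ, y < v i → ∃ z < σ, z < v i ∧ y < z) := by
    intro i j k hij hik hjk
    refine ((((Dfn.lt j i).ex j)).congr fun v _ => ?_).and
      ((((Dfn.lt j i).imp (((Dfn.lt k i).and (Dfn.lt j k)).ex k)).all j).congr fun v _ => ?_)
    · simp [Function.update_apply, hij]
    · simp [Function.update_apply, hij, hik, hjk]
  let L : Od → Prop := fun x => (∃ y < σ, y < x) ∧ ∀ y < σ, y < x → ∃ z < σ, z < x ∧ y < z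
  have hD : Dfn σ M (fun v => L (v 0) ∧ ∀ y < σ, y < v 0 → ¬ L y) := by
    refine (hL 0 1 2 (by decide) (by decide) (by decide)).and
      ((((Dfn.lt 1 0).imp (hL 1 2 3 (by decide) (by decide) (by decide)).not).all 1).congr
        fun v _ => ?_)
    simp [Function.update, L]
  have hLom : L Ordinal.omega0 := by
    refine ⟨⟨0, by simpa using hnat 0, Ordinal.omega0_pos⟩, fun y _ hy => ?_⟩
    obtain ⟨n, rfl⟩ := Ordinal.lt_omega0.1 hy
    exact ⟨((n + 1 : ℕ) : Od), hnat _, Ordinal.natCast_lt_omega0 _, by exact_mod_cast Nat.lt_succ_self n⟩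
  have hLnat : ∀ n : ℕ, ¬ L (n : Od) := by
    rintro n ⟨⟨y, _, hy⟩, h2⟩
    cases n with
    | zero => simp at hy
    | succ n =>
      obtain ⟨z, hz, hz1, hz2⟩ := h2 (n : Od) (hnat n) (by exact_mod_cast Nat.lt_succ_self n)
      rw [Nat.cast_succ] at hz1
      exact absurd hz2 (not_lt.2 (Order.lt_add_one_iff.1 hz1))
  obtain ⟨x, hx, hx1, hx2⟩ := hM.2 (fun x => L x ∧ ∀ y < σ, y < x → ¬ L y) 0 hD
    ⟨Ordinal.omega0, hσ, hLom, fun y _ hy => by
      obtain ⟨n, rfl⟩ := Ordinal.lt_omega0.1 hy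
      exact hLnat n⟩
  have : x = Ordinal.omega0 := by
    rcases lt_trichotomy x Ordinal.omega0 with h1 | h1 | h1
    · obtain ⟨n, rfl⟩ := Ordinal.lt_omega0.1 h1
      exact absurd hx1 (hLnat n)
    · exact h1
    · exact absurd hLom (hx2 _ hσ h1)
  rw [← this]
  exact hx

end CWV
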