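import Pool.Agent.Work.MP_8b5b22_gt.C.PairDefs

/-!
# Module C/W1 (S-M)

Countable ordinals.  `W1 = ω₁`.  `lt_W1_iff`: an ordinal is below `ω₁` iff its initial segment is
countable (`Ordinal.lt_omega_iff_card_lt`/`Cardinal` lemmas in `Mathlib/SetTheory/Cardinal/Aleph`;
`#(Iio a) = lift a.card`, `Ordinal.mk_Iio_ordinal`).  `bound_W1`: a countable set of countable
ordinals is bounded by a countable ordinal (`Ordinal.iSup_lt_omega_one`, applied to `x + 1`).
-/

open Set

universe u

namespace CWV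

/-- the first uncountable ordinal -/
noncomputable def W1 : Od := Ordinal.omega 1

theorem lt_W1_iff {a : Od} : a < W1 ↔ (Set.Iio a).Countable := by
  unfold W1
  rw [Cardinal.lt_omega_iff_card_lt, Cardinal.countable_iff_lt_aleph_one, Cardinal.mk_Iio_ordinal,
    ← Cardinal.lift_lt.{0, 1}, Cardinal.lift_aleph, Ordinal.lift_one]

theorem not_countable_W1 : ¬ (Set.Iio W1).Countable := by
  intro h
  exact lt_irrefl _ (lt_W1_iff.2 h)

theorem succ_lt_W1 {a : Od} (h : a < W1) : a + 1 < W1 := by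
  rw [lt_W1_iff] at h ⊢
  have : Set.Iio (a + 1) ⊆ insert a (Set.Iio a) := by
    intro x hx
    rcases lt_or_eq_of_le (Order.lt_add_one_iff.1 (show x < a + 1 from hx)) with h1 | h1
    · exact Or.inr h1
    · exact Or.inl h1
  exact (h.insert a).mono this

theorem bound_W1 {A : Set Od} (hA : A.Countable) (h : ∀ a ∈ A, a < W1) :
    ∃ b < W1, ∀ a ∈ A, a < b := by
  have : Countable A := hA.to_subtype
  refine ⟨⨆ a : A, ((a : Od) + 1), ?_, fun a ha => ?_⟩
  · exact Ordinal.iSup_lt_omega_one (fun a => succ_lt_W1 (h a a.2))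
  · refine (Order.lt_add_one_iff.2 le_rfl).trans_le ?_
    exact Ordinal.le_iSup (fun a : A => ((a : Od) + 1)) ⟨a, ha⟩

theorem omega_lt_W1 : Ordinal.omega0 < W1 := Ordinal.omega0_lt_omega_one

theorem nat_lt_omega (n : ℕ) : (n : Od) < Ordinal.omega0 := Ordinal.natCast_lt_omega0 n

end CWV
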