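import Pool.Agent.Work.MP_8b5b22_gt.C.CDefs
import Pool.Agent.Work.MP_8b5b22_gt.C.W1

/-!
# Module C/SDefs (S)

(fixed file) Definitions for the guessing principle.
-/

open Set

universe u

namespace CWV

/-- `R` is definable over the structure on `s` with parameters -/
def DR (s : Od) (R : Od → Od → Prop) : Prop := Dfn s (Set.Iio s) (fun v => R (v 0) (v 1))

/-- `R` codes a partial map from the natural numbers onto the ordinals below `δ` -/
def Surj (δ : Od) (R : Od → Od → Prop) : Prop := ∀ b < δ, ∃ n : ℕ, R n b ∧ ∀ b', R n b' → b' = b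

/-- `s` is closed and `δ` is uncountable for the structure on `s` -/
def Good (s δ : Od) : Prop :=
  Closed s ∧ δ < s ∧ ∀ R : Od → Od → Prop, (∀ a b, R a b → a < s ∧ b < s) → DR s R → ¬ Surj δ R

/-- the functions on `δ` definable over some good structure -/
def MM (δ : Od) : Set (Od → Od) :=
  {F | (∀ ζ < δ, F ζ < δ) ∧ (∀ ζ, δ ≤ ζ → F ζ = 0) ∧
    ∃ s, Good s δ ∧ DR s (fun a b => a < δ ∧ b = F a)}

/-- stationary, in terms of closure points of functions -/
def StatO (A : Set Od) : Prop :=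
  ∀ h : Od → Od, (∀ ζ < W1, h ζ < W1) → ∃ ξ ∈ A, ξ < W1 ∧ 0 < ξ ∧ ∀ ζ < ξ, h ζ < ξ

/-- every set of countable ordinals is constructible -/
def HC : Prop := ∀ x : ZFSet.{0}, x ⊆ W1.toZFSet → ∃ α : Od, x ∈ LevR univ α

/-- `M` is an elementary substructure of the structure on `σ` with collapse `β`, `e` -/
structure Hl (σ : Od) (M : Set Od) (β : Od) (e : Od → Od) : Prop where
  cs : Closed σ
  om : Ordinal.omega0 < σ
  cb : Closed β
  tv : TV σ M
  co : Coll M β e
  el : ∀ (C : Type 1) (c : C → Od) (φ : Fm C) (v : ℕ → Od), (∀ x, c x < β) → (∀ i, v i < β) →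
    (Sat β c φ v ↔ Sat σ (e ∘ c) φ (e ∘ v))
  el0 : ∀ (φ : Fm Empty) (v : ℕ → Od), (∀ i, v i < β) → (Sat β nc φ v ↔ Sat σ nc φ (e ∘ v))

end CWV
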