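import Pool.Agent.Work.MP_8b5b22_gt.C.Pair1
import Pool.Agent.Work.MP_8b5b22_gt.C.W1

/-!
# Module C/W1b (S-M)

`ω₁` is closed under pairing: for `a, b < ω₁` let `m = max a b`.  Every `x < g a b` is
`g c d` with `ltG (c,d) (a,b)` (`g_surj`, `g_lt_iff`), so `c, d ≤ m`: thus `Iio (g a b)` is contained
in the image of the countable set `Iio (m+1) ×ˢ Iio (m+1)` under `g`; use `lt_W1_iff`.
-/

open Set

universe u

namespace CWV

theorem closed_W1 : Closed W1 := by
  refine ⟨zero_le.trans_lt omega_lt_W1, fun a ha b hb => ?_⟩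
  have hm : max a b + 1 < W1 := succ_lt_W1 (max_lt ha hb)
  have hc := lt_W1_iff.1 hm
  rw [lt_W1_iff]
  refine (hc.image2 hc g).mono ?_
  intro x hx
  obtain ⟨c, d, rfl⟩ := g_surj x
  have h := g_lt_iff.1 (mem_Iio.1 hx)
  have hcd : max c d ≤ max a b := by
    rcases h with h | ⟨h, -⟩
    · exact h.le
    · exact h.le
  exact ⟨c, Order.lt_add_one_iff.2 ((le_max_left _ _).trans hcd), d,
    Order.lt_add_one_iff.2 ((le_max_right _ _).trans hcd), rfl⟩

end CWV
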