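import Pool.Agent.Work.MP_8b5b22_gt.C.LinkA
import Pool.Agent.Work.MP_8b5b22_gt.C.SDefs
import Pool.Agent.Work.MP_8b5b22_gt.C.W1b

/-!
# Module C/Coded (S-M)

Every relation on `ω₁` is coded.  Let `x` be the set of all `toZFSet (g a b)` with `a, b < W1`,
`R a b` (`ZFSet.range` over the subtype of `Iio W1 × Iio W1`, a small type).  `x ⊆ W1.toZFSet`, as
`g a b < W1` (`closed_W1`, `Ordinal.mem_toZFSet_iff`).  `HC` and `link_all` give `γ` with `vl γ = x`.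
`∃ z ∈ E γ, vl z = toZFSet (g a b)` iff `toZFSet (g a b) ∈ x` (`mem_vl`) iff `a, b < W1` and `R a b`
(`Ordinal.toZFSet_injective`, `g_inj`).
-/

open Set

universe u

namespace CWV

theorem exists_coded (H : HC) (R : Od → Od → Prop) : ∃ γ : Od, ∀ a b : Od,
    ((a < W1 ∧ b < W1 ∧ R a b) ↔ ∃ z ∈ E γ, vl z = Ordinal.toZFSet (g a b)) := by
  obtain ⟨x, hx⟩ : ∃ x : ZFSet.{0}, ∀ y, y ∈ x ↔ y ∈ W1.toZFSet ∧
      ∃ a b : Od, a < W1 ∧ b < W1 ∧ R a b ∧ Ordinal.toZFSet (g a b) = y :=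
    ⟨ZFSet.sep (fun y => ∃ a b : Od, a < W1 ∧ b < W1 ∧ R a b ∧ Ordinal.toZFSet (g a b) = y)
      W1.toZFSet, fun y => ZFSet.mem_sep⟩
  obtain ⟨α, hα⟩ := H x fun y hy => ((hx y).1 hy).1
  obtain ⟨s, hs⟩ := link_all α
  obtain ⟨γ, -, hγ⟩ := hs x hα
  refine ⟨γ, fun a b => ?_⟩
  rw [← mem_vl, hγ, hx]
  constructor
  · rintro ⟨ha, hb, hR⟩
    exact ⟨Ordinal.toZFSet_mem_toZFSet_iff.2 (closed_W1.2 a ha b hb), a, b, ha, hb, hR, rfl⟩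
  · rintro ⟨-, a', b', ha, hb, hR, h⟩
    obtain ⟨rfl, rfl⟩ := g_inj (Ordinal.toZFSet_injective h)
    exact ⟨ha, hb, hR⟩

end CWV
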