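import Pool.Agent.Work.MP_8b5b22_gt.C.Base

/-!
# Definability library (fixed file, proved)

Variables are named by natural numbers; `Dfn σ A P` says that `P` is definable over the structure
on `σ` with parameters from `A`, for assignments `v` with values below `σ`.
Typical use: `((Dfn.lt 0 5).and (Dfn.mem 5 1)).ex 5 : Dfn σ A (fun v => ∃ x < σ, ...)` and then
`Dfn.congr` with `simp [Function.update]`.
-/

open Set

universe u

namespace CWV

variable {σ : Od} {A B : Set Od} {P Q : (ℕ → Od) → Prop}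

theorem Dfn.congr (h : Dfn σ A P) (hPQ : ∀ v : ℕ → Od, (∀ i, v i < σ) → (P v ↔ Q v)) :
    Dfn σ A Q := by
  obtain ⟨φ, hφ⟩ := h
  exact ⟨φ, fun v hv => (hφ v hv).trans (hPQ v hv)⟩

theorem upd_lt {v : ℕ → Od} (hv : ∀ i, v i < σ) {i : ℕ} {x : Od} (hx : x < σ) :
    ∀ j, Function.update v i x j < σ := by
  intro j
  by_cases h : j = i
  · subst h
    simpa using hx
  · simpa [Function.update_of_ne h] using hv j

theorem Dfn.fls : Dfn σ A (fun _ => False) := ⟨Fm.fls, fun v _ => by simp⟩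

theorem Dfn.imp (h : Dfn σ A P) (h' : Dfn σ A Q) : Dfn σ A (fun v => P v → Q v) := by
  obtain ⟨φ, hφ⟩ := h
  obtain ⟨ψ, hψ⟩ := h'
  exact ⟨φ.imp ψ, fun v hv => by rw [sat_imp, hφ v hv, hψ v hv]⟩

theorem Dfn.not (h : Dfn σ A P) : Dfn σ A (fun v => ¬ P v) := h.imp Dfn.fls

theorem Dfn.tru : Dfn σ A (fun _ => True) := Dfn.fls.not.congr fun _ _ => by simp

theorem Dfn.prop (p : Prop) : Dfn σ A (fun _ => p) := by
  by_cases hp : p
  · exact Dfn.tru.congr fun v _ => by simp [hp]
  · exact Dfn.fls.congr fun v _ => by simp [hp]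

theorem Dfn.and (h : Dfn σ A P) (h' : Dfn σ A Q) : Dfn σ A (fun v => P v ∧ Q v) :=
  (h.imp h'.not).not.congr fun _ _ => by tauto

theorem Dfn.or (h : Dfn σ A P) (h' : Dfn σ A Q) : Dfn σ A (fun v => P v ∨ Q v) :=
  (h.not.imp h').congr fun v _ => by tauto

theorem Dfn.iff (h : Dfn σ A P) (h' : Dfn σ A Q) : Dfn σ A (fun v => (P v ↔ Q v)) :=
  ((h.imp h').and (h'.imp h)).congr fun v _ => by tauto

theorem Dfn.all (i : ℕ) (h : Dfn σ A P) :
    Dfn σ A (fun v => ∀ x < σ, P (Function.update v i x)) := by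
  obtain ⟨φ, hφ⟩ := h
  refine ⟨Fm.all i φ, fun v hv => ?_⟩
  rw [sat_all]
  exact forall₂_congr fun x hx => hφ _ (upd_lt hv hx)

theorem Dfn.ex (i : ℕ) (h : Dfn σ A P) :
    Dfn σ A (fun v => ∃ x < σ, P (Function.update v i x)) :=
  (h.not.all i).not.congr fun _ _ => by
    push Not
    rfl

theorem Dfn.rel (r : RS) (i j k : ℕ) : Dfn σ A (fun v => RelV E r (v i) (v j) (v k)) :=
  ⟨Fm.rel r (Sum.inl i) (Sum.inl j) (Sum.inl k), fun v _ => Iff.rfl⟩

theorem Dfn.lt (i j : ℕ) : Dfn σ A (fun v => v i < v j) := Dfn.rel .lt i j 0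

theorem Dfn.pr (i j k : ℕ) : Dfn σ A (fun v => v i = g (v j) (v k)) := Dfn.rel .pr i j k

theorem Dfn.mem (i j : ℕ) : Dfn σ A (fun v => v i ∈ E (v j)) := Dfn.rel .mem i j 0

theorem Dfn.eqv (i j : ℕ) : Dfn σ A (fun v => vl (v i) = vl (v j)) := Dfn.rel .eqv i j 0

theorem Dfn.lam (i j k : ℕ) : Dfn σ A (fun v => lam (v i) (v j) (v k)) := Dfn.rel .lam i j k

theorem Dfn.od (i j : ℕ) : Dfn σ A (fun v => vl (v j) = Ordinal.toZFSet (v i)) :=
  Dfn.rel .od i j 0

theorem Dfn.eq (i j : ℕ) : Dfn σ A (fun v => v i = v j) :=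
  ((Dfn.lt i j).or (Dfn.lt j i)).not.congr fun v _ => by
    rw [not_or, not_lt, not_lt]
    exact ⟨fun h => le_antisymm h.2 h.1, fun h => ⟨h.ge, h.le⟩⟩

theorem Dfn.le (i j : ℕ) : Dfn σ A (fun v => v i ≤ v j) :=
  (Dfn.lt j i).not.congr fun v _ => by rw [not_lt]

/-- map on constants -/
def Fm.map {C : Type*} {C' : Type*} (f : C → C') : Fm C → Fm C'
  | .rel r a b d => .rel r (a.map id f) (b.map id f) (d.map id f)
  | .fls => .fls
  | .imp φ ψ => .imp (φ.map f) (ψ.map f)
  | .all i φ => .all i (φ.map f)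

theorem sat_map {C C' : Type*} (f : C → C') (c : C' → Od) (φ : Fm C) (v : ℕ → Od) :
    Sat σ c (φ.map f) v ↔ Sat σ (c ∘ f) φ v := by
  induction φ generalizing v with
  | rel r a b d =>
    have key : ∀ t : ℕ ⊕ C, tv c v (t.map id f) = tv (c ∘ f) v t := by
      intro t
      cases t <;> rfl
    simp only [Fm.map, sat_rel, key]
  | fls => simp [Fm.map]
  | imp φ ψ ih1 ih2 => simp only [Fm.map, sat_imp, ih1, ih2]
  | all i φ ih => simp only [Fm.map, sat_all, ih]

theorem Dfn.mono (hAB : A ⊆ B) (h : Dfn σ A P) : Dfn σ B P := by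
  obtain ⟨φ, hφ⟩ := h
  refine ⟨φ.map (Set.inclusion hAB), fun v hv => ?_⟩
  rw [sat_map, ← hφ v hv]
  rfl

/-- Replace the variables outside `V` by constants. -/
theorem dfn_mix {C : Type*} (c : C → Od) (hc : ∀ x, c x ∈ A) (w : ℕ → Od) (hw : ∀ j, w j ∈ A)
    (φ : Fm C) (V : ℕ → Bool) :
    Dfn σ A (fun v => Sat σ c φ (fun j => if V j then v j else w j)) := by
  -- the formula
  let tm : (ℕ → Bool) → (ℕ ⊕ C) → (ℕ ⊕ A) := fun V t =>
    Sum.elim (fun j => if V j then Sum.inl j else Sum.inr ⟨w j, hw j⟩) (fun x => Sum.inr ⟨c x, hc x⟩) t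
  suffices h : ∀ (V : ℕ → Bool), ∃ ψ : Fm A, ∀ v : ℕ → Od,
      (Sat σ (fun a : A => (a : Od)) ψ v ↔ Sat σ c φ (fun j => if V j then v j else w j)) by
    obtain ⟨ψ, hψ⟩ := h V
    exact ⟨ψ, fun v _ => hψ v⟩
  induction φ with
  | rel r a b d =>
    intro V
    refine ⟨Fm.rel r (tm V a) (tm V b) (tm V d), fun v => ?_⟩
    have key : ∀ t : ℕ ⊕ C, tv (fun a : A => (a : Od)) v (tm V t) =
        tv c (fun j => if V j then v j else w j) t := by
      intro t
      cases t with
      | inl j => by_cases hj : V j <;> simp [tm, tv, hj]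
      | inr x => simp [tm, tv]
    rw [sat_rel, sat_rel, key, key, key]
  | fls => exact fun V => ⟨Fm.fls, fun v => by simp⟩
  | imp φ ψ ih1 ih2 =>
    intro V
    obtain ⟨φ', h1⟩ := ih1 V
    obtain ⟨ψ', h2⟩ := ih2 V
    exact ⟨φ'.imp ψ', fun v => by rw [sat_imp, sat_imp, h1, h2]⟩
  | all i φ ih =>
    intro V
    obtain ⟨φ', h1⟩ := ih (fun j => V j || (j == i))
    refine ⟨Fm.all i φ', fun v => ?_⟩
    rw [sat_all, sat_all]
    refine forall₂_congr fun x _ => ?_
    rw [h1]
    have : (fun j => if (V j || (j == i)) then Function.update v i x j else w j) =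
        Function.update (fun j => if V j then v j else w j) i x := by
      funext j
      by_cases hj : j = i
      · subst hj
        simp
      · simp [hj]
    rw [this]

theorem dfn_upd {C : Type*} (c : C → Od) (hc : ∀ x, c x ∈ A) (w : ℕ → Od) (hw : ∀ j, w j ∈ A)
    (φ : Fm C) (i : ℕ) :
    Dfn σ A (fun v => Sat σ c φ (Function.update w i (v i))) := by
  have h := dfn_mix (σ := σ) c hc w hw φ (fun j => j == i)
  refine h.congr fun v _ => ?_
  have : (fun j => if (j == i) then v j else w j) = Function.update w i (v i) := by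
    funext j
    by_cases hj : j = i
    · subst hj
      simp
    · simp [hj]
  rw [this]

/-- Substitute a constant for a variable. -/
theorem Dfn.subst {a : Od} (ha : a ∈ A) (ha' : a < σ) (i : ℕ) (h : Dfn σ A P) :
    Dfn σ A (fun v => P (Function.update v i a)) := by
  obtain ⟨φ, hφ⟩ := h
  have h := dfn_mix (σ := σ) (A := A) (fun a : A => (a : Od)) (fun x => x.2) (fun _ => a)
    (fun _ => ha) φ (fun j => !(j == i))
  refine h.congr fun v hv => ?_
  have : (fun j => if (!(j == i)) then v j else a) = Function.update v i a := by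
    funext j
    by_cases hj : j = i
    · subst hj
      simp
    · simp [hj]
  rw [this, hφ _ (upd_lt hv ha')]

/-- Replace the variables outside `V` by constants, in a definable predicate. -/
theorem Dfn.mixc (h : Dfn σ A P) (w : ℕ → Od) (hw : ∀ j, w j ∈ A) (hw' : ∀ j, w j < σ)
    (V : ℕ → Bool) : Dfn σ A (fun v => P (fun j => if V j then v j else w j)) := by
  obtain ⟨φ, hφ⟩ := h
  refine (dfn_mix (σ := σ) (A := A) (fun a : A => (a : Od)) (fun x => x.2) w hw φ V).congr
    fun v hv => hφ _ fun j => ?_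
  by_cases hj : V j
  · simpa [hj] using hv j
  · simpa [hj] using hw' j

/-- Keep only the variable `i`, all others are replaced by constants. -/
theorem Dfn.updc (h : Dfn σ A P) (w : ℕ → Od) (hw : ∀ j, w j ∈ A) (hw' : ∀ j, w j < σ)
    (i : ℕ) : Dfn σ A (fun v => P (Function.update w i (v i))) := by
  refine (h.mixc w hw hw' (fun j => j == i)).congr fun v _ => ?_
  have : (fun j => if (j == i) then v j else w j) = Function.update w i (v i) := by
    funext j
    by_cases hj : j = i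
    · subst hj
      simp
    · simp [hj]
  rw [this]

theorem Dfn.ball (N : ℕ) {P : ℕ → (ℕ → Od) → Prop} (h : ∀ i < N, Dfn σ A (P i)) :
    Dfn σ A (fun v => ∀ i < N, P i v) := by
  induction N with
  | zero => exact Dfn.tru.congr fun v _ => by simp
  | succ N ih =>
    refine ((ih fun i hi => h i (by omega)).and (h N (by omega))).congr fun v _ => ?_
    constructor
    · rintro ⟨h1, h2⟩ i hi
      rcases Nat.lt_succ_iff_lt_or_eq.1 hi with h3 | rfl
      · exact h1 i h3
      · exact h2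
    · intro h
      exact ⟨fun i hi => h i (by omega), h N (by omega)⟩

end CWV
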