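import Pool.Agent.Work.MP_8b5b22_gt.C.Code
import Pool.Agent.Work.MP_8b5b22_gt.C.Dfn

/-!
# Module C/DCod (S)

A coded relation is definable from its code: for assignments with values `< σ`, `R (v 0) (v 1)` iff
`∃ q < σ, ∃ z < σ, q = g (v 0) (v 1) ∧ z ∈ E γ ∧ vl z = toZFSet q` (`σ` closed, `E_lt`); variables
`2, 3` for `q, z` and `4` for the constant `γ` (`Dfn.subst`).
-/

open Set

universe u

namespace CWV

theorem dfn_coded {σ γ : Od} (hσ : Closed σ) (hγ : γ < σ) {R : Od → Od → Prop}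
    (h : ∀ a b : Od, (R a b ↔ ∃ z ∈ E γ, vl z = Ordinal.toZFSet (g a b))) :
    Dfn σ {γ} (fun v => R (v 0) (v 1)) := by
  have h1 := (((((Dfn.pr 2 0 1).and ((Dfn.mem 3 4).and (Dfn.od 2 3))).ex 3).ex 2).subst
    (σ := σ) (A := {γ}) (a := γ) rfl hγ 4)
  refine h1.congr fun v hv => ?_
  rw [h]
  simp only [Function.update]
  constructor
  · rintro ⟨q, hq, z, hz, h2, h3, h4⟩
    simp at h2 h3 h4
    subst h2
    exact ⟨z, h3, h4⟩
  · rintro ⟨z, h2, h3⟩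
    refine ⟨g (v 0) (v 1), hσ.2 _ (hv 0) _ (hv 1), z, (E_lt h2).trans hγ, ?_⟩
    simpa using ⟨h2, h3⟩

end CWV
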