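import Pool.Agent.Work.MP_8b5b22_gt.C.DclA

/-!
# Module C/DclB (S-M)

The definable closure has the Tarski-Vaught property.

* `subset_dcl`: for `a ∈ A`, `a < σ` : `Dfn σ A (fun v => v 0 = a)` is `Dfn.eq 0 1` with the
  constant `a` substituted for the variable `1` (`Dfn.subst`).
* `dcl_mono`: `Dfn.mono`.
* `tv_dcl`: let `D` be definable over `dcl σ A` (variable `i`) and `D x` for some `x < σ`.  By
  `dfn_of_dcl` and `Dfn.ren1`, `D` is definable over `A` in every variable.  Let `x₀` be the least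
  `x` with `D x` (`x₀ ≤ x < σ`).  The predicate `v 0 = x₀` is equivalent to
  `D (v 0) ∧ ∀ y < σ, y < v 0 → ¬ D y`.
-/

open Set

universe u

namespace CWV

theorem subset_dcl {σ : Od} {A : Set Od} (hA : ∀ a ∈ A, a < σ) : A ⊆ dcl σ A := by
  intro a ha
  refine ⟨hA a ha, ?_⟩
  have h := (Dfn.eq (σ := σ) (A := A) 0 1).subst ha (hA a ha) 1
  refine h.congr fun v _ => ?_
  simp

theorem dcl_mono {σ : Od} {A B : Set Od} (h : A ⊆ B) : dcl σ A ⊆ dcl σ B := by
  intro x hx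
  exact ⟨hx.1, hx.2.mono h⟩

theorem tv_dcl (σ : Od) (A : Set Od) : TV σ (dcl σ A) := by
  refine ⟨fun x hx => hx.1, fun D i hD hex => ?_⟩
  have h0 : ∀ j, Dfn σ A (fun v => D (v j)) := fun j => (dfn_of_dcl hD).ren1 j
  obtain ⟨x, hx, hDx⟩ := hex
  obtain ⟨x₀, hx₀, hmin⟩ := (wellFounded_lt (α := Od)).has_min {x | D x} ⟨x, hDx⟩
  have hlt : x₀ < σ := (not_lt.1 (hmin x hDx)).trans_lt hx
  refine ⟨x₀, ⟨hlt, ?_⟩, hx₀⟩
  have h1 : Dfn σ A (fun v => D (v 0) ∧ ∀ y < σ, y < v 0 → ¬ D y) := by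
    refine ((h0 0).and (((Dfn.lt 1 0).imp (h0 1).not).all 1)).congr fun v _ => ?_
    simp
  refine h1.congr fun v hv => ?_
  constructor
  · rintro ⟨hD0, hall⟩
    rcases lt_trichotomy (v 0) x₀ with h | h | h
    · exact absurd h (hmin _ hD0)
    · exact h
    · exact absurd hx₀ (hall x₀ hlt h)
  · intro h
    rw [h]
    exact ⟨hx₀, fun y _ hy hDy => hmin y hDy hy⟩

end CWV
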