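import Pool.Agent.Work.MP_8b5b22_gt.C.Dfn

/-!
# Module C/DclC (S-M)

* `countable_dcl`: choose for `x ∈ dcl σ A` a defining formula in `Fm A`, which is a countable type.
  Two elements with the same formula are equal: evaluate at the constant assignment `fun _ => x`
  (all values `x < σ`): the formula holds iff `x = x`; so `x = x'`.
* `dfn_finite`: a formula uses finitely many constants: show by induction on `φ : Fm A` that there
  are a finite `B ⊆ A` and `ψ : Fm B` with the same satisfaction for all assignments (take unions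
  and use `sat_map` with `Set.inclusion`), or by induction with the library (`Dfn.imp`, `Dfn.all`,
  `Dfn.mono`).  `dcl_finite` is the case of the predicate `v 0 = x`.
-/

open Set

universe u

namespace CWV

theorem countable_dcl {σ : Od} {A : Set Od} (hA : A.Countable) : (dcl σ A).Countable := by
  classical
  haveI : Countable A := hA.to_subtype
  rw [← Set.countable_coe_iff]
  have hch : ∀ x : dcl σ A, ∃ φ : Fm A, ∀ v : ℕ → Od, (∀ i, v i < σ) →
      (Sat σ (fun a : A => (a : Od)) φ v ↔ v 0 = x) := fun x => x.2.2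
  choose f hf using hch
  have hinj : Function.Injective f := by
    intro x y hxy
    have h1 := (hf x (fun _ => (x : Od)) (fun _ => x.2.1)).2 rfl
    rw [hxy] at h1
    exact Subtype.ext ((hf y (fun _ => (x : Od)) (fun _ => x.2.1)).1 h1)
  exact hinj.countable

private theorem map_map {C C' C'' : Type*} (f : C → C') (g : C' → C'') (φ : Fm C) :
    (φ.map f).map g = φ.map (g ∘ f) := by
  induction φ with
  | rel r a b d =>
    have key : ∀ t : ℕ ⊕ C, (t.map id f).map id g = t.map id (g ∘ f) := by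
      intro t
      cases t <;> rfl
    simp only [Fm.map, key]
  | fls => rfl
  | imp φ ψ ih1 ih2 => simp only [Fm.map, ih1, ih2]
  | all i φ ih => simp only [Fm.map, ih]

private theorem fm_finite {A : Set Od} (φ : Fm A) : ∃ (B : Set Od) (hB : B ⊆ A), B.Finite ∧
    ∃ ψ : Fm B, ψ.map (Set.inclusion hB) = φ := by
  induction φ with
  | rel r a b d =>
    have key : ∀ t : ℕ ⊕ A, ∃ B : Set Od, B ⊆ A ∧ B.Finite ∧
        ∀ (C : Set Od) (hC : C ⊆ A), B ⊆ C → ∃ t' : ℕ ⊕ C, t'.map id (Set.inclusion hC) = t := by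
      intro t
      cases t with
      | inl j => exact ⟨∅, Set.empty_subset _, Set.finite_empty, fun C hC _ => ⟨Sum.inl j, rfl⟩⟩
      | inr x =>
        refine ⟨{(x : Od)}, Set.singleton_subset_iff.2 x.2, Set.finite_singleton _, ?_⟩
        intro C hC hxC
        exact ⟨Sum.inr ⟨x, hxC rfl⟩, rfl⟩
    obtain ⟨B1, hB1, hf1, h1⟩ := key a
    obtain ⟨B2, hB2, hf2, h2⟩ := key b
    obtain ⟨B3, hB3, hf3, h3⟩ := key d
    have hB : B1 ∪ (B2 ∪ B3) ⊆ A := Set.union_subset hB1 (Set.union_subset hB2 hB3)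
    obtain ⟨a', ha⟩ := h1 _ hB Set.subset_union_left
    obtain ⟨b', hb⟩ := h2 _ hB (Set.subset_union_left.trans Set.subset_union_right)
    obtain ⟨d', hd⟩ := h3 _ hB (Set.subset_union_right.trans Set.subset_union_right)
    exact ⟨_, hB, hf1.union (hf2.union hf3), Fm.rel r a' b' d', by rw [Fm.map, ha, hb, hd]⟩
  | fls => exact ⟨∅, Set.empty_subset _, Set.finite_empty, Fm.fls, rfl⟩
  | imp φ ψ ih1 ih2 =>
    obtain ⟨B1, hB1, hf1, φ', h1⟩ := ih1
    obtain ⟨B2, hB2, hf2, ψ', h2⟩ := ih2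
    refine ⟨B1 ∪ B2, Set.union_subset hB1 hB2, hf1.union hf2,
      (φ'.map (Set.inclusion Set.subset_union_left)).imp
        (ψ'.map (Set.inclusion Set.subset_union_right)), ?_⟩
    rw [Fm.map, map_map, map_map]
    exact congrArg₂ Fm.imp h1 h2
  | all i φ ih =>
    obtain ⟨B1, hB1, hf1, φ', h1⟩ := ih
    exact ⟨B1, hB1, hf1, Fm.all i φ', by rw [Fm.map, h1]⟩

theorem dfn_finite {σ : Od} {A : Set Od} {P : (ℕ → Od) → Prop} (h : Dfn σ A P) :
    ∃ B : Set Od, B ⊆ A ∧ B.Finite ∧ Dfn σ B P := by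
  obtain ⟨φ, hφ⟩ := h
  obtain ⟨B, hB, hf, ψ, hψ⟩ := fm_finite φ
  refine ⟨B, hB, hf, ψ, fun v hv => ?_⟩
  rw [← hφ v hv, ← hψ, sat_map]
  rfl

theorem dcl_finite {σ : Od} {A : Set Od} {x : Od} (h : x ∈ dcl σ A) :
    ∃ B : Set Od, B ⊆ A ∧ B.Finite ∧ x ∈ dcl σ B := by
  obtain ⟨B, hB, hf, hd⟩ := dfn_finite h.2
  exact ⟨B, hB, hf, h.1, hd⟩

end CWV
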