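import Pool.Agent.Work.MP_8b5b22_gt.C.Pair1

/-!
# Module C/Pair2 (S-M)

Unboundedly many closed ordinals.  Given `α`, let `h x = g x x + 1` and `s 0 = α + 1`,
`s (n+1) = h (s n)`; `σ = ⨆ n, s n`.  `s n < s (n+1)` since `x ≤ g x x`.  If `a, b < σ` then
`a, b < s n` for some `n` (take the larger index, `s` is monotone), so `ltG (a,b) (s n, s n)` and
`g a b < g (s n) (s n) < s (n+1) ≤ σ`.  (Or use `Ordinal.nfp`.)
-/

open Set

universe u

namespace CWV

theorem exists_closed (α : Od) : ∃ σ, α < σ ∧ Closed σ := by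
  let s : ℕ → Od := fun n => Nat.rec (α + 1) (fun _ x => g x x + 1) n
  have s0 : s 0 = α + 1 := rfl
  have sS : ∀ n, s (n + 1) = g (s n) (s n) + 1 := fun n => rfl
  have hlt : ∀ n, s n < s (n + 1) := by
    intro n
    rw [sS]
    exact Order.lt_add_one_iff.2 (le_g_left _ _)
  have hmono : StrictMono s := strictMono_nat_of_lt_succ hlt
  have hle : ∀ n, s n ≤ ⨆ n, s n := fun n => Ordinal.le_iSup s n
  refine ⟨⨆ n, s n, ?_, ?_, ?_⟩
  · refine lt_of_lt_of_le ?_ (hle 0)
    rw [s0]
    exact Order.lt_add_one_iff.2 le_rfl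
  · refine lt_of_lt_of_le ?_ (hle 0)
    rw [s0]
    exact Order.lt_add_one_iff.2 (bot_le)
  · intro a ha b hb
    rw [Ordinal.lt_iSup_iff] at ha hb
    obtain ⟨m, hm⟩ := ha
    obtain ⟨n, hn⟩ := hb
    have ha' : a < s (max m n) := hm.trans_le (hmono.monotone (le_max_left _ _))
    have hb' : b < s (max m n) := hn.trans_le (hmono.monotone (le_max_right _ _))
    refine lt_of_lt_of_le ?_ (hle (max m n + 1))
    rw [sS, Order.lt_add_one_iff]
    refine le_of_lt (g_lt_iff.2 (Or.inl ?_))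
    simp only [max_self]
    exact max_lt ha' hb'

end CWV
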