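import Pool.Agent.Work.MP_8b5b22_gt.C.Dfn

/-!
# Module C/RelM (S)

Relativisation: satisfaction over the structure on a smaller ordinal `τ ∈ A` is definable over
`A`, also if the variables outside `V` are replaced by constants of `A`.

The proof is the one of `dfn_mix` (file `C/Dfn`): induction on `φ` for all `V`; in the case
`all i φ`, `∀ x < τ, …` is `∀ x < σ, x < τ → …` (`τ ≤ σ`), where `x < τ` is the atomic formula
`Fm.rel .lt (inl i) (inr τ) _`.
-/

open Set

universe u

namespace CWV

theorem dfn_relmix {σ τ : Od} {A : Set Od} (hτ : τ ≤ σ) (hA : τ ∈ A) {C : Type u} (c : C → Od)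
    (hc : ∀ x, c x ∈ A) (w : ℕ → Od) (hw : ∀ j, w j ∈ A) (φ : Fm C) (V : ℕ → Bool) :
    Dfn σ A (fun v => Sat τ c φ (fun j => if V j then v j else w j)) := by
  -- the formula
  let tm : (ℕ → Bool) → (ℕ ⊕ C) → (ℕ ⊕ A) := fun V t =>
    Sum.elim (fun j => if V j then Sum.inl j else Sum.inr ⟨w j, hw j⟩) (fun x => Sum.inr ⟨c x, hc x⟩) t
  suffices h : ∀ (V : ℕ → Bool), ∃ ψ : Fm A, ∀ v : ℕ → Od,
      (Sat σ (fun a : A => (a : Od)) ψ v ↔ Sat τ c φ (fun j => if V j then v j else w j)) by
    obtain ⟨ψ, hψ⟩ := h V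
    exact ⟨ψ, fun v _ => hψ v⟩
  induction φ with
  | rel r a b d =>
    intro V
    refine ⟨Fm.rel r (tm V a) (tm V b) (tm V d), fun v => ?_⟩
    have key : ∀ t : ℕ ⊕ C, tv (fun a : A => (a : Od)) v (tm V t) =
        tv c (fun j => if V j then v j else w j) t := by
      intro t
      cases t with
      | inl j => by_cases hj : V j <;> simp [tm, tv, hj]
      | inr x => simp [tm, tv]
    rw [sat_rel, sat_rel, key, key, key]
  | fls => exact fun V => ⟨Fm.fls, fun v => by simp⟩
  | imp φ ψ ih1 ih2 =>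
    intro V
    obtain ⟨φ', h1⟩ := ih1 V
    obtain ⟨ψ', h2⟩ := ih2 V
    exact ⟨φ'.imp ψ', fun v => by rw [sat_imp, sat_imp, h1, h2]⟩
  | all i φ ih =>
    intro V
    obtain ⟨φ', h1⟩ := ih (fun j => V j || (j == i))
    refine ⟨Fm.all i ((Fm.rel .lt (Sum.inl i) (Sum.inr ⟨τ, hA⟩) (Sum.inl 0)).imp φ'), fun v => ?_⟩
    rw [sat_all, sat_all]
    have hupd : ∀ x, (fun j => if (V j || (j == i)) then Function.update v i x j else w j) =
        Function.update (fun j => if V j then v j else w j) i x := by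
      intro x
      funext j
      by_cases hj : j = i
      · subst hj
        simp
      · simp [hj]
    have hstep : ∀ x, (Sat σ (fun a : A => (a : Od))
        ((Fm.rel .lt (Sum.inl i) (Sum.inr ⟨τ, hA⟩) (Sum.inl 0)).imp φ')
        (Function.update v i x) ↔ (x < τ → Sat τ c φ
          (Function.update (fun j => if V j then v j else w j) i x))) := by
      intro x
      rw [sat_imp, sat_rel, h1, hupd]
      have : RelV E .lt (tv (fun a : A => (a : Od)) (Function.update v i x) (Sum.inl i))
          (tv (fun a : A => (a : Od)) (Function.update v i x) (Sum.inr ⟨τ, hA⟩))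
          (tv (fun a : A => (a : Od)) (Function.update v i x) (Sum.inl 0)) ↔ x < τ := by
        simp [tv, RelV]
      rw [this]
    constructor
    · intro h x hx
      exact (hstep x).1 (h x (hx.trans_le hτ)) hx
    · intro h x _
      exact (hstep x).2 (fun hx => h x hx)

theorem dfn_rel {σ τ : Od} {A : Set Od} (hτ : τ ≤ σ) (hA : τ ∈ A) {C : Type u} (c : C → Od)
    (hc : ∀ x, c x ∈ A) (φ : Fm C) : Dfn σ A (fun v => Sat τ c φ v) := by
  refine (dfn_relmix hτ hA c hc (fun _ => τ) (fun _ => hA) φ (fun _ => true)).congr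
    fun v _ => ?_
  simp

end CWV
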