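import Pool.Agent.Work.MP_8b5b22_gt.C.SDefs
import Pool.Agent.Work.MP_8b5b22_gt.C.RelM

/-!
# Module C/SMono (S-M)

Monotonicity of definability of relations.  For `s = s'` trivial (`0 < s` is not needed).  Let
`s < s'` and let `φ : Fm (Iio s)` define `R` over the structure on `s`.  If `s = 0` then `R` is empty
(`hR`).  Otherwise for an assignment `v` with values `< s'`: `R (v 0) (v 1)` iff `v 0 < s ∧ v 1 < s ∧
Sat s (↑) φ (fun j => if j == 0 || j == 1 then v j else 0)`; `dfn_relmix` (`τ = s ∈ Iio s'`, constants
`< s < s'`), `Dfn.lt` and `Dfn.subst` for `v 0 < s`.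
-/

open Set

universe u

namespace CWV

theorem dr_mono {s s' : Od} (h : s ≤ s') {R : Od → Od → Prop}
    (hR : ∀ a b, R a b → a < s ∧ b < s) (hD : DR s R) : DR s' R := by
  rcases h.eq_or_lt with rfl | hlt
  · exact hD
  rcases (zero_le : (0 : Od) ≤ s).eq_or_lt with h0 | h0
  · refine Dfn.fls.congr fun v _ => ?_
    constructor
    · exact False.elim
    · intro hv
      have := (hR _ _ hv).1
      rw [← h0] at this
      exact absurd this (not_lt.2 zero_le)
  obtain ⟨φ, hφ⟩ := hD
  have hs' : 0 < s' := h0.trans hlt
  have h1 : Dfn s' (Set.Iio s') (fun v => Sat s (fun a : Set.Iio s => (a : Od)) φ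
      (fun j => if (j == 0 || j == 1) then v j else 0)) :=
    dfn_relmix hlt.le hlt (fun a : Set.Iio s => (a : Od)) (fun x => (mem_Iio.1 x.2).trans hlt)
      (fun _ => 0) (fun _ => hs') φ (fun j => j == 0 || j == 1)
  have h2 : Dfn s' (Set.Iio s') (fun v => v 0 < s) :=
    ((Dfn.lt 0 5).subst (a := s) hlt hlt 5).congr fun v _ => by simp [Function.update]
  have h3 : Dfn s' (Set.Iio s') (fun v => v 1 < s) :=
    ((Dfn.lt 1 5).subst (a := s) hlt hlt 5).congr fun v _ => by simp [Function.update]
  refine (h2.and (h3.and h1)).congr fun v _ => ?_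
  constructor
  · rintro ⟨a, b, c⟩
    have hv : ∀ j, (fun j => if (j == 0 || j == 1) then v j else (0 : Od)) j < s := by
      intro j
      by_cases hj0 : j = 0
      · subst hj0
        simpa using a
      · by_cases hj1 : j = 1
        · subst hj1
          simpa using b
        · simpa [hj0, hj1] using h0
    have := (hφ _ hv).1 c
    simpa using this
  · intro hRv
    obtain ⟨a, b⟩ := hR _ _ hRv
    have hv : ∀ j, (fun j => if (j == 0 || j == 1) then v j else (0 : Od)) j < s := by
      intro j
      by_cases hj0 : j = 0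
      · subst hj0
        simpa using a
      · by_cases hj1 : j = 1
        · subst hj1
          simpa using b
        · simpa [hj0, hj1] using h0
    refine ⟨a, b, (hφ _ hv).2 ?_⟩
    simpa using hRv

end CWV
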