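import Pool.Agent.Work.MP_8b5b22_gt.C.SDefs

/-!
# Module C/Tr (S-M)

Transfer of definable relations along a hull.

* `Hl.pull`: let `φ : Fm (Iio β)` define `R`.  Put `R' x y := Sat σ (e ∘ (↑)) φ
  (fun j => if (j == 0 || j == 1) then (if j = 0 then x else y) else e 0)`; for
  `v` with `v 0 = x`, `v 1 = y` this is the assignment of `dfn_mix` with `w = fun _ => e 0 ∈ M`
  (`0 < β`), constants `e x ∈ M`.  For `a, b < β` use `H.el` with the assignment
  `fun j => if j = 0 then a else if j = 1 then b else 0`.
* `Hl.push`: let `φ : Fm M` define `R'`; choose `f : M → Iio β` with `e (f m) = m` (`Coll.surj`).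
  `φ.map f : Fm (Iio β)`; `sat_map`, `H.el` (`e ∘ (↑) ∘ f = (↑)`), and `R' (e (v 0)) (e (v 1))`.
* `Hl.lt`: elements of `M` are `< σ`; `e a < σ`.
-/

open Set

universe u

namespace CWV

theorem Hl.pull {σ β : Od} {M : Set Od} {e : Od → Od} (H : Hl σ M β e) {R : Od → Od → Prop}
    (hR : DR β R) : ∃ R' : Od → Od → Prop, Dfn σ M (fun v => R' (v 0) (v 1)) ∧
      ∀ a < β, ∀ b < β, (R a b ↔ R' (e a) (e b)) := by
  obtain ⟨φ, hφ⟩ := hR
  have h0 : (0 : Od) < β := H.cb.1
  refine ⟨fun x y => Sat σ (fun a : Set.Iio β => e a) φ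
    (fun j => if (j == 0 || j == 1) then (if j = 0 then x else y) else e 0), ?_, ?_⟩
  · have h := dfn_mix (σ := σ) (A := M) (fun a : Set.Iio β => e a) (fun x => H.co.mem _ x.2)
      (fun _ => e 0) (fun _ => H.co.mem 0 h0) φ (fun j => j == 0 || j == 1)
    refine h.congr fun v _ => ?_
    have : (fun j => if (j == 0 || j == 1) then v j else e 0) =
        fun j => if (j == 0 || j == 1) then (if j = 0 then v 0 else v 1) else e 0 := by
      funext j
      by_cases h0 : j = 0
      · subst h0
        simp
      · by_cases h1 : j = 1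
        · subst h1
          simp
        · simp [h0, h1]
    rw [this]
  · intro a ha b hb
    have hu : ∀ j : ℕ, (if j = 0 then a else if j = 1 then b else (0 : Od)) < β := by
      intro j
      split_ifs
      · exact ha
      · exact hb
      · exact h0
    have h1 := hφ (fun j => if j = 0 then a else if j = 1 then b else 0) hu
    have h2 := H.el (Set.Iio β) (fun a => (a : Od)) φ
      (fun j => if j = 0 then a else if j = 1 then b else 0) (fun x => x.2) hu
    have e1 : (e ∘ fun j : ℕ => if j = 0 then a else if j = 1 then b else (0 : Od)) =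
        fun j => if (j == 0 || j == 1) then (if j = 0 then e a else e b) else e 0 := by
      funext j
      by_cases h0 : j = 0
      · subst h0
        simp
      · by_cases h1 : j = 1
        · subst h1
          simp
        · simp [h0, h1]
    rw [e1] at h2
    simp only [if_true, one_ne_zero, if_false] at h1
    exact h1.symm.trans h2

theorem Hl.push {σ β : Od} {M : Set Od} {e : Od → Od} (H : Hl σ M β e) {R' : Od → Od → Prop}
    (hR : Dfn σ M (fun v => R' (v 0) (v 1))) :
    DR β (fun a b => a < β ∧ b < β ∧ R' (e a) (e b)) := by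
  obtain ⟨φ, hφ⟩ := hR
  choose f hf hf' using fun m : M => H.co.surj m.1 m.2
  let F : M → Set.Iio β := fun m => ⟨f m, hf m⟩
  refine ⟨φ.map F, fun v hv => ?_⟩
  rw [sat_map]
  have h1 := H.el M ((fun a : Set.Iio β => (a : Od)) ∘ F) φ v (fun x => hf x) hv
  have e1 : e ∘ ((fun a : Set.Iio β => (a : Od)) ∘ F) = fun a : M => (a : Od) := by
    funext m
    exact hf' m
  rw [e1] at h1
  have h2 := hφ (e ∘ v) (fun i => H.tv.1 _ (H.co.mem _ (hv i)))
  refine h1.trans (h2.trans ?_)
  exact ⟨fun h => ⟨hv 0, hv 1, h⟩, fun h => h.2.2⟩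

end CWV
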