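import Pool.Agent.Work.MP_8b5b22_gt.C.Hull
import Pool.Agent.Work.MP_8b5b22_gt.C.Coded
import Pool.Agent.Work.MP_8b5b22_gt.C.DCod
import Pool.Agent.Work.MP_8b5b22_gt.C.DclC
import Pool.Agent.Work.MP_8b5b22_gt.C.DclB
import Pool.Agent.Work.MP_8b5b22_gt.C.Pair2
import Pool.Agent.Work.MP_8b5b22_gt.C.SMono
import Pool.Agent.Work.MP_8b5b22_gt.C.Tr
import Pool.Agent.Work.MP_8b5b22_gt.C.CNat

/-!
# Module C/Cnt (M)

`MM δ` is countable for `δ < ω₁`.

If `δ = 0` then `MM δ` contains at most the zero function.  Let `0 < δ < W1`, `f : ℕ → Od` with range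
`Iio δ` (`lt_W1_iff`, `Set.Countable.exists_eq_range`), `R a b := ∃ n : ℕ, a = n ∧ b = f n`.  Let `γ`
code `R` (`exists_coded`), `σ` closed above `γ, W1`, `M = dcl σ (Iio (δ+1) ∪ {γ})`, `exists_hull`:
`β < W1`, `e`.  `Iio (δ+1) ⊆ M` so `e x = x` for `x ≤ δ`, and `δ < β`; naturals are `< β` and fixed.
`Hl.push`: `DR β (a < β ∧ b < β ∧ R₁ (e a) (e b))` with `R₁ a b := a < W1 ∧ b < W1 ∧ R a b`; for
`a, b < β` this is `R a b` (`e a = n` iff `a = n`; `e b = f n < δ` iff `b = f n`, `Coll.inj`).  So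
`DR β R`, `R` is bounded by `β`, `Surj δ R`.  If `Good s δ` then `s < β`: otherwise `DR s R` by
`dr_mono`, `R` bounded by `s`, contradiction to `Good`.
So `MM δ ⊆ ⋃ s ∈ Iio β, {F | supported on δ, DR s (a < δ ∧ b = F a), δ < s}`, a countable union of
countable sets: for fixed countable `s` (`s < β < W1`, so `Iio s` is countable, `Fm (Iio s)` is
countable) the map `F ↦` a defining formula is injective (`F a < δ < s`, evaluate at assignments
with `v 0 = a`, `v 1 = F a`).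
-/

open Set

universe u

namespace CWV

/-- The functions on `δ` which are definable over the structure on a countable `s`. -/
private theorem countable_defs {δ s : Od} (hs : s < W1) :
    {F : Od → Od | (∀ ζ < δ, F ζ < δ) ∧ (∀ ζ, δ ≤ ζ → F ζ = 0) ∧ δ < s ∧
      DR s (fun a b => a < δ ∧ b = F a)}.Countable := by
  have hc : Countable (Set.Iio s) := (lt_W1_iff.1 hs).to_subtype
  set X : Set (Od → Od) := {F : Od → Od | (∀ ζ < δ, F ζ < δ) ∧ (∀ ζ, δ ≤ ζ → F ζ = 0) ∧ δ < s ∧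
      DR s (fun a b => a < δ ∧ b = F a)} with hX
  have hch : ∀ F : X, ∃ φ : Fm (Set.Iio s), ∀ v : ℕ → Od, (∀ i, v i < s) →
      (Sat s (fun a : Set.Iio s => (a : Od)) φ v ↔ (v 0 < δ ∧ v 1 = F.1 (v 0))) :=
    fun F => F.2.2.2.2
  choose φ hφ using hch
  have hinj : Function.Injective φ := by
    intro F F' hFF
    apply Subtype.ext
    funext a
    by_cases ha : a < δ
    · have hFa : F.1 a < δ := F.2.1 a ha
      have hδs : δ < s := F.2.2.2.1
      let v : ℕ → Od := fun i => if i = 0 then a else F.1 a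
      have hv : ∀ i, v i < s := by
        intro i
        simp only [v]
        split_ifs
        · exact ha.trans hδs
        · exact hFa.trans hδs
      have h1 := (hφ F v hv).2 ⟨ha, rfl⟩
      rw [hFF] at h1
      exact ((hφ F' v hv).1 h1).2
    · rw [F.2.2.1 a (not_lt.1 ha), F'.2.2.1 a (not_lt.1 ha)]
  exact Set.countable_coe_iff.1 hinj.countable

theorem countable_MM (H : HC) {δ : Od} (hδ : δ < W1) : (MM δ).Countable := by
  classical
  rcases eq_or_ne δ 0 with rfl | hne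
  · refine (Set.countable_singleton (fun _ : Od => (0 : Od))).mono ?_
    rintro F ⟨-, h, -⟩
    rw [Set.mem_singleton_iff]
    funext ζ
    exact h ζ zero_le
  have h0 : 0 < δ := pos_iff_ne_zero.2 hne
  obtain ⟨f, hf⟩ := (lt_W1_iff.1 hδ).exists_eq_range ⟨0, h0⟩
  have hfδ : ∀ n, f n < δ := by
    intro n
    have : f n ∈ Set.Iio δ := by
      rw [hf]
      exact Set.mem_range_self n
    exact this
  let R : Od → Od → Prop := fun a b => ∃ n : ℕ, a = n ∧ b = f n
  obtain ⟨γ, hγ⟩ := exists_coded H R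
  obtain ⟨σ, hσ1, hσ⟩ := exists_closed (max γ W1)
  have hγσ : γ < σ := (le_max_left _ _).trans_lt hσ1
  have hWσ : W1 < σ := (le_max_right _ _).trans_lt hσ1
  have hωσ : Ordinal.omega0 < σ := omega_lt_W1.trans hWσ
  have hA : ∀ a ∈ Set.Iio (δ + 1) ∪ ({γ} : Set Od), a < σ := by
    rintro a (ha | rfl)
    · exact (Set.mem_Iio.1 ha).trans ((succ_lt_W1 hδ).trans hWσ)
    · exact hγσ
  have hAc : (Set.Iio (δ + 1) ∪ ({γ} : Set Od)).Countable :=
    (lt_W1_iff.1 (succ_lt_W1 hδ)).union (Set.countable_singleton γ)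
  have hAM : Set.Iio (δ + 1) ∪ ({γ} : Set Od) ⊆ dcl σ (Set.Iio (δ + 1) ∪ {γ}) := subset_dcl hA
  obtain ⟨β, e, hH, hβ⟩ := exists_hull hσ hωσ hAc
  set M : Set Od := dcl σ (Set.Iio (δ + 1) ∪ {γ}) with hM
  have hinit : ∀ a < δ + 1, a < β ∧ e a = a := hH.co.init fun x hx => hAM (Or.inl hx)
  have hδβ : δ < β := (hinit δ (Order.lt_add_one_iff.2 le_rfl)).1
  have hfix : ∀ a < δ, e a = a := fun a ha => (hinit a (Order.lt_add_one_iff.2 ha.le)).2
  have hnat : ∀ n : ℕ, (n : Od) < β ∧ e n = n := by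
    intro n
    refine hH.co.init (δ := (n : Od) + 1) (fun x hx => ?_) n (Order.lt_add_one_iff.2 le_rfl)
    have hx' : x < Ordinal.omega0 :=
      (Order.lt_add_one_iff.1 hx).trans_lt (nat_lt_omega n)
    obtain ⟨m, rfl⟩ := Ordinal.lt_omega0.1 hx'
    exact nat_mem hH.tv hωσ.le m
  have hR : Dfn σ M (fun v => v 0 < W1 ∧ v 1 < W1 ∧ R (v 0) (v 1)) := by
    refine (dfn_coded hσ hγσ (R := fun a b => a < W1 ∧ b < W1 ∧ R a b) hγ).mono ?_
    rintro x rfl
    exact hAM (Or.inr rfl)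
  have hDR : DR β R := by
    refine (hH.push (R' := fun a b => a < W1 ∧ b < W1 ∧ R a b) hR).congr fun v hv => ?_
    constructor
    · rintro ⟨h1, h2, -, -, n, h3, h4⟩
      refine ⟨n, hH.co.inj h1 (hnat n).1 (h3.trans (hnat n).2.symm),
        hH.co.inj h2 ((hfδ n).trans hδβ) (h4.trans (hfix _ (hfδ n)).symm)⟩
    · rintro ⟨n, h1, h2⟩
      refine ⟨hv 0, hv 1, ?_, ?_, n, ?_, ?_⟩
      · rw [h1, (hnat n).2]
        exact (nat_lt_omega n).trans omega_lt_W1
      · rw [h2, hfix _ (hfδ n)]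
        exact (hfδ n).trans hδ
      · rw [h1, (hnat n).2]
      · rw [h2, hfix _ (hfδ n)]
  have hRβ : ∀ a b, R a b → a < β ∧ b < β := by
    rintro a b ⟨n, rfl, rfl⟩
    exact ⟨(hnat n).1, (hfδ n).trans hδβ⟩
  have hsurj : Surj δ R := by
    intro b hb
    have hb' : b ∈ Set.range f := by
      rw [← hf]
      exact hb
    obtain ⟨n, hn⟩ := hb'
    refine ⟨n, ⟨n, rfl, hn.symm⟩, ?_⟩
    rintro b' ⟨m, h1, h2⟩
    have h3 : n = m := Nat.cast_inj.1 h1
    rw [h2, ← h3, hn]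
  refine ((lt_W1_iff.1 hβ).biUnion fun s hs => countable_defs (δ := δ) (s := s)
    ((Set.mem_Iio.1 hs).trans hβ)).mono ?_
  rintro F ⟨h1, h2, s, hgood, hdr⟩
  have hsβ : s < β := by
    by_contra hcon
    have hle : β ≤ s := not_lt.1 hcon
    exact hgood.2.2 R (fun a b hab => ⟨(hRβ a b hab).1.trans_le hle, (hRβ a b hab).2.trans_le hle⟩)
      (dr_mono hle hRβ hDR) hsurj
  exact Set.mem_biUnion (Set.mem_Iio.2 hsβ) ⟨h1, h2, hgood.2.1, hdr⟩

end CWV
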