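import Pool.Agent.Work.MP_8b5b22_gt.C.Defs

/-!
# Module C/LevU (S)

Relative levels agree with the absolute ones as long as all sets are allowed.
* `levR_mono`: from `mem_levR`.
* `levR_eq`: strong induction on `ζ ≤ α`: `mem_levR`, `LevR U ζ' = LevR univ ζ'` for `ζ' < ζ`, and
  `LevR univ ζ ⊆ LevR univ α ⊆ U`.
* `levR_sub_of_defS`: an element of `DefS A` is a subset of `A`.
-/

open Set

universe u

namespace CWV

theorem levR_mono {U : Set ZFSet.{0}} {ζ α : Od} (h : ζ ≤ α) : LevR U ζ ⊆ LevR U α := by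
  intro x hx
  rw [mem_levR] at hx ⊢
  obtain ⟨hU, ζ', h1, h2⟩ := hx
  exact ⟨hU, ζ', h1.trans_le h, h2⟩

theorem levR_eq {U : Set ZFSet.{0}} {α : Od} (h : LevR univ α ⊆ U) :
    ∀ ζ ≤ α, LevR U ζ = LevR univ ζ := by
  intro ζ
  induction ζ using WellFoundedLT.induction with
  | ind ζ ih =>
    intro hζ
    ext x
    constructor
    · intro hx
      rw [mem_levR] at hx ⊢
      obtain ⟨-, ζ', h1, h2⟩ := hx
      refine ⟨mem_univ _, ζ', h1, ?_⟩
      rw [← ih ζ' h1 (h1.le.trans hζ)]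
      exact h2
    · intro hx
      have hU : x ∈ U := h (levR_mono hζ hx)
      rw [mem_levR] at hx ⊢
      obtain ⟨-, ζ', h1, h2⟩ := hx
      refine ⟨hU, ζ', h1, ?_⟩
      rw [ih ζ' h1 (h1.le.trans hζ)]
      exact h2

theorem mem_of_defS {A : Set ZFSet.{0}} {x y : ZFSet.{0}} (hx : x ∈ DefS A) (hy : y ∈ x) :
    y ∈ A := by
  obtain ⟨ψ, v, -, h⟩ := hx
  exact ((h y).1 hy).1

end CWV
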