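import Pool.Agent.Work.MP_8b5b22_gt.C.PairDefs

/-!
# MP_8b5b22_gt, folder C: definitions

* `SF`, `SSat A`: formulas in `∈, =` with named variables, satisfaction in `(A, ∈)`.
* `DefS A`: the subsets of `A` which are definable over `(A, ∈)` with parameters.
* `LevR U η`: the constructible hierarchy relative to a collection `U` of allowed sets:
  `LevR U η = {x ∈ U | ∃ ζ < η, x ∈ DefS (LevR U ζ)}`.  `LevR univ` is the usual `L_η`.
* `Fm C`: formulas with named variables (natural numbers) and constants from `C`, in six relations
  `RS` (all ternary, unused arguments are ignored).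
* `Sat R σ c φ v`: satisfaction; the quantifiers range over the ordinals `< σ`.
* For `S : Od → Set Od` the relations `RelV S`: order, pairing, membership `x ∈ S y`, equality of
  the values `val S x`, the value lies in a relative level, the value is a given ordinal.
* `Step`: the recursion which determines the membership relation.
-/

open Set

universe u

namespace CWV

/-! ### The constructible hierarchy (own syntax) -/

/-- formulas of set theory with variables named by natural numbers -/
inductive SF : Type
  | mem (i j : ℕ)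
  | eq (i j : ℕ)
  | fls
  | imp (φ ψ : SF)
  | all (i : ℕ) (φ : SF)

/-- satisfaction in `(A, ∈)` -/
def SSat (A : Set ZFSet.{0}) : SF → (ℕ → ZFSet.{0}) → Prop
  | .mem i j, v => v i ∈ v j
  | .eq i j, v => v i = v j
  | .fls, _ => False
  | .imp φ ψ, v => SSat A φ v → SSat A ψ v
  | .all i φ, v => ∀ a ∈ A, SSat A φ (Function.update v i a)

/-- the definable subsets of `(A, ∈)`, with parameters from `A` (the empty set is allowed as a
parameter) -/
def DefS (A : Set ZFSet.{0}) : Set ZFSet.{0} :=
  {x | ∃ (ψ : SF) (v : ℕ → ZFSet.{0}), (∀ i, v i ∈ insert ∅ A) ∧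
    ∀ y, y ∈ x ↔ y ∈ A ∧ SSat A ψ (Function.update v 0 y)}

/-- relative constructible levels -/
def LevR (U : Set ZFSet.{0}) (η : Od) : Set ZFSet.{0} :=
  {x | x ∈ U ∧ ∃ ζ : Set.Iio η, x ∈ DefS (LevR U ζ.1)}
termination_by η
decreasing_by exact ζ.2

theorem mem_levR {U : Set ZFSet.{0}} {η : Od} {x : ZFSet.{0}} :
    x ∈ LevR U η ↔ x ∈ U ∧ ∃ ζ < η, x ∈ DefS (LevR U ζ) := by
  rw [LevR]
  simp only [mem_ofPred_eq, Subtype.exists, mem_Iio, exists_prop]

/-! ### The ordinal structure -/

/-- the six relation symbols -/
inductive RS : Type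
  | lt | pr | mem | eqv | lam | od

/-- formulas with constants from `C` -/
inductive Fm (C : Type u) : Type u
  | rel (r : RS) (a b d : ℕ ⊕ C)
  | fls
  | imp (φ ψ : Fm C)
  | all (i : ℕ) (φ : Fm C)

/-- value of a term -/
def tv {C : Type u} (c : C → Od) (v : ℕ → Od) (t : ℕ ⊕ C) : Od := Sum.elim v c t

/-- satisfaction, all quantifiers bounded by `σ` -/
def SatR (R : RS → Od → Od → Od → Prop) (σ : Od) {C : Type u} (c : C → Od) :
    Fm C → (ℕ → Od) → Prop
  | .rel r a b d, v => R r (tv c v a) (tv c v b) (tv c v d)
  | .fls, _ => False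
  | .imp φ ψ, v => SatR R σ c φ v → SatR R σ c ψ v
  | .all i φ, v => ∀ x < σ, SatR R σ c φ (Function.update v i x)

/-- Mostowski value of a code -/
noncomputable def val (S : Od → Set Od) (γ : Od) : ZFSet.{0} :=
  ZFSet.range (fun x : {x : Set.Iio γ // x.1 ∈ S γ} => val S x.1.1)
termination_by γ
decreasing_by exact x.1.2

theorem mem_val {S : Od → Set Od} {γ : Od} {y : ZFSet.{0}} :
    y ∈ val S γ ↔ ∃ x < γ, x ∈ S γ ∧ val S x = y := by
  rw [val]
  simp only [ZFSet.mem_range, Subtype.exists, mem_Iio, exists_prop]

/-- the six relations determined by the membership relation `S` -/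
def RelV (S : Od → Set Od) : RS → Od → Od → Od → Prop
  | .lt, x, y, _ => x < y
  | .pr, x, y, z => x = g y z
  | .mem, x, y, _ => x ∈ S y
  | .eqv, x, y, _ => val S x = val S y
  | .lam, x, y, z => z < x ∧ val S z ∈ LevR (val S '' Set.Iio x) y
  | .od, x, y, _ => val S y = Ordinal.toZFSet x

/-! ### Countably many formulas without constants -/

/-- an injective code of the formulas by lists of natural numbers -/
def RS.toNat : RS → ℕ
  | .lt => 0 | .pr => 1 | .mem => 2 | .eqv => 3 | .lam => 4 | .od => 5

theorem RS.toNat_injective : Function.Injective RS.toNat := by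
  intro a b h
  cases a <;> cases b <;> simp [RS.toNat] at h <;> rfl

instance : Countable RS := RS.toNat_injective.countable

instance (C : Type u) [Countable C] : Countable (Fm C) := by
  classical
  -- depth
  let dep : Fm C → ℕ := fun φ => Fm.rec (motive := fun _ => ℕ) (fun _ _ _ _ => 0) 0
    (fun _ _ a b => max a b + 1) (fun _ _ a => a + 1) φ
  have h : ∀ n, {φ : Fm C | dep φ ≤ n}.Countable := by
    intro n
    induction n with
    | zero =>
      refine ((countable_range (fun p : RS × (ℕ ⊕ C) × (ℕ ⊕ C) × (ℕ ⊕ C) =>
        Fm.rel p.1 p.2.1 p.2.2.1 p.2.2.2)).union (countable_singleton Fm.fls)).mono ?_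
      intro φ hφ
      cases φ with
      | rel r a b d => exact Or.inl ⟨(r, a, b, d), rfl⟩
      | fls => exact Or.inr rfl
      | imp φ ψ => simp [dep] at hφ
      | all i φ => simp [dep] at hφ
    | succ n ih =>
      have h1 : (Set.image2 Fm.imp {φ : Fm C | dep φ ≤ n} {φ : Fm C | dep φ ≤ n}).Countable :=
        ih.image2 ih _
      have h2 : (Set.image2 Fm.all (univ : Set ℕ) {φ : Fm C | dep φ ≤ n}).Countable :=
        (countable_univ).image2 ih _
      refine ((ih.union h1).union h2).mono ?_
      intro φ hφ
      cases φ with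
      | rel r a b d => exact Or.inl (Or.inl (Nat.zero_le _))
      | fls => exact Or.inl (Or.inl (Nat.zero_le _))
      | imp φ ψ =>
        refine Or.inl (Or.inr ⟨φ, ?_, ψ, ?_, rfl⟩)
        · simp only [mem_ofPred_eq, dep] at hφ ⊢
          omega
        · simp only [mem_ofPred_eq, dep] at hφ ⊢
          omega
      | all i φ =>
        refine Or.inr ⟨i, mem_univ _, φ, ?_, rfl⟩
        simp only [mem_ofPred_eq, dep] at hφ ⊢
        omega
  have h2 : (univ : Set (Fm C)).Countable := by
    refine (countable_iUnion h).mono ?_
    intro φ _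
    refine mem_iUnion.2 ⟨dep φ, ?_⟩
    rw [mem_ofPred_eq]
  exact countable_univ_iff.1 h2

instance (C : Type u) : Nonempty (Fm C) := ⟨Fm.fls⟩

/-- an enumeration of the formulas without constants -/
noncomputable def fml : ℕ → Fm Empty := (exists_surjective_nat (Fm Empty)).choose

theorem fml_surjective : Function.Surjective fml := (exists_surjective_nat (Fm Empty)).choose_spec

/-- the assignment with variable `0` equal to `ξ` and all other variables equal to `p` -/
def asg (ξ p : Od) : ℕ → Od := fun i => if i = 0 then ξ else p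

/-- constants for formulas without constants -/
def nc : Empty → Od := fun e => e.elim

/-- The recursion for the membership relation: the code `g (g s n) p` (with `n` a natural number and
`p < s`) codes the set of all `ξ < s` which satisfy the `n`-th formula with parameter `p` over the
structure on `s`. -/
def Step (S : Od → Set Od) (γ : Od) : Set Od :=
  {ξ | ∃ (s p : Od) (n : ℕ), γ = g (g s n) p ∧ p < s ∧ ξ < s ∧
    SatR (RelV S) s nc (fml n) (asg ξ p)}

end CWV
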