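import Pool.Agent.Work.MP_8b5b22_gt.C.LDefs
import Pool.Agent.Work.MP_8b5b22_gt.C.Defs

/-!
# Module C/MDefB (M)

Sets definable with the syntax `SF` are Mathlib-definable, if `A = ∅` or `∅ ∈ A`.

If `A = ∅` then `x = ∅` and the set `{y : A | y ∈ x}` is empty (`definable_empty`).  Otherwise all
parameters `v i` are in `A`.  By induction on `ψ : SF` there is a formula `φ : LSet.Formula ℕ` with
`φ.Realize w ↔ SSat A ψ (fun i => (w i : ZFSet))` for all `w : ℕ → A`: atoms: `Term.equal`,
`Relations.formula₂` (or `Relations.formula`); `imp`; `all i ψ`: relabel the formula by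
`fun j => if j = i then Sum.inr 0 else Sum.inl j : ℕ → ℕ ⊕ Fin 1` (`BoundedFormula.relabel`,
`realize_relabel`) and quantify.  Then relabel by `fun j => if j = 0 then Sum.inr 0 else
Sum.inl (v j)` to a formula in `univ ⊕ Fin 1` and use `Set.definable_iff_exists_formula_sum`.
-/

open Set

namespace CWV

open CWL

private theorem exists_formula (A : Set ZFSet.{0}) (ψ : SF) :
    ∃ φ : LSet.Formula ℕ, ∀ w : ℕ → A, φ.Realize w ↔ SSat A ψ (fun i => (w i : ZFSet.{0})) := by
  induction ψ with
  | mem i j =>
    have R : ∃ R : LSet.Relations 2, ∀ z : Fin 2 → A,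
        FirstOrder.Language.Structure.RelMap R z ↔ (z 0 : ZFSet.{0}) ∈ (z 1 : ZFSet.{0}) :=
      ⟨MemRel.mem, fun z => Iff.rfl⟩
    obtain ⟨R, hR⟩ := R
    refine ⟨R.formula₂ (FirstOrder.Language.Term.var i) (FirstOrder.Language.Term.var j),
      fun w => ?_⟩
    rw [FirstOrder.Language.Formula.realize_rel₂, hR]
    exact Iff.rfl
  | eq i j =>
    refine ⟨FirstOrder.Language.Term.equal (L := LSet)
      (FirstOrder.Language.Term.var i) (FirstOrder.Language.Term.var j), fun w => ?_⟩
    rw [FirstOrder.Language.Formula.realize_equal]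
    exact Subtype.ext_iff
  | fls =>
    exact ⟨⊥, fun w => FirstOrder.Language.Formula.realize_bot⟩
  | imp ψ χ h1 h2 =>
    obtain ⟨φ1, h1⟩ := h1
    obtain ⟨φ2, h2⟩ := h2
    refine ⟨φ1.imp φ2, fun w => ?_⟩
    rw [FirstOrder.Language.Formula.realize_imp, h1, h2]
    exact Iff.rfl
  | all i ψ h =>
    obtain ⟨φ, h⟩ := h
    let g : ℕ → ℕ ⊕ Fin 1 := fun j => if j = i then Sum.inr 0 else Sum.inl j
    let θ : LSet.BoundedFormula ℕ (0 + 1) := FirstOrder.Language.BoundedFormula.relabel g φ
    refine ⟨θ.all, fun w => ?_⟩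
    have h1 : FirstOrder.Language.Formula.Realize θ.all w ↔
        ∀ a : A, θ.Realize w (Fin.snoc default a) :=
      FirstOrder.Language.BoundedFormula.realize_all
    rw [h1]
    have h2 : ∀ a : A, θ.Realize w (Fin.snoc default a) ↔
        SSat A ψ (Function.update (fun j => (w j : ZFSet.{0})) i a) := by
      intro a
      have h3 : θ.Realize w (Fin.snoc default a) ↔
          φ.Realize (Function.update w i a) := by
        refine (FirstOrder.Language.BoundedFormula.realize_relabel (φ := φ) (g := g) (v := w)
          (xs := (Fin.snoc (default : Fin 0 → A) a : Fin (0 + 1) → A))).trans ?_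
        have e1 : (Sum.elim w ((Fin.snoc (default : Fin 0 → A) a : Fin (0 + 1) → A) ∘
            Fin.castAdd 0) ∘ g) = Function.update w i a := by
          funext j
          by_cases hj : j = i
          · subst hj
            simp only [g, Function.comp_apply, if_true, Sum.elim_inr, Function.update_self]
            rfl
          · simp only [g, Function.comp_apply, if_neg hj, Sum.elim_inl,
              Function.update_of_ne hj]
        rw [e1, FirstOrder.Language.Formula.Realize]
        exact iff_of_eq (congrArg _ (Subsingleton.elim _ _))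
      rw [h3, h]
      have e2 : (fun j => ((Function.update w i a j : A) : ZFSet.{0})) =
          Function.update (fun j => (w j : ZFSet.{0})) i a := by
        funext j
        by_cases hj : j = i
        · subst hj
          rw [Function.update_self, Function.update_self]
        · rw [Function.update_of_ne hj, Function.update_of_ne hj]
      rw [e2]
    constructor
    · intro h3 a ha
      exact (h2 ⟨a, ha⟩).1 (h3 ⟨a, ha⟩)
    · intro h3 a
      exact (h2 a).2 (h3 a.1 a.2)

theorem defM_of_defS {A : Set ZFSet.{0}} (hA : A = ∅ ∨ ∅ ∈ A) {x : ZFSet.{0}}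
    (hx : x ∈ DefS A) : x ∈ DefM A := by
  obtain ⟨ψ, v, hv, hxy⟩ := hx
  refine ⟨fun y hy => ((hxy y).1 hy).1, ?_⟩
  rcases hA with hA | hA
  · have he : {z : Fin 1 → A | z 0 ∈ {y : A | (y : ZFSet.{0}) ∈ x}} = ∅ := by
      ext z
      exact absurd (hA.subset (z 0).2) (Set.notMem_empty _)
    show (univ : Set A).Definable LSet {z : Fin 1 → A | z 0 ∈ {y : A | (y : ZFSet.{0}) ∈ x}}
    rw [he]
    exact Set.definable_empty
  · have hvA : ∀ i, v i ∈ A := fun i => by
      rcases hv i with h | h
      · rw [h]
        exact hA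
      · exact h
    obtain ⟨φ, hφ⟩ := exists_formula A ψ
    show (univ : Set A).Definable LSet {z : Fin 1 → A | z 0 ∈ {y : A | (y : ZFSet.{0}) ∈ x}}
    rw [Set.definable_iff_exists_formula_sum]
    let g : ℕ → (univ : Set A) ⊕ Fin 1 :=
      fun j => if j = 0 then Sum.inr 0 else Sum.inl ⟨⟨v j, hvA j⟩, trivial⟩
    refine ⟨φ.relabel g, ?_⟩
    ext z
    have h1 : (φ.relabel g).Realize (Sum.elim (fun a : (univ : Set A) => (a : A)) z) ↔
        SSat A ψ (Function.update v 0 (z 0)) := by
      rw [FirstOrder.Language.Formula.realize_relabel, hφ]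
      have e : (fun i => (((Sum.elim (fun a : (univ : Set A) => (a : A)) z ∘ g) i : A) :
          ZFSet.{0})) = Function.update v 0 (z 0) := by
        funext j
        by_cases hj : j = 0
        · subst hj
          simp only [g, Function.comp_apply, if_true, Sum.elim_inr, Function.update_self]
        · simp only [g, Function.comp_apply, if_neg hj, Sum.elim_inl, Function.update_of_ne hj]
      rw [e]
    show (z 0 : ZFSet.{0}) ∈ x ↔
      (φ.relabel g).Realize (Sum.elim (fun a : (univ : Set A) => (a : A)) z)
    rw [h1, hxy]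
    exact ⟨fun h => h.2, fun h => ⟨(z 0).2, h⟩⟩

end CWV
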