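import Pool.Agent.Work.MP_8b5b22_gt.C.MDefA
import Pool.Agent.Work.MP_8b5b22_gt.C.MDefB
import Pool.Agent.Work.MP_8b5b22_gt.C.LevU

/-!
# Module C/LevM (M)

`Lev α = LevR univ α`.

Write `L α = LevR univ α`; `x ∈ L α ↔ ∃ ζ < α, x ∈ DefS (L ζ)` (`mem_levR`).
* `L α = ∅` (for `α = 0`) or `∅ ∈ L α`: `∅ ∈ DefS (L 0) = DefS ∅` (formula `fls`).
* `L α` is transitive: `x ∈ DefS (L ζ)` is a subset of `L ζ ⊆ L α` (`levR_mono`, `mem_of_defS`).
* `L α ⊆ DefS (L α)`: `x = {y ∈ L α | y ∈ x}`, the formula `mem 0 1`, the assignment constant `x`.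
* so `L (α+1) = DefS (L α)`: `DefS (L ζ) ⊆ L α ⊆ DefS (L α)` for `ζ < α`.
* `DefS (L α) = DefM (L α)` (`defS_of_defM`, `defM_of_defS`).
Induction on `α` (`Ordinal.limitRecOn` / `Ordinal.induction`): `lev_zero`, `lev_succ`, `lev_limit`;
at limits `x ∈ L α` iff `x ∈ L γ` for some `γ < α` (`γ = ζ + 1`).
-/

open Set

namespace CWV

open CWL

private theorem mem_L {α : Od} {x : ZFSet.{0}} :
    x ∈ LevR univ α ↔ ∃ ζ < α, x ∈ DefS (LevR univ ζ) := by
  rw [mem_levR]; simp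

private theorem empty_mem_defS (A : Set ZFSet.{0}) : (∅ : ZFSet.{0}) ∈ DefS A := by
  refine ⟨.fls, fun _ => ∅, fun _ => mem_insert _ _, fun y => ?_⟩
  simp [SSat, ZFSet.notMem_empty]

private theorem L_zero : LevR univ (0 : Od) = ∅ := by
  ext x
  rw [mem_L]
  constructor
  · rintro ⟨ζ, hζ, _⟩
    exact absurd hζ (not_lt.2 zero_le)
  · intro h
    exact h.elim

private theorem empty_mem_L {α : Od} (h : α ≠ 0) : (∅ : ZFSet.{0}) ∈ LevR univ α :=
  mem_L.2 ⟨0, pos_iff_ne_zero.2 h, empty_mem_defS _⟩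

private theorem L_trans {α : Od} {x y : ZFSet.{0}} (hx : x ∈ LevR univ α) (hy : y ∈ x) :
    y ∈ LevR univ α := by
  obtain ⟨ζ, hζ, h⟩ := mem_L.1 hx
  exact levR_mono hζ.le (mem_of_defS h hy)

private theorem L_sub_defS {α : Od} : LevR univ α ⊆ DefS (LevR univ α) := by
  intro x hx
  refine ⟨.mem 0 1, fun _ => x, fun _ => mem_insert_of_mem _ hx, fun y => ?_⟩
  simp only [SSat, Function.update_self]
  rw [Function.update_of_ne (by decide)]
  exact ⟨fun h => ⟨L_trans hx h, h⟩, fun h => h.2⟩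

private theorem L_succ (α : Od) : LevR univ (α + 1) = DefS (LevR univ α) := by
  ext x
  constructor
  · intro hx
    obtain ⟨ζ, hζ, h⟩ := mem_L.1 hx
    rcases eq_or_lt_of_le (Order.lt_add_one_iff.1 hζ) with h1 | h1
    · rw [← h1]; exact h
    · exact L_sub_defS (mem_L.2 ⟨ζ, h1, h⟩)
  · intro hx
    exact mem_L.2 ⟨α, Order.lt_add_one_iff.2 le_rfl, hx⟩

private theorem defS_eq_defM (α : Od) : DefS (LevR univ α) = DefM (LevR univ α) := by
  ext x
  refine ⟨fun h => defM_of_defS ?_ h, fun h => defS_of_defM h⟩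
  by_cases hα : α = 0
  · subst hα
    exact Or.inl L_zero
  · exact Or.inr (empty_mem_L hα)

theorem lev_eq (α : Od) : Lev α = LevR univ α := by
  induction α using Ordinal.limitRecOn with
  | zero => rw [L_zero, lev_zero]
  | add_one α ih => rw [lev_succ, ih, L_succ, defS_eq_defM]
  | limit α hα ih =>
    rw [lev_limit hα]
    ext x
    simp only [mem_iUnion, exists_prop]
    constructor
    · rintro ⟨γ, hγ, hx⟩
      rw [ih γ hγ] at hx
      exact levR_mono hγ.le hx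
    · intro hx
      obtain ⟨ζ, hζ, h⟩ := mem_L.1 hx
      refine ⟨ζ + 1, hα.add_one_lt hζ, ?_⟩
      rw [ih _ (hα.add_one_lt hζ), L_succ]
      exact h

end CWV
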