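import Pool.Agent.Work.MP_8b5b22_gt.C.Base
import Pool.Agent.Work.MP_8b5b22_gt.C.W1

/-!
# Module C/CollX (M)

Increasing enumeration of a bounded set `M` of ordinals.

Let `π x = ⨆ y : {y // y ∈ M ∧ y < x}, (π y + 1)` (well-founded recursion, small family) or use the
order type: `M` is small (a subset of `Iio σ`) and well ordered.  `π` is strictly increasing on `M`
and `π '' M` is an initial segment `Iio β` (if `q < π x`, `x ∈ M`, then `q ≤ π y` for some
`y ∈ M`, `y < x`; induction).  Let `e` be the inverse function.  If `M` is countable then so is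
`Iio β`, so `β < W1` by `lt_W1_iff`.
-/

open Set

universe u

namespace CWV

/-- rank of `x` in `M` -/
private noncomputable def rk (M : Set Od) (x : Od) : Od :=
  ⨆ y : {y : Set.Iio x // y.1 ∈ M}, (rk M y.1.1 + 1)
termination_by x
decreasing_by exact y.1.2

private theorem rk_lt {M : Set Od} {x y : Od} (hy : y ∈ M) (h : y < x) : rk M y < rk M x := by
  have h1 : rk M y + 1 ≤ rk M x := by
    conv_rhs => rw [rk]
    exact Ordinal.le_iSup (fun y : {y : Set.Iio x // y.1 ∈ M} => rk M y.1.1 + 1) ⟨⟨y, h⟩, hy⟩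
  exact (lt_add_one _).trans_le h1

private theorem rk_exists {M : Set Od} {x q : Od} (h : q < rk M x) :
    ∃ y ∈ M, y < x ∧ q ≤ rk M y := by
  rw [rk, Ordinal.lt_iSup_iff] at h
  obtain ⟨y, hy⟩ := h
  exact ⟨y.1.1, y.2, y.1.2, Order.lt_add_one_iff.1 hy⟩

private theorem rk_surj {M : Set Od} (x : Od) : ∀ q < rk M x, ∃ y ∈ M, y < x ∧ rk M y = q := by
  induction x using WellFoundedLT.induction with
  | ind x ih =>
    intro q hq
    obtain ⟨y, hyM, hyx, hqy⟩ := rk_exists hq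
    rcases hqy.eq_or_lt with h | h
    · exact ⟨y, hyM, hyx, h.symm⟩
    · obtain ⟨z, hzM, hzy, hz⟩ := ih y hyx q h
      exact ⟨z, hzM, hzy.trans hyx, hz⟩

theorem exists_coll {σ : Od} {M : Set Od} (hM : ∀ x ∈ M, x < σ) :
    ∃ (β : Od) (e : Od → Od), Coll M β e ∧ (M.Countable → β < W1) := by
  classical
  have hch : ∀ q : Od, ∃ y : Od, q < rk M σ → y ∈ M ∧ rk M y = q := by
    intro q
    by_cases hq : q < rk M σ
    · obtain ⟨y, h1, -, h2⟩ := rk_surj σ q hq
      exact ⟨y, fun _ => ⟨h1, h2⟩⟩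
    · exact ⟨0, fun h => absurd h hq⟩
  choose e he using hch
  have hmono : ∀ x ∈ M, ∀ y ∈ M, (rk M x ≤ rk M y → x ≤ y) := by
    intro x hx y hy h
    by_contra hlt
    exact absurd (rk_lt hy (not_le.1 hlt)) (not_lt.2 h)
  refine ⟨rk M σ, e, ⟨?_, ?_, ?_⟩, ?_⟩
  · intro a b hab hb
    obtain ⟨h1, h2⟩ := he a (hab.trans hb)
    obtain ⟨h3, h4⟩ := he b hb
    by_contra hlt
    have h5 : e b ≤ e a := not_lt.1 hlt
    rcases h5.eq_or_lt with h6 | h6
    · rw [h6] at h4
      exact hab.ne (h2.symm.trans h4)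
    · have h7 := rk_lt h3 h6
      rw [h2, h4] at h7
      exact absurd h7 (not_lt.2 hab.le)
  · intro a ha
    exact (he a ha).1
  · intro x hx
    have h1 := rk_lt hx (hM x hx)
    refine ⟨rk M x, h1, ?_⟩
    obtain ⟨h2, h3⟩ := he _ h1
    exact le_antisymm (hmono _ h2 _ hx h3.le) (hmono _ hx _ h2 h3.ge)
  · intro hc
    rw [lt_W1_iff]
    refine (hc.image (rk M)).mono ?_
    intro q hq
    obtain ⟨y, h1, -, h2⟩ := rk_surj σ q hq
    exact ⟨y, h1, h2⟩

end CWV
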