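import Pool.Agent.Work.MP_8b5b22_gt.C.CElem
import Pool.Agent.Work.MP_8b5b22_gt.C.SDefs
import Pool.Agent.Work.MP_8b5b22_gt.C.DclB
import Pool.Agent.Work.MP_8b5b22_gt.C.DclC
import Pool.Agent.Work.MP_8b5b22_gt.C.CollX

/-!
# Module C/Hull (S-M)

Every countable set of parameters has a countable hull: `M = dcl σ A`; `tv_dcl`, `countable_dcl`,
`exists_coll`, `coll_closed`, `agree_all`, `elem_of_agree` (`e ∘ nc = nc` by `funext` on `Empty`).
-/

open Set

universe u

namespace CWV

theorem exists_hull {σ : Od} {A : Set Od} (hσ : Closed σ) (hω : Ordinal.omega0 < σ)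
    (hA : A.Countable) : ∃ (β : Od) (e : Od → Od), Hl σ (dcl σ A) β e ∧ β < W1 := by
  obtain ⟨β, e, hc, hW⟩ := exists_coll (σ := σ) (M := dcl σ A) fun x hx => hx.1
  have hM : TV σ (dcl σ A) := tv_dcl σ A
  have ha : Agree e β := agree_all hσ hω.le hM hc
  refine ⟨β, e, ⟨hσ, hω, ?_, hM, hc, ?_, ?_⟩, hW (countable_dcl hA)⟩
  · exact coll_closed hσ hM hc
  · intro C c φ v hcs hv
    exact elem_of_agree hM hc ha c hcs φ v hv
  · intro φ v hv
    have h := elem_of_agree hM hc ha nc (fun x => x.elim) φ v hv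
    have h2 : e ∘ nc = nc := by
      funext x
      exact x.elim
    rwa [h2] at h

end CWV
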