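import Pool.Agent.Work.MP_8b5b22_gt.C.GoodH
import Pool.Agent.Work.MP_8b5b22_gt.C.Hull
import Pool.Agent.Work.MP_8b5b22_gt.C.Coded
import Pool.Agent.Work.MP_8b5b22_gt.C.DCod
import Pool.Agent.Work.MP_8b5b22_gt.C.DclC
import Pool.Agent.Work.MP_8b5b22_gt.C.DclB
import Pool.Agent.Work.MP_8b5b22_gt.C.Pair2

/-!
# Module C/PA (M)

Part (a) of the guessing principle.

Let `γ` be a code of the relation `b = F a` on `ω₁` (`exists_coded`) and `σ` closed, larger than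
`γ`, `W1` (`exists_closed`; `ω < W1 < σ`).  `A₀ = {γ, W1}`.  For `ζ < W1` the set
`dcl σ (Iio (ζ+1) ∪ A₀) ∩ Iio W1` is countable (`countable_dcl`, `lt_W1_iff`, `succ_lt_W1`); let
`h ζ < W1` be a strict bound (`bound_W1`).  Let `0 < δ < W1` be closed under `h`, and
`M = dcl σ (Iio δ ∪ A₀)`.  For `x < W1`: `x ∈ M ↔ x < δ`: (←) `subset_dcl`; (→) `dcl_finite`: `x` is in
`dcl σ B` for a finite `B ⊆ Iio δ ∪ A₀`; there is `ζ < δ` with `B ⊆ Iio (ζ+1) ∪ A₀` (the maximum of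
`B ∩ Iio δ`, or `0`); so `x < h ζ < δ`.  `W1 ∈ M`.  `exists_hull` gives `H : Hl σ M β e`, and
`Good β δ` by `good_of_hull`.  For `ζ < δ`: `F ζ ∈ M` (`TV` for `D y := y < W1 ∧ ζ < W1 ∧ y = F ζ`,
definable by `dfn_coded`), so `F ζ < δ`.  `F' ζ = if ζ < δ then F ζ else 0`.  `DR β (a < δ ∧ b = F' a)`:
from `Hl.push` for `R' a b := a < W1 ∧ b < W1 ∧ b = F a` (`dfn_coded`, `Dfn.mono`), and for `a, b < β`:
`a < δ ∧ b = F' a` iff `e a < W1 ∧ e b < W1 ∧ e b = F (e a)` (`Hl.delta`), with `Dfn.congr`.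
-/

open Set

universe u

namespace CWV

private theorem finite_cut {δ : Od} (h0 : 0 < δ) {A B : Set Od} (hB : B.Finite)
    (hBA : B ⊆ Set.Iio δ ∪ A) : ∃ ζ < δ, B ⊆ Set.Iio (ζ + 1) ∪ A := by
  induction B, hB using Set.Finite.induction_on with
  | empty => exact ⟨0, h0, Set.empty_subset _⟩
  | @insert a B _ _ ih =>
    obtain ⟨ζ, hζ, hBζ⟩ := ih fun x hx => hBA (Set.mem_insert_of_mem _ hx)
    rcases hBA (Set.mem_insert a B) with ha | ha
    · refine ⟨max ζ a, max_lt hζ ha, ?_⟩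
      rintro x (rfl | hx)
      · exact Or.inl (Set.mem_Iio.2 (Order.lt_add_one_iff.2 (le_max_right _ _)))
      · rcases hBζ hx with h | h
        · exact Or.inl (Set.mem_Iio.2 (Order.lt_add_one_iff.2
            ((Order.lt_add_one_iff.1 (Set.mem_Iio.1 h)).trans (le_max_left _ _))))
        · exact Or.inr h
    · refine ⟨ζ, hζ, ?_⟩
      rintro x (rfl | hx)
      · exact Or.inr ha
      · exact hBζ hx

theorem partA (H : HC) {F : Od → Od} (hF : ∀ ζ < W1, F ζ < W1) :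
    ∃ h : Od → Od, (∀ ζ < W1, h ζ < W1) ∧ ∀ δ < W1, 0 < δ → (∀ ζ < δ, h ζ < δ) →
      ∃ F' ∈ MM δ, ∀ ζ < δ, F' ζ = F ζ := by
  classical
  obtain ⟨γ, hγ⟩ := exists_coded H (fun a b => b = F a)
  obtain ⟨σ, hσ1, hσ⟩ := exists_closed (max γ W1)
  have hγσ : γ < σ := (le_max_left _ _).trans_lt hσ1
  have hWσ : W1 < σ := (le_max_right _ _).trans_lt hσ1
  -- the bounds
  have hb : ∀ ζ : Od, ζ < W1 → ∃ b < W1,
      ∀ a ∈ dcl σ (Set.Iio (ζ + 1) ∪ {γ, W1}) ∩ Set.Iio W1, a < b := by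
    intro ζ hζ
    refine bound_W1 ((countable_dcl ?_).mono Set.inter_subset_left) fun a ha => ha.2
    exact (lt_W1_iff.1 (succ_lt_W1 hζ)).union ((Set.countable_singleton W1).insert γ)
  choose! h hh1 hh2 using hb
  refine ⟨h, hh1, fun δ hδ h0 hcl => ?_⟩
  have hA : ∀ a ∈ Set.Iio δ ∪ ({γ, W1} : Set Od), a < σ := by
    rintro a (ha | rfl | rfl)
    · exact ha.trans (hδ.trans hWσ)
    · exact hγσ
    · exact hWσ
  set M : Set Od := dcl σ (Set.Iio δ ∪ {γ, W1}) with hM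
  have hAM : Set.Iio δ ∪ ({γ, W1} : Set Od) ⊆ M := subset_dcl hA
  have hδM : ∀ x < W1, (x ∈ M ↔ x < δ) := by
    intro x hx
    constructor
    · intro hxM
      obtain ⟨B, hB, hfin, hxB⟩ := dcl_finite hxM
      obtain ⟨ζ, hζ, hBζ⟩ := finite_cut h0 hfin hB
      exact (hh2 ζ (hζ.trans hδ) x ⟨dcl_mono hBζ hxB, hx⟩).trans (hcl ζ hζ)
    · exact fun hx' => hAM (Or.inl hx')
  have hWM : W1 ∈ M := hAM (Or.inr (Or.inr rfl))
  have hγM : γ ∈ M := hAM (Or.inr (Or.inl rfl))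
  obtain ⟨β, e, hH, -⟩ := exists_hull hσ (omega_lt_W1.trans hWσ)
    ((lt_W1_iff.1 hδ).union ((Set.countable_singleton W1).insert γ))
  have hgood : Good β δ := good_of_hull hH hδ hδM hWM
  have hR : Dfn σ M (fun v => v 0 < W1 ∧ v 1 < W1 ∧ v 1 = F (v 0)) := by
    refine (dfn_coded hσ hγσ (R := fun a b => a < W1 ∧ b < W1 ∧ b = F a) hγ).mono ?_
    rintro x rfl
    exact hγM
  -- the values of `F` below `δ`
  have hFδ : ∀ ζ < δ, F ζ < δ := by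
    intro ζ hζ
    have hζW : ζ < W1 := hζ.trans hδ
    have hζM : ζ ∈ M := (hδM ζ hζW).2 hζ
    have h1 : Dfn σ M (fun v => ζ < W1 ∧ v 1 < W1 ∧ v 1 = F ζ) := by
      refine (hR.subst hζM (hζW.trans hWσ) 0).congr fun v _ => ?_
      simp
    obtain ⟨x, hxM, -, -, hx⟩ := hH.tv.2 (fun y => ζ < W1 ∧ y < W1 ∧ y = F ζ) 1 h1
      ⟨F ζ, (hF ζ hζW).trans hWσ, hζW, hF ζ hζW, rfl⟩
    rw [← hδM (F ζ) (hF ζ hζW), ← hx]
    exact hxM
  obtain ⟨-, hδβ, hfix, hlow⟩ := hH.delta hδ hδM hWM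
  refine ⟨fun ζ => if ζ < δ then F ζ else 0, ⟨?_, ?_, β, hgood, ?_⟩, ?_⟩
  · intro ζ hζ
    simp only [if_pos hζ]
    exact hFδ ζ hζ
  · intro ζ hζ
    simp only [if_neg hζ.not_gt]
  · refine (hH.push (R' := fun a b => a < W1 ∧ b < W1 ∧ b = F a) hR).congr fun v _ => ?_
    constructor
    · rintro ⟨h1, h2, h3, h4, h5⟩
      have h6 := hlow _ h1 h3
      have h7 := hlow _ h2 h4
      refine ⟨h6, ?_⟩
      simp only [if_pos h6]
      rwa [hfix _ h6, hfix _ h7] at h5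
    · rintro ⟨h1, h2⟩
      simp only [if_pos h1] at h2
      have h3 : v 1 < δ := by
        rw [h2]
        exact hFδ _ h1
      refine ⟨h1.trans hδβ, h3.trans hδβ, ?_⟩
      rw [hfix _ h1, hfix _ h3]
      exact ⟨h1.trans hδ, h3.trans hδ, h2⟩
  · intro ζ hζ
    simp only [if_pos hζ]

end CWV
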