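import Pool.Agent.Work.MP_8b5b22_gt.C.Ren

/-!
# Module C/DclA (M)

Parameters from the definable closure can be eliminated.

Let `φ` be a formula with constants from `dcl σ A`; show `Dfn σ A (fun v => Sat σ (↑) φ v)` by
induction on `φ` (cases `fls, imp, all`: closure properties of `Dfn`).  Atomic case: for a term `t`
(a variable `j` or a constant `a ∈ dcl σ A`) and a variable `k`, the predicate `v k = tv (↑) v t` is
definable: for a variable `Dfn.eq k j`, for a constant the definition of `dcl` and `Dfn.ren1`.
For `rel r a b d` choose three variables `k, l, m` which are different and larger than all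
variables in `a, b, d`; then
`RelV E r (tv a) (tv b) (tv d) ↔ ∃ x y z < σ (at k, l, m), x = tv a ∧ y = tv b ∧ z = tv d ∧
RelV E r x y z` (the values are `< σ`).
-/

open Set

universe u

namespace CWV

/-- the variable of a term (`0` for constants) -/
private def vbd {C : Type*} (t : ℕ ⊕ C) : ℕ := Sum.elim id (fun _ => 0) t

private theorem tv_upd {C : Type*} (c : C → Od) (v : ℕ → Od) (t : ℕ ⊕ C) {k : ℕ} (h : vbd t < k)
    (x : Od) : tv c (Function.update v k x) t = tv c v t := by
  cases t with
  | inl j =>
    have : j ≠ k := by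
      simp only [vbd, Sum.elim_inl, id] at h
      omega
    simp [tv, Function.update_of_ne this]
  | inr a => simp [tv]

private theorem dfn_tm {σ : Od} {A : Set Od} (t : ℕ ⊕ dcl σ A) (k : ℕ) :
    Dfn σ A (fun v => v k = tv (fun a : dcl σ A => (a : Od)) v t) := by
  cases t with
  | inl j => exact Dfn.eq k j
  | inr a =>
    exact Dfn.ren1 (P := fun x => x = (a : Od)) (i := 0) a.2.2 k

private theorem tm_lt {σ : Od} {A : Set Od} (t : ℕ ⊕ dcl σ A) {v : ℕ → Od} (hv : ∀ i, v i < σ) :
    tv (fun a : dcl σ A => (a : Od)) v t < σ := by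
  cases t with
  | inl j => exact hv j
  | inr a => exact a.2.1

theorem dfn_of_dcl {σ : Od} {A : Set Od} {P : (ℕ → Od) → Prop} (h : Dfn σ (dcl σ A) P) :
    Dfn σ A P := by
  obtain ⟨φ, hφ⟩ := h
  refine Dfn.congr (P := fun v => Sat σ (fun a : dcl σ A => (a : Od)) φ v) ?_ hφ
  clear hφ
  induction φ with
  | fls => exact Dfn.fls
  | imp φ ψ ih1 ih2 => exact ih1.imp ih2
  | all i φ ih => exact ih.all i
  | rel r a b d =>
    set N : ℕ := vbd a + vbd b + vbd d with hN
    have h1 := ((dfn_tm a (N + 1)).and ((dfn_tm b (N + 2)).and ((dfn_tm d (N + 3)).and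
      (Dfn.rel (σ := σ) (A := A) r (N + 1) (N + 2) (N + 3)))))
    refine (((h1.ex (N + 3)).ex (N + 2)).ex (N + 1)).congr fun v hv => ?_
    have e1 : ∀ (t : ℕ ⊕ dcl σ A), vbd t ≤ N → ∀ (w : ℕ → Od) (x y z : Od),
        tv (fun a : dcl σ A => (a : Od)) (Function.update (Function.update (Function.update w
          (N + 1) x) (N + 2) y) (N + 3) z) t = tv (fun a : dcl σ A => (a : Od)) w t := by
      intro t ht w x y z
      rw [tv_upd _ _ _ (by omega), tv_upd _ _ _ (by omega), tv_upd _ _ _ (by omega)]
    have e2 : ∀ (w : ℕ → Od) (x y z : Od), (Function.update (Function.update (Function.update w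
          (N + 1) x) (N + 2) y) (N + 3) z) (N + 1) = x := by
      intro w x y z
      rw [Function.update_of_ne (by omega), Function.update_of_ne (by omega),
        Function.update_self]
    have e3 : ∀ (w : ℕ → Od) (x y z : Od), (Function.update (Function.update (Function.update w
          (N + 1) x) (N + 2) y) (N + 3) z) (N + 2) = y := by
      intro w x y z
      rw [Function.update_of_ne (by omega), Function.update_self]
    have e4 : ∀ (w : ℕ → Od) (x y z : Od), (Function.update (Function.update (Function.update w
          (N + 1) x) (N + 2) y) (N + 3) z) (N + 3) = z := by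
      intro w x y z
      rw [Function.update_self]
    simp only [e1 a (by omega), e1 b (by omega), e1 d (by omega), e2, e3, e4]
    rw [sat_rel]
    constructor
    · rintro ⟨x, -, y, -, z, -, rfl, rfl, rfl, h⟩
      exact h
    · intro h
      exact ⟨_, tm_lt a hv, _, tm_lt b hv, _, tm_lt d hv, rfl, rfl, rfl, h⟩

end CWV
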