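import Pool.Agent.Work.MP_8b5b22_gt.C.Code
import Pool.Agent.Work.MP_8b5b22_gt.C.Dfn

/-!
# Module C/OneQ (S-M)

A predicate definable from the single parameter `p` is given by a formula `fml n` at `asg ξ p`.
Let `φ : Fm {p}` define it.  Choose a variable `k ≥ 1` larger than all variables occurring in `φ`
and let `φ' : Fm Empty` be `φ` with the constant replaced by the variable `k`; by induction on `φ`,
for all `v` with `v k = p`: `Sat σ nc φ' v ↔ Sat σ (↑) φ v` (bound variables are `≠ k`).  The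
assignment `asg ξ p` satisfies `v k = p`, `v 0 = ξ`.  `φ' = fml n` by `fml_surjective`.
-/

open Set

universe u

namespace CWV

private theorem repl_const {σ p : Od} (φ : Fm ({p} : Set Od)) :
    ∃ K : ℕ, ∀ k, K ≤ k → ∃ ψ : Fm Empty, ∀ v : ℕ → Od, v k = p →
      (Sat σ nc ψ v ↔ Sat σ (fun a : ({p} : Set Od) => (a : Od)) φ v) := by
  induction φ with
  | rel r a b d =>
    refine ⟨0, fun k _ => ?_⟩
    let t : ℕ ⊕ ({p} : Set Od) → ℕ ⊕ Empty := fun s => Sum.inl (Sum.elim id (fun _ => k) s)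
    refine ⟨Fm.rel r (t a) (t b) (t d), fun v hv => ?_⟩
    have key : ∀ s : ℕ ⊕ ({p} : Set Od), tv nc v (t s) =
        tv (fun a : ({p} : Set Od) => (a : Od)) v s := by
      intro s
      cases s with
      | inl j => rfl
      | inr x =>
        have hx : (x : Od) = p := x.2
        change v k = (x : Od)
        rw [hv, hx]
    rw [sat_rel, sat_rel, key, key, key]
  | fls => exact ⟨0, fun k _ => ⟨Fm.fls, fun v _ => by simp⟩⟩
  | imp φ ψ ih1 ih2 =>
    obtain ⟨K1, h1⟩ := ih1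
    obtain ⟨K2, h2⟩ := ih2
    refine ⟨max K1 K2, fun k hk => ?_⟩
    obtain ⟨φ', hφ⟩ := h1 k ((le_max_left _ _).trans hk)
    obtain ⟨ψ', hψ⟩ := h2 k ((le_max_right _ _).trans hk)
    exact ⟨φ'.imp ψ', fun v hv => by rw [sat_imp, sat_imp, hφ v hv, hψ v hv]⟩
  | all i φ ih =>
    obtain ⟨K, h⟩ := ih
    refine ⟨max K (i + 1), fun k hk => ?_⟩
    obtain ⟨φ', hφ⟩ := h k ((le_max_left _ _).trans hk)
    have hik : k ≠ i := by
      have := (le_max_right K (i + 1)).trans hk
      omega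
    refine ⟨Fm.all i φ', fun v hv => ?_⟩
    rw [sat_all, sat_all]
    refine forall₂_congr fun x _ => hφ _ ?_
    rw [Function.update_of_ne hik, hv]

theorem one_fml {σ p : Od} (hp : p < σ) {D : Od → Prop}
    (h : Dfn σ {p} (fun v => D (v 0))) :
    ∃ n : ℕ, ∀ ξ < σ, (D ξ ↔ Sat σ nc (fml n) (asg ξ p)) := by
  obtain ⟨φ, hφ⟩ := h
  obtain ⟨K, hK⟩ := repl_const (σ := σ) φ
  obtain ⟨ψ, hψ⟩ := hK (max K 1) (le_max_left _ _)
  obtain ⟨n, hn⟩ := fml_surjective ψ
  refine ⟨n, fun ξ hξ => ?_⟩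
  have hk : asg ξ p (max K 1) = p := by
    have : max K 1 ≠ 0 := by
      have := le_max_right K 1
      omega
    simp only [asg, if_neg this]
  have hlt : ∀ i, asg ξ p i < σ := by
    intro i
    unfold asg
    split_ifs
    · exact hξ
    · exact hp
  rw [hn, hψ _ hk, hφ _ hlt]
  exact Iff.rfl

end CWV
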