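import Pool.Agent.Work.MP_8b5b22_gt.C.GoodH
import Pool.Agent.Work.MP_8b5b22_gt.C.OneQ
import Pool.Agent.Work.MP_8b5b22_gt.C.DclA
import Pool.Agent.Work.MP_8b5b22_gt.C.DclB

/-!
# Module C/PBb (M)

Part (b): in the pointwise definable case all good `s` are `≤ β`.

Let `p = e q`, `q < β`.  Let `s` be good and suppose `β < s`; `s` is closed, `ω < δ < s`
(`Hl.omega_lt`), so `β, q, ω, n < s`.  Let
`R a b := ∃ n : ℕ, a = n ∧ b < β ∧ E (g (g β n) q) = {b}`.
`R` is bounded by `s`.  `DR s R`: for `a, b < s`, `R a b` iff `a < ω ∧ b < β ∧ ∃ u < s, ∃ w < s,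
u = g β a ∧ w = g u q ∧ b ∈ E w ∧ ∀ x < s, x ∈ E w → x = b` (`s` closed; elements of `E w` are
`< w < s`; `Ordinal.lt_omega0`).  `Surj δ R`: let `b < δ`; `b < β`, `e b = b ∈ M = dcl σ {p}`, so some
`φ : Fm {p}` defines the predicate `v 0 = b` over `σ`; `H.el` with the constant map `fun _ => q`
(and `e q = p`) shows that the same formula defines `v 0 = b` over the structure on `β` with the
constant `q` (`e x = b ↔ x = b`), so `Dfn β {q} (fun v => v 0 = b)`; `one_fml` gives `n` with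
`x = b ↔ Sat β nc (fml n) (asg x q)` for `x < β`; `mem_E_code` gives `E (g (g β n) q) = {b}`.
Uniqueness: `R n b'` gives `{b'} = E (g (g β n) q) = {b}` (`Nat.cast_injective`).  So `Good s δ` fails.
-/

open Set

universe u

namespace CWV

theorem good_le {σ β δ p : Od} {e : Od → Od} (H : Hl σ (dcl σ {p}) β e) (hp : p < σ)
    (hd : δ < W1) (hδ : ∀ x < W1, (x ∈ dcl σ {p} ↔ x < δ)) (hW : W1 ∈ dcl σ {p}) {s : Od}
    (hs : Good s δ) : s ≤ β := by
  by_contra hcon
  rw [not_le] at hcon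
  obtain ⟨hsc, hδs, hgood⟩ := hs
  obtain ⟨heδ, hδβ, hid, hlt⟩ := H.delta hd hδ hW
  have hω : Ordinal.omega0 < δ := H.omega_lt hδ
  have hpM : p ∈ dcl σ {p} := subset_dcl (by simpa using hp) (mem_singleton p)
  obtain ⟨q, hq, heq⟩ := H.co.surj p hpM
  have hqs : q < s := hq.trans hcon
  have hωs : Ordinal.omega0 < s := hω.trans hδs
  refine hgood (fun a b => ∃ n : ℕ, a = n ∧ b < β ∧ E (g (g β n) q) = {b}) ?_ ?_ ?_
  · rintro a b ⟨n, rfl, hb, -⟩
    exact ⟨((nat_lt_omega n).trans hω).trans hδs, hb.trans hcon⟩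
  · have h1 : Dfn s (Set.Iio s) (fun v => v 4 ∈ E (v 3) → v 4 = v 1) :=
      (Dfn.mem 4 3).imp (Dfn.eq 4 1)
    have h2 : Dfn s (Set.Iio s) (fun v => (v 0 < v 5 ∧ v 1 < v 6) ∧
        ∃ u < s, ∃ w < s, u = g (v 6) (v 0) ∧ w = g u (v 7) ∧ v 1 ∈ E w ∧
          ∀ x < s, x ∈ E w → x = v 1) := by
      refine (((Dfn.lt 0 5).and (Dfn.lt 1 6)).and
        (((Dfn.pr 2 6 0).and ((Dfn.pr 3 2 7).and ((Dfn.mem 1 3).and (h1.all 4)))).ex 3 |>.ex 2)).congr
        fun v _ => ?_
      simp [Function.update_apply]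
    have h3 := ((h2.subst (mem_Iio.2 hωs) hωs 5).subst (mem_Iio.2 hcon) hcon 6).subst
      (mem_Iio.2 hqs) hqs 7
    refine h3.congr fun v hv => ?_
    simp only [Function.update_apply]
    norm_num
    constructor
    · rintro ⟨⟨h0, hb⟩, u, hu, w, hw, rfl, rfl, hbw, hx⟩
      obtain ⟨n, hn⟩ := Ordinal.lt_omega0.1 h0
      rw [hn] at hbw hx
      refine ⟨n, hn, hb, ?_⟩
      ext x
      simp only [mem_singleton_iff]
      constructor
      · intro hxE
        refine hx x ?_ hxE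
        have := E_lt hxE
        rw [← hn] at this
        exact this.trans hw
      · rintro rfl
        exact hbw
    · rintro ⟨n, hn, hb, hE⟩
      have h0 : v 0 < s := hv 0
      have hu : g β (v 0) < s := hsc.2 _ hcon _ h0
      have hw : g (g β (v 0)) q < s := hsc.2 _ hu _ hqs
      refine ⟨⟨?_, hb⟩, _, hu, _, hw, rfl, rfl, ?_, ?_⟩
      · rw [hn]
        exact nat_lt_omega n
      · rw [hn, hE]
        exact mem_singleton _
      · intro x _ hx
        rw [hn, hE] at hx
        exact hx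
  · intro b hb
    have hbW : b < W1 := hb.trans hd
    obtain ⟨-, φ, hφ⟩ := (hδ b hbW).2 hb
    have hel : ∀ v : ℕ → Od, (∀ i, v i < β) →
        (Sat β (fun _ : ({p} : Set Od) => q) φ v ↔ v 0 = b) := by
      intro v hv
      rw [H.el _ (fun _ : ({p} : Set Od) => q) φ v (fun _ => hq) hv]
      have hc : (e ∘ fun _ : ({p} : Set Od) => q) = fun a : ({p} : Set Od) => (a : Od) := by
        funext a
        have ha : (a : Od) = p := a.2
        simp [heq, ha]
      rw [hc, hφ (e ∘ v) (fun i => H.tv.1 _ (H.co.mem _ (hv i)))]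
      simp only [Function.comp]
      constructor
      · intro h
        refine H.co.inj (hv 0) (hb.trans hδβ) ?_
        rw [h, hid b hb]
      · intro h
        rw [h, hid b hb]
    have hdf : Dfn β {q} (fun v => v 0 = b) := by
      refine ⟨φ.map (fun _ => ⟨q, mem_singleton q⟩), fun v hv => ?_⟩
      rw [sat_map]
      exact hel v hv
    obtain ⟨n, hn⟩ := one_fml hq (D := fun x => x = b) hdf
    have hE : E (g (g β n) q) = {b} := by
      ext x
      rw [mem_E_code, mem_singleton_iff]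
      constructor
      · rintro ⟨-, hx, hsat⟩
        exact (hn x hx).2 hsat
      · rintro rfl
        exact ⟨hq, hb.trans hδβ, (hn x (hb.trans hδβ)).1 rfl⟩
    refine ⟨n, ⟨n, rfl, hb.trans hδβ, hE⟩, ?_⟩
    rintro b' ⟨m, hm, -, hE'⟩
    have hm' : n = m := by exact_mod_cast hm
    subst hm'
    rw [hE] at hE'
    exact (singleton_eq_singleton_iff.1 hE').symm

end CWV
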