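import Pool.Agent.Work.MP_8b5b22_gt.C.GoodH

/-!
# Module C/PBc (M)

Part (b): functions definable over the collapse extend to `ω₁`.

Let `R a b := a < δ ∧ b = F a`, `R'` as in `Hl.pull`.  Claim: for all `ζ < W1` there is exactly one
`η < σ` with `R' ζ η`, and `η < W1`.  Otherwise, as the set of the `ζ < W1` for which this fails is
definable over `M` (`W1 ∈ M`; `¬ ∃ η < σ, η < W1 ∧ R' ζ η ∧ ∀ η' < σ, R' ζ η' → η' = η`), there is one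
in `M` by `TV`, so `ζ < δ`, `e ζ = ζ`.  `F ζ < δ`, `e (F ζ) = F ζ`, so `R' ζ (F ζ)`.  If `R' ζ η'` with
`η' < σ`, `η' ≠ F ζ`, there is such `η' ∈ M` by `TV`, `η' = e η₀`, `R ζ η₀`, `η₀ = F ζ`, contradiction.
Let `G ζ` be this `η` for `ζ < W1` and `0` otherwise.  `G ζ = F ζ` for `ζ < δ`.
`v 0 < W1 ∧ v 1 = G (v 0)` iff `v 0 < W1 ∧ R' (v 0) (v 1)` for values `< σ`.
-/

open Set

universe u

namespace CWV

theorem star_fun {σ β δ : Od} {M : Set Od} {e : Od → Od} (H : Hl σ M β e) (hd : δ < W1)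
    (hδ : ∀ x < W1, (x ∈ M ↔ x < δ)) (hW : W1 ∈ M) {F : Od → Od} (hF : ∀ ζ < δ, F ζ < δ)
    (hD : DR β (fun a b => a < δ ∧ b = F a)) :
    ∃ G : Od → Od, (∀ ζ < W1, G ζ < W1) ∧ (∀ ζ < δ, G ζ = F ζ) ∧
      Dfn σ M (fun v => v 0 < W1 ∧ v 1 = G (v 0)) := by
  obtain ⟨-, hδβ, hfix, -⟩ := H.delta hd hδ hW
  obtain ⟨R', hR', hRR⟩ := H.pull hD
  have hWσ : W1 < σ := H.tv.1 _ hW
  have k0 : Dfn σ M (fun v => v 0 < W1) :=
    ((Dfn.lt 0 5).subst hW hWσ 5).congr fun v _ => by simp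
  have hRF : ∀ ζ < δ, R' ζ (F ζ) := by
    intro ζ hζ
    have h1 := (hRR ζ (hζ.trans hδβ) (F ζ) ((hF ζ hζ).trans hδβ)).1 ⟨hζ, rfl⟩
    rwa [hfix _ hζ, hfix _ (hF ζ hζ)] at h1
  -- the set of the exceptions is definable
  have hD1 : Dfn σ M (fun v => v 0 < W1 ∧ ¬ ∃ η < σ, η < W1 ∧ R' (v 0) η ∧
      ∀ η' < σ, R' (v 0) η' → η' = η) := by
    have k2 : Dfn σ M (fun v => v 2 < W1) :=
      ((Dfn.lt 2 5).subst hW hWσ 5).congr fun v _ => by simp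
    have k3 : Dfn σ M (fun v => ∀ b' < σ, R' (v 0) b' → b' = v 2) :=
      (((hR'.ren2 0 3).imp (Dfn.eq 3 2)).all 3).congr fun v _ => by simp
    refine (k0.and ((k2.and ((hR'.ren2 0 2).and k3)).ex 2).not).congr fun v _ => ?_
    simp
  have key : ∀ ζ < W1, ∃ η < σ, η < W1 ∧ R' ζ η ∧ ∀ η' < σ, R' ζ η' → η' = η := by
    by_contra hcon
    push Not at hcon
    obtain ⟨b₁, hb₁, hb₁'⟩ := hcon
    obtain ⟨ζ, hζM, hζW, hζ⟩ := H.tv.2 (fun ζ => ζ < W1 ∧ ¬ ∃ η < σ, η < W1 ∧ R' ζ η ∧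
      ∀ η' < σ, R' ζ η' → η' = η) 0 hD1 ⟨b₁, hb₁.trans hWσ, hb₁, fun ⟨n, h1, h2, h3, h4⟩ => by
        obtain ⟨b', h5, h6, h7⟩ := hb₁' n h1 h2 h3
        exact h7 (h4 b' h5 h6)⟩
    have hζδ : ζ < δ := (hδ ζ hζW).1 hζM
    have hFδ : F ζ < δ := hF ζ hζδ
    have hFM : F ζ ∈ M := (hδ _ (hFδ.trans hd)).2 hFδ
    refine hζ ⟨F ζ, H.tv.1 _ hFM, hFδ.trans hd, hRF ζ hζδ, ?_⟩
    by_contra hcon2
    push Not at hcon2
    obtain ⟨b₂, hb₂, hb₂R, hb₂n⟩ := hcon2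
    have hD2 : Dfn σ M (fun v => R' ζ (v 0) ∧ v 0 ≠ F ζ) := by
      have k1 : Dfn σ M (fun v => R' ζ (v 0)) :=
        ((hR'.ren2 7 0).subst hζM (H.tv.1 _ hζM) 7).congr fun v _ => by simp
      have k2 : Dfn σ M (fun v => v 0 = F ζ) :=
        ((Dfn.eq 0 8).subst hFM (H.tv.1 _ hFM) 8).congr fun v _ => by simp
      exact k1.and k2.not
    obtain ⟨b', hb'M, hb'R, hb'n⟩ := H.tv.2 (fun x => R' ζ x ∧ x ≠ F ζ) 0 hD2
      ⟨b₂, hb₂, hb₂R, hb₂n⟩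
    obtain ⟨b₀, hb₀, rfl⟩ := H.co.surj b' hb'M
    have h1 := (hRR ζ (hζδ.trans hδβ) b₀ hb₀).2 (by rwa [hfix _ hζδ])
    exact hb'n (by rw [h1.2]; exact hfix _ hFδ)
  choose! G hG1 hG2 hG3 hG4 using key
  refine ⟨G, hG2, fun ζ hζ => ?_, ?_⟩
  · have hFM : F ζ ∈ M := (hδ _ ((hF ζ hζ).trans hd)).2 (hF ζ hζ)
    exact (hG4 ζ (hζ.trans hd) _ (H.tv.1 _ hFM) (hRF ζ hζ)).symm
  · refine (k0.and hR').congr fun v hv => and_congr_right fun h0 => ?_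
    constructor
    · exact hG4 _ h0 _ (hv 1)
    · intro h1
      rw [h1]
      exact hG3 _ h0

end CWV
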