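import Pool.Agent.Work.MP_8b5b22_gt.C.PBa
import Pool.Agent.Work.MP_8b5b22_gt.C.PBb
import Pool.Agent.Work.MP_8b5b22_gt.C.PBc
import Pool.Agent.Work.MP_8b5b22_gt.C.SMono

/-!
# Module C/PBd (M)

Part (b) of the guessing principle.

Apply `exists_pointwise` to `R a b := ∃ n : ℕ, a = n ∧ b ∈ A n`.  Let `Φ ⊆ MM δ` be finite, `γ < δ`.
Each `F ∈ Φ` maps `δ` to `δ` and there is a good `s` with `DR s (a < δ ∧ b = F a)`; `s ≤ β`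
(`good_le`), so `DR β (…)` by `dr_mono` (bounded: `b = F a < δ < s`).  `star_fun` gives `G F`.  Let
`D ξ := ξ < W1 ∧ ξ ∈ A n ∧ γ < ξ ∧ ∀ F ∈ Φ, ∀ ζ < ξ, G F ζ < ξ`.  It is definable over `M`: constants
`W1, γ, n ∈ M` (`γ < δ`; `nat_mem`; `ξ ∈ A n` for `ξ < W1` iff `n < W1 ∧ ξ < W1 ∧ R n ξ`); the
conjunction over the finite set `Φ` by `Set.Finite.induction_on`;
`∀ ζ < ξ, G F ζ < ξ` iff `∀ ζ < σ, ζ < ξ → ∀ η < σ, (ζ < W1 ∧ η = G F ζ) → η < ξ` (`G F ζ < W1 < σ`;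
`Dfn.ren2`).  It is satisfied: apply `StatO (A n)` to `h ζ := max (γ+1) (sup over F ∈ Φ of G F ζ)`
(finite supremum; `succ_lt_W1`): `ξ ∈ A n`, `0 < ξ < W1` closed under `h`, so `γ < γ + 1 ≤ h 0 < ξ`.
By `TV` there is `ξ ∈ M` with `D ξ`; `ξ < W1`, so `ξ < δ`, and `F ζ = G F ζ < ξ` for `ζ < ξ`.
`0 < δ` by `Hl.omega_lt`.
-/

open Set

universe u

namespace CWV

theorem partB (H : HC) (A : ℕ → Set Od) (hA : ∀ n, StatO (A n)) :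
    ∃ δ < W1, 0 < δ ∧ ∀ n, ∀ Φ : Set (Od → Od), Φ.Finite → Φ ⊆ MM δ → ∀ γ < δ,
      ∃ ξ ∈ A n, γ < ξ ∧ ξ < δ ∧ ∀ F ∈ Φ, ∀ ζ < ξ, F ζ < ξ := by
  obtain ⟨σ, p, β, δ, e, HH, hp, hd, hδ, hW, hR⟩ :=
    exists_pointwise H (fun a b => ∃ n : ℕ, a = n ∧ b ∈ A n)
  have hωδ := HH.omega_lt hδ
  have hWσ : W1 < σ := HH.tv.1 _ hW
  refine ⟨δ, hd, (zero_le (a := Ordinal.omega0)).trans_lt hωδ, fun n Φ hΦ hΦM γ hγ => ?_⟩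
  have hγW : γ < W1 := hγ.trans hd
  have hγM : γ ∈ dcl σ {p} := (hδ γ hγW).2 hγ
  have hnM : (n : Od) ∈ dcl σ {p} := nat_mem HH.tv HH.om.le n
  have hst : ∀ F : Od → Od, F ∈ Φ → ∃ G : Od → Od, (∀ ζ < W1, G ζ < W1) ∧
      (∀ ζ < δ, G ζ = F ζ) ∧ Dfn σ (dcl σ {p}) (fun v => v 0 < W1 ∧ v 1 = G (v 0)) := by
    intro F hF
    obtain ⟨h1, -, s, hs, h3⟩ := hΦM hF
    have hsβ := good_le HH hp hd hδ hW hs
    refine star_fun HH hd hδ hW h1 (dr_mono hsβ (fun a b hab => ?_) h3)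
    obtain ⟨ha, rfl⟩ := hab
    exact ⟨ha.trans hs.2.1, (h1 a ha).trans hs.2.1⟩
  choose! G hG1 hG2 hG3 using hst
  -- definability
  have d1 : Dfn σ (dcl σ {p}) (fun v => v 0 < W1 ∧ v 0 ∈ A n) := by
    refine ((Dfn.ren2 (P := fun a b => a < W1 ∧ b < W1 ∧ ∃ m : ℕ, a = m ∧ b ∈ A m)
      hR 5 0).subst hnM (HH.tv.1 _ hnM) 5).congr fun v _ => ?_
    have hnW : (n : Od) < W1 := (nat_lt_omega n).trans omega_lt_W1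
    simp only [Function.update_self, ne_eq, OfNat.zero_ne_ofNat, not_false_eq_true,
      Function.update_of_ne]
    constructor
    · rintro ⟨-, h1, m, h2, h3⟩
      have h4 : n = m := by exact_mod_cast h2
      subst h4
      exact ⟨h1, h3⟩
    · rintro ⟨h1, h3⟩
      exact ⟨hnW, h1, n, rfl, h3⟩
  have d2 : Dfn σ (dcl σ {p}) (fun v => γ < v 0) :=
    ((Dfn.lt 5 0).subst hγM (HH.tv.1 _ hγM) 5).congr fun v _ => by simp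
  have d3 : ∀ F ∈ Φ, Dfn σ (dcl σ {p}) (fun v => ∀ ζ < σ, ζ < v 0 → ∀ η < σ,
      (ζ < W1 ∧ η = G F ζ) → η < v 0) := by
    intro F hF
    refine ((Dfn.lt 2 0).imp ((((hG3 F hF).ren2 (P := fun a b => a < W1 ∧ b = G F a) 2 3).imp
      (Dfn.lt 3 0)).all 3)).all 2 |>.congr fun v _ => ?_
    simp
  have d4 : ∀ Ψ : Set (Od → Od), Ψ.Finite → Ψ ⊆ Φ → Dfn σ (dcl σ {p}) (fun v => ∀ F ∈ Ψ,
      ∀ ζ < σ, ζ < v 0 → ∀ η < σ, (ζ < W1 ∧ η = G F ζ) → η < v 0) := by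
    intro Ψ hΨ
    induction Ψ, hΨ using Set.Finite.induction_on with
    | empty => exact fun _ => Dfn.tru.congr fun v _ => by simp
    | insert _ _ ih =>
      intro hsub
      refine ((d3 _ (hsub (mem_insert _ _))).and (ih ((subset_insert _ _).trans hsub))).congr
        fun v _ => ?_
      rw [Set.forall_mem_insert]
  -- satisfiable
  have hb : ∀ ζ < W1, ∃ b < W1, ∀ a ∈ insert γ ((fun F => G F ζ) '' Φ), a < b := by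
    intro ζ hζ
    refine bound_W1 ((hΦ.image _).insert γ).countable ?_
    rintro a (rfl | ⟨F, hF, rfl⟩)
    · exact hγW
    · exact hG1 F hF ζ hζ
  choose! h hh1 hh2 using hb
  obtain ⟨ξ₀, hξA, hξW, hξ0, hξc⟩ := hA n h hh1
  have hsat : (ξ₀ < W1 ∧ ξ₀ ∈ A n) ∧ γ < ξ₀ ∧ ∀ F ∈ Φ,
      ∀ ζ < σ, ζ < ξ₀ → ∀ η < σ, (ζ < W1 ∧ η = G F ζ) → η < ξ₀ := by
    refine ⟨⟨hξW, hξA⟩, ?_, ?_⟩
    · exact (hh2 0 (hξ0.trans hξW) γ (mem_insert _ _)).trans (hξc 0 hξ0)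
    · rintro F hF ζ - hζ η - ⟨hζW, rfl⟩
      exact (hh2 ζ hζW _ (mem_insert_of_mem _ ⟨F, hF, rfl⟩)).trans (hξc ζ hζ)
  obtain ⟨ξ, hξM, ⟨h1, h2⟩, h3, h4⟩ := HH.tv.2 (fun ξ => (ξ < W1 ∧ ξ ∈ A n) ∧ γ < ξ ∧ ∀ F ∈ Φ,
      ∀ ζ < σ, ζ < ξ → ∀ η < σ, (ζ < W1 ∧ η = G F ζ) → η < ξ) 0
      (d1.and (d2.and (d4 Φ hΦ subset_rfl))) ⟨ξ₀, hξW.trans hWσ, hsat⟩
  have hξδ : ξ < δ := (hδ ξ h1).1 hξM
  refine ⟨ξ, h2, h3, hξδ, fun F hF ζ hζ => ?_⟩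
  have hζW : ζ < W1 := hζ.trans h1
  rw [← hG2 F hF ζ (hζ.trans hξδ)]
  exact h4 F hF ζ (hζW.trans hWσ) hζ _ ((hG1 F hF ζ hζW).trans hWσ) ⟨hζW, rfl⟩

end CWV
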