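import Pool.Agent.Work.MP_8b5b22_gt.C.Trf
import Pool.Agent.Work.MP_8b5b22_gt.C.LevM
import Pool.Agent.Work.MP_8b5b22_gt.C.PA
import Pool.Agent.Work.MP_8b5b22_gt.C.PBd
import Pool.Agent.Work.MP_8b5b22_gt.C.Cnt
import Pool.Agent.Work.MP_8b5b22_gt.G.Main

/-!
# Assembly (fixed file): if every set of countable ordinals is constructible then there is a
# nonmetrizable collectionwise normal space with a sigma-locally countable base
-/

open Set
open scoped Topology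

namespace CWV

theorem sharp_of_HC (H : HC) :
    ∃ (Ω : Type) (_ : LinearOrder Ω), WellFoundedLT Ω ∧ CWG.Om Ω ∧ CWG.Sharp Ω :=
  sharp_transfer MM (fun _ hδ => countable_MM H hδ) (fun _ hF => partA H hF)
    (fun A hA => partB H A hA)

theorem sharp_of_constructible
    (H : ∀ x : ZFSet.{0}, x ⊆ (Ordinal.omega 1 : Ordinal.{0}).toZFSet →
      ∃ α : Ordinal.{0}, x ∈ CWL.Lev α) :
    ∃ (Ω : Type) (_ : LinearOrder Ω), WellFoundedLT Ω ∧ CWG.Om Ω ∧ CWG.Sharp Ω := by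
  refine sharp_of_HC fun x hx => ?_
  obtain ⟨α, hα⟩ := H x hx
  exact ⟨α, by rwa [lev_eq] at hα⟩

theorem main_constructible
    (H : ∀ x : ZFSet.{0}, x ⊆ (Ordinal.omega 1 : Ordinal.{0}).toZFSet →
      ∃ α : Ordinal.{0}, x ∈ CWL.Lev α) :
    ∃ (X : Type) (_ : TopologicalSpace X), T1Space X ∧
      (∀ (ι : Type) (F : ι → Set X), (∀ i, IsClosed (F i)) →
        (∀ x : X, ∃ U ∈ 𝓝 x, ∀ i j, (F i ∩ U).Nonempty → (F j ∩ U).Nonempty → i = j) →
        ∃ V : ι → Set X, (∀ i, IsOpen (V i)) ∧ (∀ i, F i ⊆ V i) ∧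
          Pairwise (fun i j => Disjoint (V i) (V j))) ∧
      (∃ B : ℕ → Set (Set X), TopologicalSpace.IsTopologicalBasis (⋃ n, B n) ∧
        ∀ n, ∀ x : X, ∃ U ∈ 𝓝 x, {b ∈ B n | (b ∩ U).Nonempty}.Countable) ∧
      ¬ TopologicalSpace.MetrizableSpace X := by
  obtain ⟨Ω, hΩ, hwf, hO, hS⟩ := sharp_of_constructible H
  exact CWG.main Ω hO hS

end CWV
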