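import Pool.Agent.Work.MP_8b5b22_gt.C.Fix

/-!
# The structure (fixed file)

`E γ` is the set coded by `γ`, `vl γ` its Mostowski value, `US s` the set of all values of codes
below `s`, `lam s η ξ` says that `ξ < s` and `vl ξ` lies in the level `η` relative to `US s`.
`Sat σ c φ v`: satisfaction in the structure on the ordinal `σ`.
-/

open Set

universe u

namespace CWV

/-- the membership relation -/
noncomputable def E : Od → Set Od := exists_fix.choose

theorem E_eq (γ : Od) : E γ = Step E γ := exists_fix.choose_spec γ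

/-- value of a code -/
noncomputable def vl (γ : Od) : ZFSet.{0} := val E γ

/-- the sets coded below `s` -/
def US (s : Od) : Set ZFSet.{0} := vl '' Set.Iio s

/-- the value of `ξ < s` lies in the relative level `η` -/
def lam (s η ξ : Od) : Prop := ξ < s ∧ vl ξ ∈ LevR (US s) η

/-- satisfaction in the structure on `σ` -/
def Sat (σ : Od) {C : Type u} (c : C → Od) (φ : Fm C) (v : ℕ → Od) : Prop :=
  SatR (RelV E) σ c φ v

section sat

variable {σ : Od} {C : Type u} {c : C → Od} {v : ℕ → Od}

@[simp] theorem sat_fls : ¬ Sat σ c (Fm.fls) v := id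

@[simp] theorem sat_imp {φ ψ : Fm C} : Sat σ c (φ.imp ψ) v ↔ (Sat σ c φ v → Sat σ c ψ v) :=
  Iff.rfl

@[simp] theorem sat_all {i : ℕ} {φ : Fm C} :
    Sat σ c (Fm.all i φ) v ↔ ∀ x < σ, Sat σ c φ (Function.update v i x) := Iff.rfl

@[simp] theorem sat_rel {r : RS} {a b d : ℕ ⊕ C} :
    Sat σ c (Fm.rel r a b d) v ↔ RelV E r (tv c v a) (tv c v b) (tv c v d) := Iff.rfl

@[simp] theorem relV_lt {x y z : Od} : RelV E .lt x y z ↔ x < y := Iff.rfl

@[simp] theorem relV_pr {x y z : Od} : RelV E .pr x y z ↔ x = g y z := Iff.rfl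

@[simp] theorem relV_mem {x y z : Od} : RelV E .mem x y z ↔ x ∈ E y := Iff.rfl

@[simp] theorem relV_eqv {x y z : Od} : RelV E .eqv x y z ↔ vl x = vl y := Iff.rfl

@[simp] theorem relV_lam {x y z : Od} : RelV E .lam x y z ↔ lam x y z := Iff.rfl

@[simp] theorem relV_od {x y z : Od} : RelV E .od x y z ↔ vl y = Ordinal.toZFSet x := Iff.rfl

end sat

/-- `P` is definable over the structure on `σ` with parameters from `A` (for assignments with
values below `σ`). -/
def Dfn (σ : Od) (A : Set Od) (P : (ℕ → Od) → Prop) : Prop :=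
  ∃ φ : Fm A, ∀ v : ℕ → Od, (∀ i, v i < σ) → (Sat σ (fun a : A => (a : Od)) φ v ↔ P v)

/-- definable closure -/
def dcl (σ : Od) (A : Set Od) : Set Od := {x | x < σ ∧ Dfn σ A (fun v => v 0 = x)}

/-- Tarski-Vaught property: every nonempty set which is definable with parameters in `M` meets
`M`. -/
def TV (σ : Od) (M : Set Od) : Prop :=
  (∀ x ∈ M, x < σ) ∧ ∀ (D : Od → Prop) (i : ℕ), Dfn σ M (fun v => D (v i)) →
    (∃ x < σ, D x) → ∃ x ∈ M, D x

/-- `e` is the increasing enumeration of `M` by the ordinals below `β`. -/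
structure Coll (M : Set Od) (β : Od) (e : Od → Od) : Prop where
  mono : ∀ a b, a < b → b < β → e a < e b
  mem : ∀ a < β, e a ∈ M
  surj : ∀ x ∈ M, ∃ a < β, e a = x

end CWV
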