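import Pool.Agent.Work.MP_8b5b22_gt.C.Dfn

/-!
# Module C/Bnd (S-M)

* `sat_bound`: the value of `Sat σ c φ v` depends only on finitely many variables (induction on
  `φ`; for `all i φ` : the updated assignments agree below `N` if the assignments do).
* `tv_tuple`: let `φ` define `P` and let `N` be as in `sat_bound`.  Show by induction on `k ≤ N`
  that there is `v` with all values `< σ`, `v i ∈ M` for `i < k` and `P v`: given such `v` for `k`,
  consider `D x := Sat σ (↑) φ (fun j => if j = k then x else w j)`... the values `v j`, `j > k`,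
  are not in `M`, so existentially quantify them: work instead with the predicate `Q k v` :=
  `there is `v'` with values `< σ`, `v' i = v i` for `i < k`, and `P v'``, which is definable over
  `M` for each `k ≤ N`: by downward induction, `Q N = P` up to `sat_bound` and
  `Q k v ↔ ∃ x < σ, Q (k+1) (update v k x)`.  Starting with `Q 0` true, choose successively
  `x_k ∈ M` with `Q (k+1) (x_0, …, x_k, m, m, …)` by the Tarski-Vaught property (`m ∈ M` any
  element; `M` is nonempty by `TV` with `D = True`), using `dfn_mix` / `Dfn.mixc` to substitute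
  constants.
-/

open Set

universe u

namespace CWV

private theorem tv_agree {C : Type u} (t : ℕ ⊕ C) : ∃ N : ℕ, ∀ (c : C → Od) (v w : ℕ → Od),
    (∀ i < N, v i = w i) → tv c v t = tv c w t := by
  cases t with
  | inl j => exact ⟨j + 1, fun c v w h => h j (Nat.lt_succ_self j)⟩
  | inr x => exact ⟨0, fun c v w _ => rfl⟩

theorem sat_bound {C : Type u} (φ : Fm C) : ∃ N : ℕ, ∀ (σ : Od) (c : C → Od) (v w : ℕ → Od),
    (∀ i < N, v i = w i) → (Sat σ c φ v ↔ Sat σ c φ w) := by
  induction φ with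
  | rel r a b d =>
    obtain ⟨A, hA⟩ := tv_agree a
    obtain ⟨B, hB⟩ := tv_agree b
    obtain ⟨D, hD⟩ := tv_agree d
    refine ⟨max A (max B D), fun σ c v w h => ?_⟩
    rw [sat_rel, sat_rel, hA c v w fun i hi => h i (lt_of_lt_of_le hi (le_max_left _ _)),
      hB c v w fun i hi => h i (lt_of_lt_of_le hi ((le_max_left _ _).trans (le_max_right _ _))),
      hD c v w fun i hi => h i (lt_of_lt_of_le hi ((le_max_right _ _).trans (le_max_right _ _)))]
  | fls => exact ⟨0, fun σ c v w _ => Iff.rfl⟩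
  | imp φ ψ ih1 ih2 =>
    obtain ⟨A, hA⟩ := ih1
    obtain ⟨B, hB⟩ := ih2
    refine ⟨max A B, fun σ c v w h => ?_⟩
    rw [sat_imp, sat_imp, hA σ c v w fun i hi => h i (lt_of_lt_of_le hi (le_max_left _ _)),
      hB σ c v w fun i hi => h i (lt_of_lt_of_le hi (le_max_right _ _))]
  | all i φ ih =>
    obtain ⟨A, hA⟩ := ih
    refine ⟨A, fun σ c v w h => ?_⟩
    rw [sat_all, sat_all]
    refine forall₂_congr fun x _ => hA σ c _ _ fun j hj => ?_
    by_cases hji : j = i
    · subst hji
      simp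
    · rw [Function.update_of_ne hji, Function.update_of_ne hji]
      exact h j hj

private def RR (σ : Od) (N : ℕ) (P : (ℕ → Od) → Prop) : ℕ → (ℕ → Od) → Prop
  | 0, v => P v
  | n + 1, v => ∃ x < σ, RR σ N P n (Function.update v (N - 1 - n) x)

private theorem rr_dfn {σ : Od} {M : Set Od} {N : ℕ} {P : (ℕ → Od) → Prop} (h : Dfn σ M P)
    (n : ℕ) : Dfn σ M (RR σ N P n) := by
  induction n with
  | zero => exact h
  | succ n ih => exact ih.ex (N - 1 - n)

private theorem rr_agree {σ : Od} {N : ℕ} {P : (ℕ → Od) → Prop}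
    (hN : ∀ v w : ℕ → Od, (∀ i < N, v i = w i) → (P v ↔ P w)) (n : ℕ) (hn : n ≤ N) :
    ∀ v w : ℕ → Od, (∀ i < N - n, v i = w i) → (RR σ N P n v ↔ RR σ N P n w) := by
  induction n with
  | zero => exact fun v w h => hN v w h
  | succ n ih =>
    intro v w h
    change (∃ x < σ, RR σ N P n (Function.update v (N - 1 - n) x)) ↔
      (∃ x < σ, RR σ N P n (Function.update w (N - 1 - n) x))
    refine exists_congr fun x => and_congr_right fun _ => ih (by omega) _ _ fun i hi => ?_
    by_cases hji : i = N - 1 - n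
    · subst hji
      simp
    · rw [Function.update_of_ne hji, Function.update_of_ne hji]
      exact h i (by omega)

private theorem rr_of {σ : Od} {N : ℕ} {P : (ℕ → Od) → Prop} {v : ℕ → Od}
    (hv : ∀ i, v i < σ) (hP : P v) (n : ℕ) : RR σ N P n v := by
  induction n with
  | zero => exact hP
  | succ n ih =>
    refine ⟨v (N - 1 - n), hv _, ?_⟩
    rw [Function.update_eq_self]
    exact ih

theorem tv_tuple {σ : Od} {M : Set Od} {P : (ℕ → Od) → Prop} (hM : TV σ M) (h : Dfn σ M P)
    (hP : ∃ v : ℕ → Od, (∀ i, v i < σ) ∧ P v) : ∃ v : ℕ → Od, (∀ i, v i ∈ M) ∧ P v := by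
  obtain ⟨v0, hv0, hPv0⟩ := hP
  obtain ⟨φ, hφ⟩ := h
  obtain ⟨N, hN⟩ := sat_bound φ
  obtain ⟨m, hm, -⟩ := hM.2 (fun _ => True) 0 Dfn.tru ⟨v0 0, hv0 0, trivial⟩
  set P' : (ℕ → Od) → Prop := fun v => Sat σ (fun a : M => (a : Od)) φ v with hP'
  have hdfn : Dfn σ M P' := ⟨φ, fun v _ => Iff.rfl⟩
  have hN' : ∀ v w : ℕ → Od, (∀ i < N, v i = w i) → (P' v ↔ P' w) := fun v w hvw =>
    hN σ _ v w hvw
  have key : ∀ n ≤ N, ∃ w : ℕ → Od, (∀ i, w i ∈ M) ∧ RR σ N P' (N - n) w := by
    intro n
    induction n with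
    | zero =>
      intro _
      refine ⟨fun _ => m, fun _ => hm, ?_⟩
      rw [rr_agree hN' (N - 0) (by omega) _ v0 (fun i hi => by omega)]
      exact rr_of hv0 ((hφ v0 hv0).2 hPv0) _
    | succ n ih =>
      intro hn
      obtain ⟨w, hw, hR⟩ := ih (by omega)
      have e1 : N - n = (N - (n + 1)) + 1 := by omega
      rw [e1] at hR
      obtain ⟨x, hx, hRx⟩ := hR
      have e2 : N - 1 - (N - (n + 1)) = n := by omega
      rw [e2] at hRx
      obtain ⟨y, hy, hRy⟩ := hM.2 (fun x => RR σ N P' (N - (n + 1)) (Function.update w n x)) n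
        ((rr_dfn hdfn _).updc w hw (fun j => hM.1 _ (hw j)) n) ⟨x, hx, hRx⟩
      refine ⟨Function.update w n y, fun i => ?_, hRy⟩
      by_cases hi : i = n
      · subst hi
        simpa using hy
      · rw [Function.update_of_ne hi]
        exact hw i
  obtain ⟨w, hw, hR⟩ := key N le_rfl
  rw [Nat.sub_self] at hR
  exact ⟨w, hw, (hφ w fun i => hM.1 _ (hw i)).1 hR⟩

end CWV
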