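import Pool.Agent.Work.MP_8b5b22_gt.C.PairDefs

/-!
# Module C/Pair1 (M)

Goedel pairing: `g` is strictly increasing for `ltG` and surjective.

* `ltG` is a strict total order on pairs (trichotomy: compare the maxima, then the first, then the
  second coordinates; transitive).
* If `ltG q p` then `gp q < gp p`: `gp p` is a supremum over a small family (`smallBelow`,
  `Ordinal.le_iSup` / `le_ciSup` with `Ordinal.bddAbove_of_small`), so `gp q + 1 ≤ gp p`
  (`gp_eq`).  With trichotomy `g_lt_iff` and `g_inj` follow.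
* `g_least`: supremum: if `g c d < q` for all `ltG (c,d) (a,b)` then `g a b ≤ q`.
* `le_g_left`: for fixed `b` the function `a ↦ g a b` is strictly increasing (`a' < a` gives
  `ltG (a',b) (a,b)`), and a strictly increasing function on ordinals satisfies `a ≤ f a`
  (`StrictMono.le_apply`).  `le_g_right` similarly.
* `g_surj`: suppose `q` is not a value; `q ≤ g q 0`, so the set of pairs `p` with `q ≤ gp p` is
  nonempty; take an `ltG`-minimal one `p` (`wf_ltG.min`).  All `ltG`-smaller pairs have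
  `gp < q`, so `gp p ≤ q` by `g_least`, and so `gp p = q`.
-/

open Set

universe u

namespace CWV

private theorem ltG_trich (p q : Od × Od) : ltG p q ∨ p = q ∨ ltG q p := by
  obtain ⟨a, b⟩ := p
  obtain ⟨c, d⟩ := q
  simp only [ltG]
  rcases lt_trichotomy (max a b) (max c d) with h | h | h
  · exact Or.inl (Or.inl h)
  · rcases lt_trichotomy a c with h1 | h1 | h1
    · exact Or.inl (Or.inr ⟨h, Or.inl h1⟩)
    · rcases lt_trichotomy b d with h2 | h2 | h2
      · exact Or.inl (Or.inr ⟨h, Or.inr ⟨h1, h2⟩⟩)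
      · exact Or.inr (Or.inl (by rw [h1, h2]))
      · exact Or.inr (Or.inr (Or.inr ⟨h.symm, Or.inr ⟨h1.symm, h2⟩⟩))
    · exact Or.inr (Or.inr (Or.inr ⟨h.symm, Or.inl h1⟩))
  · exact Or.inr (Or.inr (Or.inl h))

private theorem gp_lt {p q : Od × Od} (h : ltG p q) : gp p < gp q := by
  rw [gp_eq q]
  have h1 := Ordinal.le_iSup (fun r : {r : Od × Od // ltG r q} => gp r.1 + 1) ⟨p, h⟩
  exact lt_of_lt_of_le (Order.lt_add_one_iff.2 le_rfl) h1

theorem g_lt_iff {a b c d : Od} : g a b < g c d ↔ ltG (a, b) (c, d) := by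
  constructor
  · intro h
    rcases ltG_trich (a, b) (c, d) with h1 | h1 | h1
    · exact h1
    · rw [Prod.mk.injEq] at h1
      rw [h1.1, h1.2] at h
      exact absurd h (lt_irrefl _)
    · exact absurd (h.trans (gp_lt h1)) (lt_irrefl _)
  · intro h
    exact gp_lt h

theorem g_inj {a b c d : Od} (h : g a b = g c d) : a = c ∧ b = d := by
  rcases ltG_trich (a, b) (c, d) with h1 | h1 | h1
  · exact absurd h (ne_of_lt (gp_lt h1))
  · rw [Prod.mk.injEq] at h1
    exact h1
  · exact absurd h (ne_of_gt (gp_lt h1))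

theorem g_least {a b q : Od} (h : ∀ c d, ltG (c, d) (a, b) → g c d < q) : g a b ≤ q := by
  rw [g, gp_eq, Ordinal.iSup_le_iff]
  rintro ⟨⟨c, d⟩, hcd⟩
  exact Order.add_one_le_of_lt (h c d hcd)

theorem le_g_left (a b : Od) : a ≤ g a b := by
  have h : StrictMono (fun a => g a b) := by
    intro a' a ha
    refine g_lt_iff.2 ?_
    rcases (max_le_max_right b ha.le).lt_or_eq with h1 | h1
    · exact Or.inl h1
    · exact Or.inr ⟨h1, Or.inl ha⟩
  exact h.le_apply

theorem le_g_right (a b : Od) : b ≤ g a b := by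
  have h : StrictMono (fun b => g a b) := by
    intro b' b hb
    refine g_lt_iff.2 ?_
    rcases (max_le_max_left a hb.le).lt_or_eq with h1 | h1
    · exact Or.inl h1
    · exact Or.inr ⟨h1, Or.inr ⟨rfl, hb⟩⟩
  exact h.le_apply

theorem g_surj (q : Od) : ∃ a b, g a b = q := by
  let P : Set (Od × Od) := {p | q ≤ gp p}
  have hne : P.Nonempty := ⟨(q, 0), le_g_left q 0⟩
  have hmem : wf_ltG.min P hne ∈ P := wf_ltG.min_mem P hne
  have hmin : ∀ r, ltG r (wf_ltG.min P hne) → gp r < q := by
    intro r hr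
    by_contra hc
    exact wf_ltG.not_lt_min P (not_lt.1 hc) hr
  refine ⟨(wf_ltG.min P hne).1, (wf_ltG.min P hne).2, le_antisymm ?_ hmem⟩
  exact g_least fun c d hcd => hmin _ hcd

end CWV
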