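import Pool.Agent.Work.MP_8b5b22_gt.C.CNat
import Pool.Agent.Work.MP_8b5b22_gt.C.Pair1

/-!
# Module C/CPr (M)

The collapse respects pairing.  For `a, b < β` : `g (e a) (e b) < σ` (`Closed σ`) lies in `M`: it is
the only element of the set defined by `x = g (e a) (e b)` (`Dfn.pr` and `Dfn.subst`, `TV`).  So
`g (e a) (e b) = e (h a b)` with `h a b < β`.

* `h` is strictly increasing for `ltG` (`e` is increasing so it respects `max`; `g_lt_iff`;
  `Coll.lt_iff`).
* `h` is onto the ordinals `< β`: for `q < β` let `e q = g c d` (`g_surj`), `c, d ≤ e q < σ`;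
  `c ∈ M` and `d ∈ M` by `TV` (`D c := ∃ d < σ, e q = g c d` holds only for this `c` by `g_inj`),
  so `c = e a`, `d = e b`.
* `h a b = g a b` for `a, b < β`: induction on `(a,b)` along `wf_ltG`.  `g a b ≤ h a b` by
  `g_least` (pairs `ltG`-below `(a,b)` have coordinates `≤ max a b < β`).  If `g a b < h a b < β`
  then `g a b = h c d` for some `c, d < β`, `ltG (c,d) (a,b)`, so `h c d = g c d < g a b`:
  contradiction.
-/

open Set

universe u

namespace CWV

private theorem pr_mem {σ : Od} {M : Set Od} (hσ : Closed σ) (hM : TV σ M) {p q : Od}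
    (hp : p ∈ M) (hq : q ∈ M) : g p q ∈ M := by
  have h1 : Dfn σ M (fun v => v 0 = g p q) := by
    refine (((Dfn.pr 0 1 2).subst hp (hM.1 p hp) 1).subst hq (hM.1 q hq) 2).congr fun v _ => ?_
    simp [Function.update]
  obtain ⟨x, hx, rfl⟩ := hM.2 (fun x => x = g p q) 0 h1
    ⟨g p q, hσ.2 p (hM.1 p hp) q (hM.1 q hq), rfl⟩
  exact hx

private theorem fst_mem {σ : Od} {M : Set Od} (hM : TV σ M) {q c d : Od}
    (hq : q ∈ M) (h : g c d = q) : c ∈ M := by
  have hqσ := hM.1 q hq
  have hc : c < σ := ((le_g_left c d).trans h.le).trans_lt hqσ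
  have hd : d < σ := ((le_g_right c d).trans h.le).trans_lt hqσ
  have h1 : Dfn σ M (fun v => ∃ y < σ, q = g (v 0) y) := by
    refine (((Dfn.pr 3 0 1).ex 1).subst hq hqσ 3).congr fun v _ => ?_
    simp [Function.update]
  obtain ⟨x, hx, y, -, hy⟩ := hM.2 (fun x => ∃ y < σ, q = g x y) 0 h1 ⟨c, hc, d, hd, h.symm⟩
  have h2 := (g_inj (h.trans hy)).1
  rw [h2]
  exact hx

private theorem snd_mem {σ : Od} {M : Set Od} (hM : TV σ M) {q c d : Od}
    (hq : q ∈ M) (h : g c d = q) : d ∈ M := by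
  have hqσ := hM.1 q hq
  have hc : c < σ := ((le_g_left c d).trans h.le).trans_lt hqσ
  have hd : d < σ := ((le_g_right c d).trans h.le).trans_lt hqσ
  have h1 : Dfn σ M (fun v => ∃ y < σ, q = g y (v 0)) := by
    refine (((Dfn.pr 3 1 0).ex 1).subst hq hqσ 3).congr fun v _ => ?_
    simp [Function.update]
  obtain ⟨x, hx, y, -, hy⟩ := hM.2 (fun x => ∃ y < σ, q = g y x) 0 h1 ⟨d, hd, c, hc, h.symm⟩
  have h2 := (g_inj (h.trans hy)).2
  rw [h2]
  exact hx

private theorem coll_le {β : Od} {M : Set Od} {e : Od → Od} (hc : Coll M β e) {a b : Od}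
    (hb : b < β) (hab : a ≤ b) : e a ≤ e b := by
  rcases hab.eq_or_lt with h | h
  · rw [h]
  · exact (hc.mono a b h hb).le

private theorem coll_max {β : Od} {M : Set Od} {e : Od → Od} (hc : Coll M β e) {a b : Od}
    (ha : a < β) (hb : b < β) : max (e a) (e b) = e (max a b) := by
  rcases le_total a b with h | h
  · rw [max_eq_right h, max_eq_right (coll_le hc hb h)]
  · rw [max_eq_left h, max_eq_left (coll_le hc ha h)]

private theorem coll_ltG {β : Od} {M : Set Od} {e : Od → Od} (hc : Coll M β e) {a b c d : Od}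
    (ha : a < β) (hb : b < β) (hcc : c < β) (hd : d < β) :
    ltG (e a, e b) (e c, e d) ↔ ltG (a, b) (c, d) := by
  have h1 : max a b < β := max_lt ha hb
  have h2 : max c d < β := max_lt hcc hd
  have hi : ∀ {x y : Od}, x < β → y < β → (e x = e y ↔ x = y) := fun hx hy =>
    ⟨fun h => hc.inj hx hy h, fun h => by rw [h]⟩
  unfold ltG
  simp only [coll_max hc ha hb, coll_max hc hcc hd, hc.lt_iff h1 h2, hc.lt_iff ha hcc,
    hc.lt_iff hb hd, hi h1 h2, hi ha hcc]

theorem coll_pair {σ β : Od} {M : Set Od} {e : Od → Od} (hσ : Closed σ) (hM : TV σ M)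
    (hc : Coll M β e) : ∀ a < β, ∀ b < β, g a b < β ∧ e (g a b) = g (e a) (e b) := by
  have h0 : ∀ a b, a < β → b < β → ∃ q, q < β ∧ e q = g (e a) (e b) := fun a b ha hb =>
    hc.surj _ (pr_mem hσ hM (hc.mem a ha) (hc.mem b hb))
  choose! h hh using h0
  have hmono : ∀ {a b c d : Od}, a < β → b < β → c < β → d < β →
      (h a b < h c d ↔ ltG (a, b) (c, d)) := fun {a b c d} ha hb hcc hd => by
    rw [← hc.lt_iff (hh a b ha hb).1 (hh c d hcc hd).1, (hh a b ha hb).2, (hh c d hcc hd).2,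
      g_lt_iff, coll_ltG hc ha hb hcc hd]
  have hsurj : ∀ q < β, ∃ a < β, ∃ b < β, h a b = q := fun q hq => by
    obtain ⟨c, d, hcd⟩ := g_surj (e q)
    obtain ⟨a, ha, hae⟩ := hc.surj c (fst_mem hM (hc.mem q hq) hcd)
    obtain ⟨b, hb, hbe⟩ := hc.surj d (snd_mem hM (hc.mem q hq) hcd)
    refine ⟨a, ha, b, hb, hc.inj (hh a b ha hb).1 hq ?_⟩
    rw [(hh a b ha hb).2, hae, hbe, hcd]
  have hfst : ∀ {a b c d : Od}, ltG (c, d) (a, b) → a < β → b < β → c < β ∧ d < β :=
    fun {a b c d} hl ha hb => by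
      have h1 : max c d ≤ max a b := by
        rcases hl with hl | hl
        · exact hl.le
        · exact hl.1.le
      exact ⟨((le_max_left c d).trans h1).trans_lt (max_lt ha hb),
        ((le_max_right c d).trans h1).trans_lt (max_lt ha hb)⟩
  have key : ∀ p : Od × Od, p.1 < β → p.2 < β → h p.1 p.2 = g p.1 p.2 := by
    intro p
    induction p using wf_ltG.induction with
    | _ p ih =>
      obtain ⟨a, b⟩ := p
      intro ha hb
      apply le_antisymm
      · by_contra hlt
        rw [not_le] at hlt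
        obtain ⟨c, hcc, d, hd, hcd⟩ := hsurj (g a b) (hlt.trans (hh a b ha hb).1)
        have h2 : h c d < h a b := by
          rw [hcd]
          exact hlt
        have h3 := (hmono hcc hd ha hb).1 h2
        have h4 : h c d = g c d := ih (c, d) h3 hcc hd
        have h5 := g_lt_iff.2 h3
        rw [← h4, hcd] at h5
        exact lt_irrefl _ h5
      · refine g_least fun c d hcd => ?_
        obtain ⟨h1, h2⟩ := hfst hcd ha hb
        have h4 : h c d = g c d := ih (c, d) hcd h1 h2
        rw [← h4]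
        exact (hmono h1 h2 ha hb).2 hcd
  intro a ha b hb
  rw [← key (a, b) ha hb]
  exact hh a b ha hb

theorem coll_closed {σ β : Od} {M : Set Od} {e : Od → Od} (hσ : Closed σ) (hM : TV σ M)
    (hc : Coll M β e) : Closed β := by
  refine ⟨?_, fun a ha b hb => (coll_pair hσ hM hc a ha b hb).1⟩
  obtain ⟨x, hx, -⟩ := hM.2 (fun _ => True) 0 Dfn.tru ⟨0, hσ.1, trivial⟩
  obtain ⟨a, ha, -⟩ := hc.surj x hx
  exact lt_of_le_of_lt zero_le ha

end CWV
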