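import Pool.Agent.Work.MP_8b5b22_gt.C.CSat
import Pool.Agent.Work.MP_8b5b22_gt.C.CPr

/-!
# Module C/CE (S-M)

Membership agrees one step further.  Let `m < β` and `Agree e m`; let `x, y ≤ m`.

If `y < m`: for `x < m` use `Agree`; for `x = m` both sides are false (`E_lt`, `Coll.lt_iff`).
Let `y = m`.  (→) `exists_code`: `m = g (g s n) p`, `s ≤ m`, `p, x < s`, `Sat s nc (fml n) (asg x p)`.
`e m = g (g (e s) n) (e p)` by `coll_pair` and `e n = n` (`nat_mem`, `Coll.init` with `δ = ω`).
`sat_agree` for `s` (`Agree.mono`; no constants, `e ∘ nc = nc`; `e ∘ asg x p = asg (e x) (e p)`) and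
`mem_E_code`.
(←) `m = g (g a b) c` with `a, b, c ≤ m < β` (`g_surj`, `le_g_left`, `le_g_right`).  From
`e x ∈ E (e m)` : `e m = g (g s' n) p'` with `p', e x < s'`, and `e m = g (g (e a) (e b)) (e c)`, so
`s' = e a`, `n = e b`, `p' = e c`, `b = n` (`Coll.inj`, `e n = n`).  Again `sat_agree` for `a`
(`a ≤ m < β`).
-/

open Set

universe u

namespace CWV

private theorem e_nat {σ β : Od} {M : Set Od} {e : Od → Od} (hω : Ordinal.omega0 ≤ σ)
    (hM : TV σ M) (hc : Coll M β e) (n : ℕ) : (n : Od) < β ∧ e n = n := by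
  refine hc.init (δ := Ordinal.omega0) (fun x hx => ?_) n (Ordinal.natCast_lt_omega0 n)
  obtain ⟨k, rfl⟩ := Ordinal.lt_omega0.1 hx
  exact nat_mem hM hω k

private theorem e_nc (e : Od → Od) : e ∘ nc = nc := by
  funext a
  exact a.elim

private theorem e_asg (e : Od → Od) (x p : Od) : e ∘ asg x p = asg (e x) (e p) := by
  funext i
  unfold asg
  by_cases h : i = 0 <;> simp [h]

private theorem asg_lt {x p s : Od} (hx : x < s) (hp : p < s) (i : ℕ) : asg x p i < s := by
  unfold asg
  split_ifs
  · exact hx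
  · exact hp

theorem mem_agree_succ {σ β m : Od} {M : Set Od} {e : Od → Od} (hσ : Closed σ)
    (hω : Ordinal.omega0 ≤ σ) (hM : TV σ M) (hc : Coll M β e) (hm : m < β) (ha : Agree e m) :
    ∀ x ≤ m, ∀ y ≤ m, (x ∈ E y ↔ e x ∈ E (e y)) := by
  intro x hx y hy
  rcases hy.lt_or_eq with hy' | hy'
  · rcases hx.lt_or_eq with hx' | hx'
    · exact ha .mem x y y hx' hy' hy'
    · constructor
      · intro h
        exact absurd (E_lt h) (not_lt.2 (hy'.le.trans hx'.ge))
      · intro h
        have h1 := (hc.lt_iff (hx.trans_lt hm) (hy.trans_lt hm)).1 (E_lt h)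
        exact absurd h1 (not_lt.2 (hy'.le.trans hx'.ge))
  · have hyb : y < β := hy.trans_lt hm
    constructor
    · intro h
      obtain ⟨s, p, n, hγ, hs, hp, hξ, hsat⟩ := exists_code h
      have hsb : s < β := hs.trans_lt hyb
      have hpb : p < β := hp.trans hsb
      have hnb := e_nat hω hM hc n
      have h1 := coll_pair hσ hM hc s hsb n hnb.1
      have h2 := coll_pair hσ hM hc (g s n) h1.1 p hpb
      rw [hγ, h2.2, h1.2, hnb.2, mem_E_code]
      refine ⟨(hc.lt_iff hpb hsb).2 hp, (hc.lt_iff (hx.trans_lt hm) hsb).2 hξ, ?_⟩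
      have h3 := (sat_agree hM hc hsb (ha.mono (hs.trans hy)) nc (fun a => a.elim) (fml n)
        (asg x p) (asg_lt hξ hp)).1 hsat
      rwa [e_nc, e_asg] at h3
    · intro h
      obtain ⟨s', p', n, hγ, hs, hp, hξ, hsat⟩ := exists_code h
      obtain ⟨q, c, hq⟩ := g_surj y
      obtain ⟨a, b, hab⟩ := g_surj q
      have hqy : q ≤ y := by
        rw [← hq]
        exact le_g_left q c
      have hcy : c ≤ y := by
        rw [← hq]
        exact le_g_right q c
      have haq : a ≤ q := by
        rw [← hab]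
        exact le_g_left a b
      have hbq : b ≤ q := by
        rw [← hab]
        exact le_g_right a b
      have hcb : c < β := hcy.trans_lt hyb
      have hqb : q < β := hqy.trans_lt hyb
      have hab' : a < β := haq.trans_lt hqb
      have hbb : b < β := hbq.trans_lt hqb
      have h1 := coll_pair hσ hM hc a hab' b hbb
      rw [hab] at h1
      have h2 := coll_pair hσ hM hc q hqb c hcb
      rw [hq, h1.2] at h2
      rw [h2.2] at hγ
      obtain ⟨h3, h4⟩ := g_inj hγ
      obtain ⟨h5, h6⟩ := g_inj h3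
      have hnb := e_nat hω hM hc n
      have h7 : b = n := hc.inj hbb hnb.1 (h6.trans hnb.2.symm)
      subst h4
      subst h5
      subst h7
      have h8 : c < a := (hc.lt_iff hcb hab').1 hp
      have h9 : x < a := (hc.lt_iff (hx.trans_lt hm) hab').1 hξ
      have h10 := (sat_agree hM hc hab' (ha.mono ((haq.trans hqy).trans hy)) nc
        (fun a => a.elim) (fml n) (asg x c) (asg_lt h9 h8)).2 (by rwa [e_nc, e_asg])
      rw [← hq, ← hab, mem_E_code]
      exact ⟨h8, h9, h10⟩

end CWV
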