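import Pool.Agent.Work.MP_8b5b22_gt.C.CLamH
import Pool.Agent.Work.MP_8b5b22_gt.C.Bnd

/-!
# Module C/CLamB (M-L)

Membership in the relative level `e η` transfers back, if this is true for all `ζ < η`.

Let `lam (e s) (e η) (e ξ)`: `ζ' < e η`, `ψ`, `v'` with `v' i ∈ insert ∅ B'`,
`B' = LevR (US (e s)) ζ'`, and `y ∈ vl (e ξ) ↔ y ∈ B' ∧ SSat B' ψ (update v' 0 y)`.  Let `N` be as in
`ssat_bound` for `ψ`.  Consider the predicate `P v` (for `v : ℕ → Od`) :
`v 0 < e η`, and for all `i < N`: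
`v (i+1) < e s ∧ (lam (e s) (v 0) (v (i+1)) ∨ vl (v (i+1)) = ∅)`, and for all `z < σ`:
`z ∈ E (e ξ) → lam (e s) (v 0) z ∧ SSat (LevR (US (e s)) (v 0)) ψ (fun i => vl (update v 1 z (i+1)))`,
and for all `z < σ`: `lam (e s) (v 0) z ∧ SSat (…) ψ (fun i => vl (update v 1 z (i+1))) →
∃ w < σ, w ∈ E (e ξ) ∧ vl w = vl z`.
It is definable over `M` (`Dfn.ball`, `dfn_ssat`, `Dfn.lam`, `Dfn.subst`; `vl x = ∅` is
`∀ w < σ, ¬ w ∈ E x`), and holds for `v 0 = ζ'` and codes `v (i+1) < e s` of `v' i` (`0` for `∅`).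
By `tv_tuple` it holds for some `v` with values in `M`: `v 0 = e ζ`, `ζ < η`, `v (i+1) = e (c i)`.
For `i < N` : `c i < s` and `lam s ζ (c i)` (`hIH`) or `vl (c i) = ∅` (`vl (e (c i)) = ∅ = vl (e 0)`,
`e 0 = 0`, `eqv_agree`).  Let `A = LevR (US s) ζ`, `B = LevR (US (e s)) (e ζ)`,
`c' i = if i < N then c i else 0`.  Then `vl ξ ∈ DefS A` with `ψ` and `fun i => vl (c' i)`:
* `y ∈ vl ξ`: `y = vl z₀`, `z₀ ∈ E ξ`, `e z₀ ∈ E (e ξ)`; so `lam (e s) (e ζ) (e z₀)`, i.e.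
  `lam s ζ z₀`, and `SSat B ψ` at `e (c i)` with `0 ↦ e z₀`, so by `ssat_bound` and `ssat_agree`
  `SSat A ψ (update (vl ∘ c') 0 (vl z₀))`.
* `y ∈ A` with `SSat A ψ (update _ 0 y)`: `y = vl z₀`, `lam s ζ z₀`; so `lam (e s) (e ζ) (e z₀)` and
  `SSat B …`, so there is `w ∈ E (e ξ)` with `vl w = vl (e z₀)`, in `M` by `TV`, `w = e w₀`,
  `w₀ ∈ E ξ`, `vl w₀ = vl z₀`, `y ∈ vl ξ`.
`vl ξ ∈ US s` since `ξ < s`.  So `lam s η ξ` by `mem_levR`.
-/

open Set

universe u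

namespace CWV

private theorem vl_empty_iff {σ x : Od} (hx : x < σ) : vl x = ∅ ↔ ¬ ∃ w < σ, w ∈ E x := by
  constructor
  · rintro h ⟨w, _, hw⟩
    have : vl w ∈ vl x := mem_vl.2 ⟨w, hw, rfl⟩
    rw [h] at this
    exact ZFSet.notMem_empty _ this
  · intro h
    refine ZFSet.ext fun y => ?_
    constructor
    · intro hy
      obtain ⟨w, hw, _⟩ := mem_vl.1 hy
      exact absurd ⟨w, (E_lt hw).trans hx, hw⟩ h
    · intro hy
      exact absurd hy (ZFSet.notMem_empty _)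

/-- the predicate of the module header -/
private def PP (σ as aη aξ : Od) (N : ℕ) (ψ : SF) (v : ℕ → Od) : Prop :=
  v 0 < aη ∧ (∀ i < N, v (i + 1) < as ∧ (lam as (v 0) (v (i + 1)) ∨ vl (v (i + 1)) = ∅)) ∧
  (∀ z < σ, z ∈ E aξ → lam as (v 0) z ∧
    SSat (LevR (US as) (v 0)) ψ (fun i => vl (Function.update v 1 z (i + 1)))) ∧
  (∀ z < σ, (lam as (v 0) z ∧
    SSat (LevR (US as) (v 0)) ψ (fun i => vl (Function.update v 1 z (i + 1)))) →
      ∃ w < σ, w ∈ E aξ ∧ vl w = vl z)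

private theorem dfn_PP {σ as aη aξ : Od} {M : Set Od} (h1 : as ∈ M) (h1' : as < σ) (h2 : aη ∈ M)
    (h2' : aη < σ) (h3 : aξ ∈ M) (h3' : aξ < σ) (N : ℕ) (ψ : SF) :
    Dfn σ M (PP σ as aη aξ N ψ) := by
  have d1 : Dfn σ M (fun v => v 0 < aη) :=
    ((Dfn.lt 0 1).subst h2 h2' 1).congr fun v _ => by simp [Function.update]
  have d2 : Dfn σ M (fun v => ∀ i < N, v (i + 1) < as ∧
      (lam as (v 0) (v (i + 1)) ∨ vl (v (i + 1)) = ∅)) := by
    refine Dfn.ball N (P := fun i v => v (i + 1) < as ∧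
      (lam as (v 0) (v (i + 1)) ∨ vl (v (i + 1)) = ∅)) fun i _ => ?_
    have e1 : Dfn σ M (fun v => v (i + 1) < as) :=
      ((Dfn.lt (i + 1) 0).subst h1 h1' 0).congr fun v _ => by simp [Function.update]
    have e2 : Dfn σ M (fun v => lam as (v 0) (v (i + 1))) :=
      ((Dfn.lam (i + 2) 0 (i + 1)).subst h1 h1' (i + 2)).congr fun v _ => by
        simp [Function.update]
    have e3 : Dfn σ M (fun v => vl (v (i + 1)) = ∅) :=
      ((Dfn.mem 0 (i + 1)).ex 0).not.congr fun v hv => by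
        rw [vl_empty_iff (hv (i + 1))]
        simp [Function.update]
    exact e1.and (e2.or e3)
  have f1 : Dfn σ M (fun v => v 1 ∈ E aξ) :=
    ((Dfn.mem 1 0).subst h3 h3' 0).congr fun v _ => by simp [Function.update]
  have f2 : Dfn σ M (fun v => lam as (v 0) (v 1)) :=
    ((Dfn.lam 2 0 1).subst h1 h1' 2).congr fun v _ => by simp [Function.update]
  have f3 := dfn_ssat h1' h1 ψ
  have d3 : Dfn σ M (fun v => ∀ z < σ, z ∈ E aξ → lam as (v 0) z ∧
      SSat (LevR (US as) (v 0)) ψ (fun i => vl (Function.update v 1 z (i + 1)))) :=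
    ((f1.imp (f2.and f3)).all 1).congr fun v _ => by
      refine forall₂_congr fun z _ => ?_
      have u1 : Function.update v 1 z 1 = z := by simp
      have u0 : Function.update v 1 z 0 = v 0 := by simp [Function.update]
      rw [u1, u0]
  have f4 : Dfn σ M (fun v => ∃ w < σ, w ∈ E aξ ∧ vl w = vl (v 1)) :=
    ((((Dfn.mem 2 0).subst h3 h3' 0).and (Dfn.eqv 2 1)).ex 2).congr fun v _ => by
      simp [Function.update]
  have d4 : Dfn σ M (fun v => ∀ z < σ, (lam as (v 0) z ∧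
      SSat (LevR (US as) (v 0)) ψ (fun i => vl (Function.update v 1 z (i + 1)))) →
        ∃ w < σ, w ∈ E aξ ∧ vl w = vl z) :=
    (((f2.and f3).imp f4).all 1).congr fun v _ => by
      refine forall₂_congr fun z _ => ?_
      have u1 : Function.update v 1 z 1 = z := by simp
      have u0 : Function.update v 1 z 0 = v 0 := by simp [Function.update]
      rw [u1, u0]
  exact d1.and (d2.and (d3.and d4))

theorem lam_backward {σ β s η ξ : Od} {M : Set Od} {e : Od → Od} (hω : Ordinal.omega0 ≤ σ)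
    (hM : TV σ M) (hc : Coll M β e) (hs : s < β) (hη : η < β)
    (hE : ∀ x < s, ∀ y < s, (x ∈ E y ↔ e x ∈ E (e y)))
    (hIH : ∀ ζ < η, ∀ ξ < s, (lam s ζ ξ ↔ lam (e s) (e ζ) (e ξ))) (hξ : ξ < s)
    (h : lam (e s) (e η) (e ξ)) : lam s η ξ := by
  classical
  have hξβ : ξ < β := hξ.trans hs
  have hsM := hc.mem s hs
  have hξM := hc.mem ξ hξβ
  have hηM := hc.mem η hη
  have hsσ := hM.1 _ hsM
  have hξσ := hM.1 _ hξM
  have hησ := hM.1 _ hηM
  have heξs : e ξ < e s := hc.mono _ _ hξ hs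
  have h0s : (0 : Od) < s := (zero_le).trans_lt hξ
  have h0es : (0 : Od) < e s := (zero_le).trans_lt heξs
  obtain ⟨-, h2⟩ := h
  rw [mem_levR] at h2
  obtain ⟨-, ζ', hζ', ψ, v', hv', hy⟩ := h2
  obtain ⟨N, hN⟩ := ssat_bound ψ
  -- codes of the parameters
  have hcode : ∀ i, ∃ x < e s, vl x = v' i ∧ (lam (e s) ζ' x ∨ vl x = ∅) := by
    intro i
    rcases hv' i with h3 | h3
    · exact ⟨0, h0es, by rw [h3, vl_zero], Or.inr vl_zero⟩
    · have h4 := h3
      rw [mem_levR] at h4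
      obtain ⟨⟨x, hx, hxv⟩, -⟩ := h4
      exact ⟨x, hx, hxv, Or.inl ⟨hx, by rw [hxv]; exact h3⟩⟩
  choose c0 hc0 hc0v hc0l using hcode
  -- the tuple in `M`
  obtain ⟨v, hvM, hv0, hvp, hv3, hv4⟩ := tv_tuple hM (dfn_PP hsM hsσ hηM hησ hξM hξσ N ψ)
    ⟨fun i => Nat.casesOn i ζ' c0, by
      intro i
      cases i with
      | zero => exact hζ'.trans hησ
      | succ i => exact (hc0 i).trans hsσ, by
      have key : ∀ z : Od, (fun i => vl (Function.update (fun i : ℕ => (Nat.casesOn i ζ' c0 : Od)) 1 z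
          (i + 1))) = Function.update v' 0 (vl z) := by
        intro z
        funext i
        cases i with
        | zero => simp
        | succ i => simp [Function.update, hc0v]
      refine ⟨hζ', fun i _ => ⟨hc0 i, hc0l i⟩, ?_, ?_⟩
      · intro z _ hz
        have h5 : vl z ∈ vl (e ξ) := mem_vl.2 ⟨z, hz, rfl⟩
        have h6 := (hy _).1 h5
        refine ⟨⟨(E_lt hz).trans heξs, h6.1⟩, ?_⟩
        rw [key z]
        exact h6.2
      · rintro z _ ⟨hz1, hz2⟩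
        rw [key z] at hz2
        obtain ⟨w, hw, hw'⟩ := mem_vl.1 ((hy _).2 ⟨hz1.2, hz2⟩)
        exact ⟨w, (E_lt hw).trans hξσ, hw, hw'⟩⟩
  obtain ⟨ζ, hζβ, hζ⟩ := hc.surj _ (hvM 0)
  have hζη : ζ < η := by
    rw [← hc.lt_iff hζβ hη, hζ]
    exact hv0
  have hch : ∀ i, ∃ a < β, e a = v (i + 1) := fun i => hc.surj _ (hvM (i + 1))
  choose c hcβ hcv using hch
  have hcs : ∀ i < N, c i < s := by
    intro i hi
    rw [← hc.lt_iff (hcβ i) hs, hcv]
    exact (hvp i hi).1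
  -- `e 0 = 0`
  have he0 : e 0 = 0 := by
    refine (hc.init (δ := 1) (fun x hx => ?_) 0 zero_lt_one).2
    have hx0 : x = 0 := Order.lt_one_iff.1 hx
    rw [hx0]
    simpa using nat_mem hM hω 0
  have heqv := eqv_agree hM hc hs.le hE
  have hl : ∀ ξ < s, (lam s ζ ξ ↔ lam (e s) (e ζ) (e ξ)) := hIH ζ hζη
  -- the parameters
  set c' : ℕ → Od := fun i => if i < N then c i else 0 with hc'
  have hc's : ∀ i, c' i < s := by
    intro i
    simp only [hc']
    split_ifs with hi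
    · exact hcs i hi
    · exact h0s
  have hc'A : ∀ i, vl (c' i) ∈ insert ∅ (LevR (US s) ζ) := by
    intro i
    simp only [hc']
    split_ifs with hi
    · rcases (hvp i hi).2 with h3 | h3
      · rw [← hζ, ← hcv, ← hl _ (hcs i hi)] at h3
        exact Or.inr h3.2
      · left
        have h4 : vl (e (c i)) = vl (e 0) := by
          rw [hcv, h3, he0, vl_zero]
        rw [(heqv _ (hcs i hi) _ h0s).2 h4, vl_zero]
    · left
      exact vl_zero
  have hsat : ∀ z₀ < s, (SSat (LevR (US s) ζ) ψ (Function.update (fun i => vl (c' i)) 0 (vl z₀)) ↔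
      SSat (LevR (US (e s)) (v 0)) ψ (fun i => vl (Function.update v 1 (e z₀) (i + 1)))) := by
    intro z₀ hz₀
    have k1 : Function.update (fun i => vl (c' i)) 0 (vl z₀) =
        fun i => vl (Function.update c' 0 z₀ i) := by
      funext i
      by_cases hi : i = 0
      · subst hi
        simp
      · simp [hi]
    rw [k1, ssat_agree hM hc hs (hζβ) hE hl ψ (Function.update c' 0 z₀) (upd_lt hc's hz₀), ← hζ]
    apply hN
    intro i hi
    cases i with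
    | zero => simp
    | succ i =>
      have k2 : Function.update c' 0 z₀ (i + 1) = c (i + 1) := by
        simp [hc', hi]
      have k3 : Function.update v 1 (e z₀) (i + 1 + 1) = v (i + 1 + 1) := by
        simp [Function.update]
      rw [k2, k3, hcv]
  refine ⟨hξ, mem_levR.2 ⟨⟨ξ, hξ, rfl⟩, ζ, hζη, ψ, fun i => vl (c' i), hc'A, fun y => ?_⟩⟩
  constructor
  · intro hyξ
    obtain ⟨z₀, hz₀, rfl⟩ := mem_vl.1 hyξ
    have hz₀s : z₀ < s := (E_lt hz₀).trans hξ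
    have h5 := hv3 (e z₀) (hM.1 _ (hc.mem _ (hz₀s.trans hs))) ((hE z₀ hz₀s ξ hξ).1 hz₀)
    refine ⟨?_, (hsat z₀ hz₀s).2 h5.2⟩
    have h6 := h5.1
    rw [← hζ, ← hl _ hz₀s] at h6
    exact h6.2
  · rintro ⟨hyA, hyS⟩
    have h5 := hyA
    rw [mem_levR] at h5
    obtain ⟨⟨z₀, hz₀s, rfl⟩, -⟩ := h5
    have hz₀s' : z₀ < s := hz₀s
    have h6 : lam (e s) (v 0) (e z₀) := by
      rw [← hζ, ← hl _ hz₀s']
      exact ⟨hz₀s', hyA⟩
    have hez : e z₀ ∈ M := hc.mem _ (hz₀s'.trans hs)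
    have hezσ := hM.1 _ hez
    obtain ⟨w, hwσ, hw1, hw2⟩ := hv4 (e z₀) hezσ ⟨h6, (hsat z₀ hz₀s').1 hyS⟩
    let D : Od → Prop := fun x => x ∈ E (e ξ) ∧ vl x = vl (e z₀)
    have hD : Dfn σ M (fun v => D (v 0)) :=
      (((Dfn.mem 0 1).subst hξM hξσ 1).and ((Dfn.eqv 0 1).subst hez hezσ 1)).congr
        fun v _ => by simp [D, Function.update]
    obtain ⟨w', hw'M, hw'1, hw'2⟩ := hM.2 D 0 hD ⟨w, hwσ, hw1, hw2⟩
    obtain ⟨w₀, hw₀β, rfl⟩ := hc.surj _ hw'M
    have hw₀ξ : w₀ < ξ := by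
      rw [← hc.lt_iff hw₀β hξβ]
      exact E_lt hw'1
    have hw₀s := hw₀ξ.trans hξ
    exact mem_vl.2 ⟨w₀, (hE w₀ hw₀s ξ hξ).2 hw'1, (heqv _ hw₀s _ hz₀s').2 hw'2⟩

end CWV
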