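import Pool.Agent.Work.MP_8b5b22_gt.C.CDefs

/-!
# Module C/COd (S-M)

If membership agrees below `τ ≤ β` then the relation `vl y = toZFSet x` agrees below `τ`.

Strong induction on `y`, for all `x` (compare `C/CEq`).  `vl y = toZFSet x` iff
(every `z ∈ E y` has `vl z = toZFSet a` for some `a < x`) and (for every `a < x` there is `z ∈ E y`
with `vl z = toZFSet a`) (`mem_vl`, `Ordinal.mem_toZFSet_iff`, `ZFSet.ext`).
(→) If the first clause fails for `e y`, `e x`, then it fails for some `z ∈ M` by `TV`, `z = e z₀`,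
`z₀ ∈ E y`, `vl z₀ = toZFSet a₀`, `a₀ < x`, and by induction `vl (e z₀) = toZFSet (e a₀)`,
`e a₀ < e x`.  If the second fails, it fails for some `a = e a₀`, `a₀ < x`; take `z₀ ∈ E y` with
`vl z₀ = toZFSet a₀` and use the induction hypothesis.  (←) For `z₀ ∈ E y` there is `a < e x` with
`vl (e z₀) = toZFSet a`, in `M` by `TV`, so `a = e a₀` and `vl z₀ = toZFSet a₀`.  For `a₀ < x` there
is `z ∈ E (e y)` with `vl z = toZFSet (e a₀)`, in `M` by `TV`.
-/

open Set

universe u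

namespace CWV

private theorem vl_eq_iff (y x : Od) : vl y = Ordinal.toZFSet x ↔
    (∀ z ∈ E y, ∃ a < x, vl z = Ordinal.toZFSet a) ∧
      ∀ a < x, ∃ z ∈ E y, vl z = Ordinal.toZFSet a := by
  constructor
  · intro h
    refine ⟨fun z hz => ?_, fun a ha => ?_⟩
    · have h1 : vl z ∈ vl y := mem_vl.2 ⟨z, hz, rfl⟩
      rw [h, Ordinal.mem_toZFSet_iff] at h1
      obtain ⟨a, ha, h2⟩ := h1
      exact ⟨a, ha, h2.symm⟩
    · have h1 : Ordinal.toZFSet a ∈ Ordinal.toZFSet x := Ordinal.mem_toZFSet_iff.2 ⟨a, ha, rfl⟩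
      rw [← h, mem_vl] at h1
      exact h1
  · rintro ⟨h1, h2⟩
    refine ZFSet.ext fun w => ?_
    rw [mem_vl, Ordinal.mem_toZFSet_iff]
    constructor
    · rintro ⟨z, hz, rfl⟩
      obtain ⟨a, ha, h3⟩ := h1 z hz
      exact ⟨a, ha, h3.symm⟩
    · rintro ⟨a, ha, rfl⟩
      exact h2 a ha

theorem od_agree {σ β τ : Od} {M : Set Od} {e : Od → Od} (hM : TV σ M) (hc : Coll M β e)
    (hτ : τ ≤ β) (hE : ∀ x < τ, ∀ y < τ, (x ∈ E y ↔ e x ∈ E (e y))) :
    ∀ x < τ, ∀ y < τ, (vl y = Ordinal.toZFSet x ↔ vl (e y) = Ordinal.toZFSet (e x)) := by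
  -- definability over `M` of the predicates which are used
  have hd1 : ∀ p ∈ M, Dfn σ M (fun v => v 0 ∈ E p) := fun p hp => by
    refine ((Dfn.mem 0 1).subst hp (hM.1 p hp) 1).congr fun v _ => ?_
    simp
  have hd2 : ∀ p ∈ M, Dfn σ M (fun v => v 0 < p) := fun p hp => by
    refine ((Dfn.lt 0 1).subst hp (hM.1 p hp) 1).congr fun v _ => ?_
    simp
  have hd3 : ∀ p ∈ M, Dfn σ M (fun v => vl (v 0) = Ordinal.toZFSet p) := fun p hp => by
    refine ((Dfn.od 1 0).subst hp (hM.1 p hp) 1).congr fun v _ => ?_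
    simp
  have hd4 : ∀ p ∈ M, Dfn σ M (fun v => vl p = Ordinal.toZFSet (v 0)) := fun p hp => by
    refine ((Dfn.od 0 1).subst hp (hM.1 p hp) 1).congr fun v _ => ?_
    simp
  have hd5 : ∀ p ∈ M, Dfn σ M (fun v => ∃ a < p, vl (v 0) = Ordinal.toZFSet a) := fun p hp => by
    refine ((((Dfn.lt 1 2).and (Dfn.od 1 0)).ex 1).subst hp (hM.1 p hp) 2).congr fun v _ => ?_
    simp only [ne_eq, OfNat.zero_ne_ofNat, OfNat.ofNat_ne_one, not_false_eq_true,
      Function.update_of_ne, Function.update_self, zero_ne_one]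
    exact ⟨fun ⟨a, _, h1, h2⟩ => ⟨a, h1, h2⟩, fun ⟨a, h1, h2⟩ => ⟨a, h1.trans (hM.1 p hp), h1, h2⟩⟩
  have hd6 : ∀ p ∈ M, Dfn σ M (fun v => ∃ z ∈ E p, vl z = Ordinal.toZFSet (v 0)) := fun p hp => by
    refine ((((Dfn.mem 1 2).and (Dfn.od 0 1)).ex 1).subst hp (hM.1 p hp) 2).congr fun v _ => ?_
    simp only [ne_eq, OfNat.zero_ne_ofNat, OfNat.ofNat_ne_one, not_false_eq_true,
      Function.update_of_ne, Function.update_self, zero_ne_one]
    exact ⟨fun ⟨a, _, h1, h2⟩ => ⟨a, h1, h2⟩,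
      fun ⟨a, h1, h2⟩ => ⟨a, (E_lt h1).trans (hM.1 p hp), h1, h2⟩⟩
  have main : ∀ y < τ, ∀ x < τ, (vl y = Ordinal.toZFSet x ↔ vl (e y) = Ordinal.toZFSet (e x)) := by
    intro y
    induction y using WellFoundedLT.induction with
    | ind y ih =>
      intro hy x hx
      have hyβ := hy.trans_le hτ
      have hxβ := hx.trans_le hτ
      have heyM := hc.mem y hyβ
      have hexM := hc.mem x hxβ
      rw [vl_eq_iff, vl_eq_iff]
      constructor
      · rintro ⟨h1, h2⟩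
        constructor
        · by_contra hcon
          push Not at hcon
          obtain ⟨z, hz, hz2⟩ := hcon
          obtain ⟨z', hz'M, hz'1, hz'2⟩ := hM.2
            (fun z => z ∈ E (e y) ∧ ¬ ∃ a < e x, vl z = Ordinal.toZFSet a) 0
            ((hd1 _ heyM).and (hd5 _ hexM).not)
            ⟨z, (E_lt hz).trans (hM.1 _ heyM), hz, by
              rintro ⟨a, ha, h3⟩
              exact hz2 a ha h3⟩
          obtain ⟨z₀, hz₀, rfl⟩ := hc.surj z' hz'M
          have hlt : z₀ < y := (hc.lt_iff hz₀ hyβ).1 (E_lt hz'1)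
          have hzy : z₀ ∈ E y := (hE z₀ (hlt.trans hy) y hy).2 hz'1
          obtain ⟨a, ha, h3⟩ := h1 z₀ hzy
          exact hz'2 ⟨e a, hc.mono a x ha hxβ,
            (ih z₀ hlt (hlt.trans hy) a (ha.trans hx)).1 h3⟩
        · by_contra hcon
          push Not at hcon
          obtain ⟨a, ha, ha2⟩ := hcon
          obtain ⟨a', ha'M, ha'1, ha'2⟩ := hM.2
            (fun a => a < e x ∧ ¬ ∃ z ∈ E (e y), vl z = Ordinal.toZFSet a) 0
            ((hd2 _ hexM).and (hd6 _ heyM).not)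
            ⟨a, ha.trans (hM.1 _ hexM), ha, by
              rintro ⟨z, hz, h3⟩
              exact ha2 z hz h3⟩
          obtain ⟨a₀, ha₀, rfl⟩ := hc.surj a' ha'M
          have hlt : a₀ < x := (hc.lt_iff ha₀ hxβ).1 ha'1
          obtain ⟨z, hz, h3⟩ := h2 a₀ hlt
          have hzy := E_lt hz
          exact ha'2 ⟨e z, (hE z (hzy.trans hy) y hy).1 hz,
            (ih z hzy (hzy.trans hy) a₀ (hlt.trans hx)).1 h3⟩
      · rintro ⟨h1, h2⟩
        constructor
        · intro z hz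
          have hzy := E_lt hz
          obtain ⟨a, ha, h3⟩ := h1 (e z) ((hE z (hzy.trans hy) y hy).1 hz)
          obtain ⟨a', ha'M, ha'1, ha'2⟩ := hM.2
            (fun a => a < e x ∧ vl (e z) = Ordinal.toZFSet a) 0
            ((hd2 _ hexM).and (hd4 _ (hc.mem z (hzy.trans hyβ))))
            ⟨a, ha.trans (hM.1 _ hexM), ha, h3⟩
          obtain ⟨a₀, ha₀, rfl⟩ := hc.surj a' ha'M
          have hlt : a₀ < x := (hc.lt_iff ha₀ hxβ).1 ha'1
          exact ⟨a₀, hlt, (ih z hzy (hzy.trans hy) a₀ (hlt.trans hx)).2 ha'2⟩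
        · intro a ha
          obtain ⟨z, hz, h3⟩ := h2 (e a) (hc.mono a x ha hxβ)
          obtain ⟨z', hz'M, hz'1, hz'2⟩ := hM.2
            (fun z => z ∈ E (e y) ∧ vl z = Ordinal.toZFSet (e a)) 0
            ((hd1 _ heyM).and (hd3 _ (hc.mem a (ha.trans hxβ))))
            ⟨z, (E_lt hz).trans (hM.1 _ heyM), hz, h3⟩
          obtain ⟨z₀, hz₀, rfl⟩ := hc.surj z' hz'M
          have hlt : z₀ < y := (hc.lt_iff hz₀ hyβ).1 (E_lt hz'1)
          exact ⟨z₀, (hE z₀ (hlt.trans hy) y hy).2 hz'1,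
            (ih z₀ hlt (hlt.trans hy) a (ha.trans hx)).2 hz'2⟩
  exact fun x hx y hy => main y hy x hx

end CWV
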