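import Pool.Agent.Work.MP_8b5b22_gt.C.CLamF
import Pool.Agent.Work.MP_8b5b22_gt.C.CLamB
import Pool.Agent.Work.MP_8b5b22_gt.C.CE
import Pool.Agent.Work.MP_8b5b22_gt.C.COd

/-!
# Module C/CAll (S-M)

All six relations agree below `β`.

* `lam_agree`: for `s < β` with membership agreement below `s`: strong induction on `η < β`, from
  `lam_forward` and `lam_backward`, for `ξ < s`; for `ξ ≥ s`, `ξ < β`, both sides are false
  (`lam` contains `ξ < s`, `Coll.lt_iff`).
* `agree_all`: show `Agree e γ` for all `γ ≤ β` by strong induction.  Let `x, y, z < γ` and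
  `m = max x (max y z) < γ`, so `m < β` and `Agree e m`.  `mem_agree_succ` gives agreement of
  membership for arguments `≤ m`, i.e. `< τ = m + 1 ≤ β` (`Order.succ_le_of_lt`, `Order.lt_succ_iff`
  or `lt_add_one_iff`).  Then: `.lt` `Coll.lt_iff`; `.pr` `coll_pair` and `Coll.inj`; `.mem` done;
  `.eqv` `eqv_agree`; `.od` `od_agree`; `.lam` `lam_agree` (with `s = x`).
-/

open Set

universe u

namespace CWV

theorem lam_agree {σ β s : Od} {M : Set Od} {e : Od → Od} (hω : Ordinal.omega0 ≤ σ)
    (hM : TV σ M) (hc : Coll M β e) (hs : s < β)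
    (hE : ∀ x < s, ∀ y < s, (x ∈ E y ↔ e x ∈ E (e y))) :
    ∀ η < β, ∀ ξ < β, (lam s η ξ ↔ lam (e s) (e η) (e ξ)) := by
  intro η
  induction η using WellFoundedLT.induction with
  | ind η ih =>
    intro hη ξ hξ
    have hIH : ∀ ζ < η, ∀ ξ < s, (lam s ζ ξ ↔ lam (e s) (e ζ) (e ξ)) :=
      fun ζ hζ ξ hξ => ih ζ hζ (hζ.trans hη) ξ (hξ.trans hs)
    by_cases h : ξ < s
    · exact ⟨lam_forward hω hM hc hs hη hE hIH h, lam_backward hω hM hc hs hη hE hIH h⟩
    · constructor
      · exact fun h1 => absurd h1.1 h
      · exact fun h1 => absurd ((hc.lt_iff hξ hs).1 h1.1) h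

theorem agree_all {σ β : Od} {M : Set Od} {e : Od → Od} (hσ : Closed σ)
    (hω : Ordinal.omega0 ≤ σ) (hM : TV σ M) (hc : Coll M β e) : Agree e β := by
  have key : ∀ γ, γ ≤ β → Agree e γ := by
    intro γ
    induction γ using WellFoundedLT.induction with
    | ind γ ih =>
      intro hγ r x y z hx hy hz
      obtain ⟨m, hmdef⟩ : ∃ m, m = max x (max y z) := ⟨_, rfl⟩
      have hxm : x ≤ m := by
        rw [hmdef]
        exact le_max_left _ _
      have hym : y ≤ m := by
        rw [hmdef]
        exact (le_max_left _ _).trans (le_max_right _ _)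
      have hzm : z ≤ m := by
        rw [hmdef]
        exact (le_max_right _ _).trans (le_max_right _ _)
      have hmγ : m < γ := by
        rw [hmdef]
        exact max_lt hx (max_lt hy hz)
      have hm : m < β := hmγ.trans_le hγ
      have hE := mem_agree_succ hσ hω hM hc hm (ih m hmγ hm.le)
      have hτ : Order.succ m ≤ β := Order.succ_le_of_lt hm
      have hE' : ∀ x < Order.succ m, ∀ y < Order.succ m, (x ∈ E y ↔ e x ∈ E (e y)) :=
        fun x hx y hy => hE x (Order.lt_succ_iff.1 hx) y (Order.lt_succ_iff.1 hy)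
      have hxb : x < β := hxm.trans_lt hm
      have hyb : y < β := hym.trans_lt hm
      have hzb : z < β := hzm.trans_lt hm
      have hxt : x < Order.succ m := Order.lt_succ_iff.2 hxm
      have hyt : y < Order.succ m := Order.lt_succ_iff.2 hym
      cases r with
      | lt => exact (hc.lt_iff hxb hyb).symm
      | pr =>
        have h1 := coll_pair hσ hM hc y hyb z hzb
        show x = g y z ↔ e x = g (e y) (e z)
        constructor
        · intro h
          rw [h, h1.2]
        · intro h
          rw [← h1.2] at h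
          exact hc.inj hxb h1.1 h
      | mem => exact hE x hxm y hym
      | eqv => exact eqv_agree hM hc hτ hE' x hxt y hyt
      | lam =>
        exact lam_agree hω hM hc hxb
          (fun a ha b hb => hE a (ha.le.trans hxm) b (hb.le.trans hxm)) y hyb z hzb
      | od => exact od_agree hM hc hτ hE' x hxt y hyt
  exact key β le_rfl

end CWV
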