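import Pool.Agent.Work.MP_8b5b22_gt.C.Base
import Pool.Agent.Work.MP_8b5b22_gt.C.Pair1

/-!
# Module C/Code (S)

Elementary facts about codes.  Use `E_eq`, `Step`, `le_g_left` (`s ≤ g s n ≤ g (g s n) p`), `g_inj`,
`Nat.cast_injective`, `mem_val`.  `E 0 = ∅`: `0 = g (g s n) p` would give `s ≤ 0`, but `p < s`.
-/

open Set

universe u

namespace CWV

theorem mem_E_code {s p ξ : Od} {n : ℕ} :
    ξ ∈ E (g (g s n) p) ↔ p < s ∧ ξ < s ∧ Sat s nc (fml n) (asg ξ p) := by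
  rw [E_eq]
  constructor
  · rintro ⟨s', p', n', h, h1, h2, h3⟩
    obtain ⟨h4, rfl⟩ := g_inj h
    obtain ⟨rfl, h5⟩ := g_inj h4
    obtain rfl := Nat.cast_injective h5
    exact ⟨h1, h2, h3⟩
  · rintro ⟨h1, h2, h3⟩
    exact ⟨s, p, n, rfl, h1, h2, h3⟩

theorem exists_code {ξ γ : Od} (h : ξ ∈ E γ) : ∃ (s p : Od) (n : ℕ), γ = g (g s n) p ∧ s ≤ γ ∧
    p < s ∧ ξ < s ∧ Sat s nc (fml n) (asg ξ p) := by
  rw [E_eq] at h
  obtain ⟨s, p, n, h, h1, h2, h3⟩ := h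
  refine ⟨s, p, n, h, ?_, h1, h2, h3⟩
  rw [h]
  exact (le_g_left _ _).trans (le_g_left _ _)

theorem E_lt {ξ γ : Od} (h : ξ ∈ E γ) : ξ < γ := by
  obtain ⟨s, p, n, -, h1, -, h2, -⟩ := exists_code h
  exact h2.trans_le h1

theorem mem_vl {γ : Od} {y : ZFSet.{0}} : y ∈ vl γ ↔ ∃ x ∈ E γ, vl x = y := by
  unfold vl
  rw [mem_val]
  constructor
  · rintro ⟨x, -, h1, h2⟩
    exact ⟨x, h1, h2⟩
  · rintro ⟨x, h1, h2⟩
    exact ⟨x, E_lt h1, h1, h2⟩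

theorem vl_zero : vl 0 = ∅ := by
  rw [ZFSet.eq_empty]
  intro y hy
  obtain ⟨x, hx, -⟩ := mem_vl.1 hy
  exact absurd (E_lt hx) (not_lt.2 zero_le)

end CWV
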