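import Pool.Agent.Work.MP_8b5b22_gt.C.CNat
import Pool.Agent.Work.MP_8b5b22_gt.C.Pair1
import Pool.Agent.Work.MP_8b5b22_gt.C.Code

/-!
# Module C/CDefs (S)

(fixed file) The agreement of the six relations below `s`.
-/

open Set

universe u

namespace CWV

/-- the relations agree under `e` on arguments below `s` -/
def Agree (e : Od → Od) (s : Od) : Prop :=
  ∀ (r : RS) (x y z : Od), x < s → y < s → z < s →
    (RelV E r x y z ↔ RelV E r (e x) (e y) (e z))

theorem Agree.mono {e : Od → Od} {s s' : Od} (h : Agree e s) (hs : s' ≤ s) : Agree e s' :=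
  fun r x y z hx hy hz => h r x y z (hx.trans_le hs) (hy.trans_le hs) (hz.trans_le hs)

end CWV
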