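import Pool.Agent.Work.MP_8b5b22_gt.C.CAll

/-!
# Module C/CElem (S-M)

Condensation: if all relations agree below `β` then `e` is elementary from the structure on `β`
to the structure on `σ`.

Induction on `φ` for all `v`.  Atoms: `Agree`.  `all i φ`: if there is `y < σ` with
`¬ Sat σ (e ∘ c) φ (update (e ∘ v) i y)` then there is such `y` in `M` by `TV` and `dfn_upd`
(constants `e (c x) ∈ M`, `e (v j) ∈ M`), `y = e y₀`, and `update (e ∘ v) i (e y₀) =
e ∘ update v i y₀`.  The other direction is direct (`e x < σ`).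
-/

open Set

universe u

namespace CWV

theorem elem_of_agree {σ β : Od} {M : Set Od} {e : Od → Od} (hM : TV σ M) (hc : Coll M β e)
    (ha : Agree e β) {C : Type u} (c : C → Od) (hcs : ∀ x, c x < β) (φ : Fm C)
    (v : ℕ → Od) (hv : ∀ i, v i < β) :
    Sat β c φ v ↔ Sat σ (e ∘ c) φ (e ∘ v) := by
  induction φ generalizing v with
  | rel r a b d =>
    have key : ∀ t : ℕ ⊕ C, tv (e ∘ c) (e ∘ v) t = e (tv c v t) := by
      intro t
      cases t <;> rfl
    have hlt : ∀ t : ℕ ⊕ C, tv c v t < β := by
      intro t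
      cases t with
      | inl i => exact hv i
      | inr x => exact hcs x
    rw [sat_rel, sat_rel, key, key, key]
    exact ha r _ _ _ (hlt a) (hlt b) (hlt d)
  | fls => simp
  | imp φ ψ ih1 ih2 => rw [sat_imp, sat_imp, ih1 v hv, ih2 v hv]
  | all i φ ih =>
    rw [sat_all, sat_all]
    have hcomp : ∀ y, e ∘ Function.update v i y = Function.update (e ∘ v) i (e y) :=
      fun y => Function.comp_update e v i y
    have hup : ∀ y < β, ∀ j, Function.update v i y j < β := by
      intro y hy j
      by_cases hj : j = i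
      · subst hj
        simpa using hy
      · simpa [hj] using hv j
    constructor
    · intro h
      by_contra hcon
      push Not at hcon
      obtain ⟨y, hy, hy2⟩ := hcon
      have hd : Dfn σ M (fun w => ¬ Sat σ (e ∘ c) φ (Function.update (e ∘ v) i (w i))) :=
        (dfn_upd (σ := σ) (e ∘ c) (fun x => hc.mem _ (hcs x)) (e ∘ v)
          (fun j => hc.mem _ (hv j)) φ i).not
      obtain ⟨z, hz, hz2⟩ := hM.2
        (fun y => ¬ Sat σ (e ∘ c) φ (Function.update (e ∘ v) i y)) i hd ⟨y, hy, hy2⟩
      obtain ⟨y0, hy0, rfl⟩ := hc.surj z hz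
      apply hz2
      rw [← hcomp, ← ih _ (hup y0 hy0)]
      exact h y0 hy0
    · intro h x hx
      rw [ih _ (hup x hx), hcomp]
      exact h (e x) (hM.1 _ (hc.mem x hx))

end CWV
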