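import Pool.Agent.Work.MP_8b5b22_gt.C.CDefs

/-!
# Module C/CEq (S-M)

If membership agrees below `τ ≤ β` then equality of values agrees below `τ`.

Strong induction on `x`, for all `y`.  (→) Let `vl x = vl y` and suppose `vl (e x) ≠ vl (e y)`; by
extensionality and `mem_vl` there is, say, `z ∈ E (e x)` such that no `w ∈ E (e y)` has
`vl w = vl z` (or the same with `x, y` exchanged).  The set of such `z` is definable over `M`
(`z ∈ E (e x) ∧ ∀ w < σ, w ∈ E (e y) → vl w ≠ vl z`; elements of `E (e y)` are `< e y < σ`), so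
there is one in `M`: `z = e z₀`; `z₀ < x` (`E_lt`, `Coll.lt_iff`) and `z₀ ∈ E x`; so there is
`w₀ ∈ E y`, `vl w₀ = vl z₀`; by induction `vl (e w₀) = vl (e z₀)`, and `e w₀ ∈ E (e y)`:
contradiction.  (←) Let `vl (e x) = vl (e y)` and `z₀ ∈ E x`; then `e z₀ ∈ E (e x)`, so there is
`w ∈ E (e y)` with `vl w = vl (e z₀)`, which can be taken in `M` by `TV`: `w = e w₀`, `w₀ ∈ E y`,
and `vl w₀ = vl z₀` by induction.  So `vl x ⊆ vl y`; and symmetrically.
-/

open Set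

universe u

namespace CWV

private theorem mem_vl' {γ : Od} {y : ZFSet.{0}} :
    y ∈ vl γ ↔ ∃ x < γ, x ∈ E γ ∧ vl x = y := mem_val

private theorem lt_of_e {β : Od} {M : Set Od} {e : Od → Od} (hc : Coll M β e) {a b : Od}
    (ha : a < β) (h : e a < e b) : a < b := by
  by_contra hcon
  rw [not_lt] at hcon
  rcases hcon.lt_or_eq with h1 | h1
  · exact absurd (hc.mono b a h1 ha) (not_lt.2 h.le)
  · rw [h1] at h
    exact lt_irrefl _ h

/-- the set of the elements of `E a` whose value is not a value of an element of `E b` -/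
private theorem dfn_diff {σ : Od} {M : Set Od} {a b : Od} (ha : a ∈ M) (ha' : a < σ) (hb : b ∈ M)
    (hb' : b < σ) :
    Dfn σ M (fun v => v 0 ∈ E a ∧ ∀ w < σ, w ∈ E b → vl w ≠ vl (v 0)) := by
  refine ((((Dfn.mem 0 1).and (((Dfn.mem 3 2).imp (Dfn.eqv 3 0).not).all 3)).subst ha ha' 1).subst
    hb hb' 2).congr fun v _ => ?_
  simp [Function.update]

private theorem dfn_val {σ : Od} {M : Set Od} {a b : Od} (ha : a ∈ M) (ha' : a < σ) (hb : b ∈ M)
    (hb' : b < σ) : Dfn σ M (fun v => v 0 ∈ E a ∧ vl (v 0) = vl b) := by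
  refine ((((Dfn.mem 0 1).and (Dfn.eqv 0 2)).subst ha ha' 1).subst hb hb' 2).congr fun v _ => ?_
  simp [Function.update]

private theorem up_sub {σ β τ : Od} {M : Set Od} {e : Od → Od} (hM : TV σ M) (hc : Coll M β e)
    (hτ : τ ≤ β) (hE : ∀ x < τ, ∀ y < τ, (x ∈ E y ↔ e x ∈ E (e y))) {a b : Od} (ha : a < τ)
    (hb : b < τ) (hab : vl a = vl b)
    (ih : ∀ z < τ, ∀ w < τ, z < a → w < b → vl z = vl w → vl (e z) = vl (e w)) :
    ∀ y, y ∈ vl (e a) → y ∈ vl (e b) := by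
  intro y hy
  obtain ⟨z, hz1, hz2, rfl⟩ := mem_vl'.1 hy
  have ea := hc.mem a (ha.trans_le hτ)
  have eb := hc.mem b (hb.trans_le hτ)
  have ea' := hM.1 _ ea
  have eb' := hM.1 _ eb
  by_contra hcon
  have hD : ∃ x < σ, x ∈ E (e a) ∧ ∀ w < σ, w ∈ E (e b) → vl w ≠ vl x := by
    refine ⟨z, hz1.trans ea', hz2, fun w _ hw heq => hcon ?_⟩
    rw [mem_vl']
    refine ⟨w, ?_, hw, heq⟩
    rw [E_eq] at hw
    obtain ⟨s, p, n, hg, hp, hws, -⟩ := hw
    rw [hg]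
    exact hws.trans_le ((le_g_left s n).trans (le_g_left _ _))
  obtain ⟨x, hxM, hx1, hx2⟩ := hM.2
    (fun x => x ∈ E (e a) ∧ ∀ w < σ, w ∈ E (e b) → vl w ≠ vl x) 0 (dfn_diff ea ea' eb eb') hD
  obtain ⟨z0, hz0, rfl⟩ := hc.surj x hxM
  have hlt : e z0 < e a := by
    have hx1' := hx1
    rw [E_eq] at hx1'
    obtain ⟨s, p, n, hg, hp, hws, -⟩ := hx1'
    rw [hg]
    exact hws.trans_le ((le_g_left s n).trans (le_g_left _ _))
  have hz0a : z0 < a := lt_of_e hc hz0 hlt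
  have hz0τ : z0 < τ := hz0a.trans ha
  have h1 : z0 ∈ E a := (hE z0 hz0τ a ha).2 hx1
  have h2 : vl z0 ∈ vl b := by
    rw [← hab]
    exact mem_vl'.2 ⟨z0, hz0a, h1, rfl⟩
  obtain ⟨w0, hw1, hw2, hw3⟩ := mem_vl'.1 h2
  have hw0τ : w0 < τ := hw1.trans hb
  have h3 : e w0 ∈ E (e b) := (hE w0 hw0τ b hb).1 hw2
  exact hx2 (e w0) (hM.1 _ (hc.mem w0 (hw0τ.trans_le hτ))) h3
    (ih z0 hz0τ w0 hw0τ hz0a hw1 hw3.symm).symm

private theorem down_sub {σ β τ : Od} {M : Set Od} {e : Od → Od} (hM : TV σ M) (hc : Coll M β e)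
    (hτ : τ ≤ β) (hE : ∀ x < τ, ∀ y < τ, (x ∈ E y ↔ e x ∈ E (e y))) {a b : Od} (ha : a < τ)
    (hb : b < τ) (hab : vl (e a) = vl (e b))
    (ih : ∀ z < τ, ∀ w < τ, z < a → w < b → vl (e z) = vl (e w) → vl z = vl w) :
    ∀ y, y ∈ vl a → y ∈ vl b := by
  intro y hy
  obtain ⟨z, hz1, hz2, rfl⟩ := mem_vl'.1 hy
  have hzτ : z < τ := hz1.trans ha
  have h1 : e z ∈ E (e a) := (hE z hzτ a ha).1 hz2
  have h2 : vl (e z) ∈ vl (e b) := by
    rw [← hab]
    exact mem_vl'.2 ⟨e z, hc.mono z a hz1 (ha.trans_le hτ), h1, rfl⟩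
  obtain ⟨w, hw1, hw2, hw3⟩ := mem_vl'.1 h2
  have ez := hc.mem z (hzτ.trans_le hτ)
  have eb := hc.mem b (hb.trans_le hτ)
  obtain ⟨x, hxM, hx1, hx2⟩ := hM.2 (fun x => x ∈ E (e b) ∧ vl x = vl (e z)) 0
    (dfn_val eb (hM.1 _ eb) ez (hM.1 _ ez)) ⟨w, hw1.trans (hM.1 _ eb), hw2, hw3⟩
  obtain ⟨w0, hw0, rfl⟩ := hc.surj x hxM
  have hlt : e w0 < e b := by
    have hx1' := hx1
    rw [E_eq] at hx1'
    obtain ⟨s, p, n, hg, hp, hws, -⟩ := hx1'
    rw [hg]
    exact hws.trans_le ((le_g_left s n).trans (le_g_left _ _))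
  have hw0b : w0 < b := lt_of_e hc hw0 hlt
  have hw0τ : w0 < τ := hw0b.trans hb
  exact mem_vl'.2 ⟨w0, hw0b, (hE w0 hw0τ b hb).2 hx1,
    (ih z hzτ w0 hw0τ hz1 hw0b hx2.symm).symm⟩

theorem eqv_agree {σ β τ : Od} {M : Set Od} {e : Od → Od} (hM : TV σ M) (hc : Coll M β e)
    (hτ : τ ≤ β) (hE : ∀ x < τ, ∀ y < τ, (x ∈ E y ↔ e x ∈ E (e y))) :
    ∀ x < τ, ∀ y < τ, (vl x = vl y ↔ vl (e x) = vl (e y)) := by
  intro x
  induction x using WellFoundedLT.induction with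
  | ind x ih =>
    intro hx y hy
    constructor
    · intro h
      apply ZFSet.ext
      intro t
      constructor
      · exact up_sub hM hc hτ hE hx hy h (fun z hz w hw hzx _ hzw => (ih z hzx hz w hw).1 hzw) t
      · exact up_sub hM hc hτ hE hy hx h.symm
          (fun z hz w hw _ hwx hzw => ((ih w hwx hw z hz).1 hzw.symm).symm) t
    · intro h
      apply ZFSet.ext
      intro t
      constructor
      · exact down_sub hM hc hτ hE hx hy h (fun z hz w hw hzx _ hzw => (ih z hzx hz w hw).2 hzw) t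
      · exact down_sub hM hc hτ hE hy hx h.symm
          (fun z hz w hw _ hwx hzw => ((ih w hwx hw z hz).2 hzw.symm).symm) t

end CWV
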