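import Pool.Agent.Work.MP_8b5b22_gt.C.CLamH

/-!
# Module C/CLamF (M)

Membership in the relative level `η` transfers forward, if it transfers for all `ζ < η`.

Let `lam s η ξ`: `vl ξ ∈ US s`, `ζ < η`, `vl ξ ∈ DefS A`, `A = LevR (US s) ζ`, with `ψ, v`
(`v i ∈ insert ∅ A`, `y ∈ vl ξ ↔ y ∈ A ∧ SSat A ψ (update v 0 y)`).  Let `B = LevR (US (e s)) (e ζ)`.
Choose `c i < s` with `vl (c i) = v i` (`c i = 0` if `v i = ∅`, `vl_zero`, `0 < s`; else
`v i ∈ A ⊆ US s`).  Put `v' i = vl (e (c i))`.  `v' i ∈ insert ∅ B`: if `v i ∈ A` then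
`lam s ζ (c i)`, use `hIH`; if `v i = ∅ = vl 0` then `vl (e (c i)) = vl (e 0) = vl 0 = ∅` by
`eqv_agree` (`τ = s`), `e 0 = 0` (`nat_mem 0`, `Coll.init` with `δ = 1`).
`vl (e ξ) ∈ US (e s)` since `e ξ < e s`.  Claim: `y ∈ vl (e ξ) ↔ y ∈ B ∧ SSat B ψ (update v' 0 y)`.
* If `y = vl z`, `z ∈ E (e ξ)` violates the right side: the set of all `z ∈ E (e ξ)` with
  `¬ (lam (e s) (e ζ) z ∧ SSat B ψ (update v' 0 (vl z)))` is definable over `M` (`Dfn.mem`,
  `Dfn.lam`, `dfn_ssat`, `Dfn.updc` with constants `e s, e ζ, e ξ, e (c i)`; note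
  `SSat (LevR (US (e s)) (v 0)) ψ (fun i => vl (v (i+1)))` at `v 0 = e ζ`, `v 1 = z`,
  `v (i+1) = e (c i)`), so contains `z = e z₀ ∈ M`; `z₀ ∈ E ξ`, `vl z₀ ∈ vl ξ`, so `vl z₀ ∈ A`,
  i.e. `lam s ζ z₀`, and `SSat A ψ (update v 0 (vl z₀))`, which is
  `SSat A ψ (fun i => vl (update c 0 z₀ i))`; `ssat_agree` and `hIH` give a contradiction.
* If `y ∈ B`, `SSat B ψ (update v' 0 y)` but `y ∉ vl (e ξ)`: `y = vl z`, `lam (e s) (e ζ) z`; the set
  of these `z` (`∀ w < σ, w ∈ E (e ξ) → vl w ≠ vl z`) is definable, so contains `z = e z₀`; `z₀ < s`,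
  `lam s ζ z₀`, `SSat A ψ (update v 0 (vl z₀))` by `ssat_agree`, so `vl z₀ ∈ vl ξ`: `w₀ ∈ E ξ` with
  `vl w₀ = vl z₀`; `e w₀ ∈ E (e ξ)`, `vl (e w₀) = vl (e z₀)` (`eqv_agree`): contradiction.
-/

open Set

universe u

namespace CWV

private theorem dfn_mem_const {σ : Od} {A : Set Od} {a : Od} (ha : a ∈ A) (ha' : a < σ) :
    Dfn σ A (fun v => v 1 ∈ E a) :=
  ((Dfn.mem 1 2).subst ha ha' 2).congr fun v _ => by simp [Function.update]

private theorem dfn_lam_const {σ : Od} {A : Set Od} {a b : Od} (ha : a ∈ A) (ha' : a < σ)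
    (hb : b ∈ A) (hb' : b < σ) : Dfn σ A (fun v => lam a b (v 1)) :=
  (((Dfn.lam 2 3 1).subst ha ha' 2).subst hb hb' 3).congr fun v _ => by simp [Function.update]

private theorem dfn_vl_mem_const {σ : Od} {A : Set Od} {a : Od} (ha : a ∈ A) (ha' : a < σ) :
    Dfn σ A (fun v => vl (v 1) ∈ vl a) := by
  have h1 : Dfn σ A (fun v => v 4 ∈ E a) :=
    ((Dfn.mem 4 2).subst ha ha' 2).congr fun v _ => by simp [Function.update]
  refine ((h1.and (Dfn.eqv 4 1)).ex 4).congr fun v _ => ?_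
  have h4 : ∀ x, Function.update v 4 x 4 = x := fun x => by simp
  have h5 : ∀ x, Function.update v 4 x 1 = v 1 := fun x => by simp [Function.update]
  simp only [h4, h5]
  rw [mem_vl]
  constructor
  · rintro ⟨x, _, hx, hx'⟩
    exact ⟨x, hx, hx'⟩
  · rintro ⟨x, hx, hx'⟩
    exact ⟨x, (E_lt hx).trans ha', hx, hx'⟩

private theorem dfn_ssat_const {σ s ζ : Od} {A : Set Od} {c : ℕ → Od} (hs : s < σ) (hA : s ∈ A)
    (hζ : ζ < σ) (hζA : ζ ∈ A) (hc : ∀ i, c i < σ) (hcA : ∀ i, c i ∈ A) (ψ : SF) :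
    Dfn σ A (fun v => SSat (LevR (US s) ζ) ψ (Function.update (fun i => vl (c i)) 0 (vl (v 1)))) := by
  have h1 := (dfn_ssat hs hA ψ).updc (fun i => if i = 0 then ζ else c (i - 1))
    (fun i => by
      by_cases hi : i = 0
      · simpa [hi] using hζA
      · simpa [hi] using hcA (i - 1))
    (fun i => by
      by_cases hi : i = 0
      · simpa [hi] using hζ
      · simpa [hi] using hc (i - 1)) 1
  refine h1.congr fun v _ => ?_
  have e1 : Function.update (fun i => if i = 0 then ζ else c (i - 1)) 1 (v 1) 0 = ζ := by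
    simp [Function.update]
  have e2 : (fun i => vl (Function.update (fun i => if i = 0 then ζ else c (i - 1)) 1 (v 1)
      (i + 1))) = Function.update (fun i => vl (c i)) 0 (vl (v 1)) := by
    funext i
    by_cases hi : i = 0
    · subst hi
      simp
    · simp [Function.update, hi]
  rw [e1, e2]

theorem lam_forward {σ β s η ξ : Od} {M : Set Od} {e : Od → Od} (hω : Ordinal.omega0 ≤ σ)
    (hM : TV σ M) (hc : Coll M β e) (hs : s < β) (hη : η < β)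
    (hE : ∀ x < s, ∀ y < s, (x ∈ E y ↔ e x ∈ E (e y)))
    (hIH : ∀ ζ < η, ∀ ξ < s, (lam s ζ ξ ↔ lam (e s) (e ζ) (e ξ))) (hξ : ξ < s)
    (h : lam s η ξ) : lam (e s) (e η) (e ξ) := by
  obtain ⟨-, hU⟩ := h
  obtain ⟨hU, ζ, hζ, ψ, v, hv, hvl⟩ := mem_levR.1 hU
  have hs0 : 0 < s := lt_of_le_of_lt zero_le hξ
  have hMs : ∀ x < s, e x ∈ M := fun x hx => hc.mem x (hx.trans hs)
  have hσs : ∀ x < s, e x < σ := fun x hx => hM.1 _ (hMs x hx)
  have hes : ∀ x < s, e x < e s := fun x hx => hc.mono x s hx hs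
  have hsM : e s ∈ M := hc.mem s hs
  have hsσ : e s < σ := hM.1 _ hsM
  have hζM : e ζ ∈ M := hc.mem ζ (hζ.trans hη)
  have hζσ : e ζ < σ := hM.1 _ hζM
  have he0 : e 0 = 0 := by
    refine (Coll.init (δ := 1) hc (fun x hx => ?_) 0 zero_lt_one).2
    have : x = 0 := Order.lt_one_iff.1 hx
    subst this
    have := nat_mem hM hω 0
    simpa using this
  have heq := eqv_agree hM hc hs.le hE
  have hagree := fun x hx => ssat_agree hM hc hs (hζ.trans hη) hE (hIH ζ hζ) ψ x hx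
  -- the parameters
  have hex : ∀ i, ∃ c < s, vl c = v i ∧ (c = 0 ∨ lam s ζ c) := by
    intro i
    rcases hv i with h1 | h1
    · exact ⟨0, hs0, by rw [vl_zero, h1], Or.inl rfl⟩
    · obtain ⟨⟨c, hcs, hcv⟩, -⟩ := mem_levR.1 h1
      exact ⟨c, hcs, hcv, Or.inr ⟨hcs, by rw [hcv]; exact h1⟩⟩
  choose c hcs hcv hcl using hex
  -- transfer facts
  have F1 : ∀ z < s, (lam s ζ z ∧ SSat (LevR (US s) ζ) ψ (Function.update v 0 (vl z)) ↔
      vl z ∈ vl ξ) := by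
    intro z hz
    rw [hvl (vl z)]
    exact and_congr ⟨fun h1 => h1.2, fun h1 => ⟨hz, h1⟩⟩ Iff.rfl
  have F2 : ∀ z < s, (SSat (LevR (US s) ζ) ψ (Function.update v 0 (vl z)) ↔
      SSat (LevR (US (e s)) (e ζ)) ψ (Function.update (fun i => vl (e (c i))) 0 (vl (e z)))) := by
    intro z hz
    have h1 := hagree (Function.update c 0 z) (fun i => by
      by_cases hi : i = 0
      · subst hi
        simpa using hz
      · simpa [Function.update_of_ne hi] using hcs i)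
    have e1 : (fun i => vl (Function.update c 0 z i)) = Function.update v 0 (vl z) := by
      funext i
      by_cases hi : i = 0
      · subst hi
        simp
      · simp [Function.update_of_ne hi, hcv]
    have e2 : (fun i => vl (e (Function.update c 0 z i))) =
        Function.update (fun i => vl (e (c i))) 0 (vl (e z)) := by
      funext i
      by_cases hi : i = 0
      · subst hi
        simp
      · simp [Function.update_of_ne hi]
    rw [e1, e2] at h1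
    exact h1
  have F3 : ∀ z < s, (lam s ζ z ↔ lam (e s) (e ζ) (e z)) := hIH ζ hζ
  have dS := dfn_ssat_const (c := fun i => e (c i)) hsσ hsM hζσ hζM (fun i => hσs _ (hcs i))
    (fun i => hMs _ (hcs i)) ψ
  have dL := dfn_lam_const hsM hsσ hζM hζσ
  refine ⟨hes ξ hξ, mem_levR.2 ⟨⟨e ξ, hes ξ hξ, rfl⟩, e ζ, hc.mono ζ η hζ hη, ψ,
    fun i => vl (e (c i)), fun i => ?_, fun y => ⟨fun hy => ?_, fun hy => ?_⟩⟩⟩
  · rcases hcl i with h1 | h1
    · left
      beta_reduce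
      rw [h1, he0, vl_zero]
    · right
      exact ((hIH ζ hζ _ (hcs i)).1 h1).2
  · -- forward
    by_contra hcon
    obtain ⟨z, hz, rfl⟩ := mem_vl.1 hy
    obtain ⟨z', hz'M, hz1, hz2⟩ := hM.2 (fun z => z ∈ E (e ξ) ∧
      ¬ (lam (e s) (e ζ) z ∧ SSat (LevR (US (e s)) (e ζ)) ψ
        (Function.update (fun i => vl (e (c i))) 0 (vl z)))) 1
      ((dfn_mem_const (hMs ξ hξ) (hσs ξ hξ)).and (dL.and dS).not)
      ⟨z, (E_lt hz).trans (hσs ξ hξ), hz, fun h1 => hcon ⟨h1.1.2, h1.2⟩⟩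
    obtain ⟨z₀, hz₀, rfl⟩ := hc.surj z' hz'M
    have hlt : z₀ < ξ := (hc.lt_iff hz₀ (hξ.trans hs)).1 (E_lt hz1)
    have hlts := hlt.trans hξ
    have h1 : z₀ ∈ E ξ := (hE z₀ hlts ξ hξ).2 hz1
    have h2 := (F1 z₀ hlts).2 (mem_vl.2 ⟨z₀, h1, rfl⟩)
    exact hz2 ⟨(F3 z₀ hlts).1 h2.1, (F2 z₀ hlts).1 h2.2⟩
  · -- backward
    by_contra hcon
    obtain ⟨⟨z, hzs, rfl⟩, -⟩ := mem_levR.1 hy.1
    obtain ⟨z', hz'M, ⟨hz1, hz2⟩, hz3⟩ := hM.2 (fun z => (lam (e s) (e ζ) z ∧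
      SSat (LevR (US (e s)) (e ζ)) ψ (Function.update (fun i => vl (e (c i))) 0 (vl z))) ∧
        ¬ vl z ∈ vl (e ξ)) 1
      ((dL.and dS).and (dfn_vl_mem_const (hMs ξ hξ) (hσs ξ hξ)).not)
      ⟨z, lt_trans hzs hsσ, ⟨⟨hzs, hy.1⟩, hy.2⟩, hcon⟩
    obtain ⟨z₀, hz₀, rfl⟩ := hc.surj z' hz'M
    have hlts : z₀ < s := (hc.lt_iff hz₀ hs).1 hz1.1
    have h1 := (F1 z₀ hlts).1 ⟨(F3 z₀ hlts).2 hz1, (F2 z₀ hlts).2 hz2⟩
    obtain ⟨w, hw, hwz⟩ := mem_vl.1 h1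
    have hws : w < s := (E_lt hw).trans hξ
    exact hz3 (mem_vl.2 ⟨e w, (hE w hws ξ hξ).1 hw, (heq w hws z₀ hlts).1 hwz⟩)

end CWV
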