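import Pool.Agent.Work.MP_8b5b22_gt.C.Ren
import Pool.Agent.Work.MP_8b5b22_gt.C.Code

/-!
# Module C/SSd (M)

Satisfaction in the relative levels is definable.

* `ssat_bound`: as for `Sat`, `SSat A ψ v` depends on finitely many variables only.
* `dfn_ssat`: induction on `ψ`.  `mem i j`: `vl (v (i+1)) ∈ vl (v (j+1))` iff
  `∃ z < σ, z ∈ E (v (j+1)) ∧ vl z = vl (v (i+1))` (`mem_vl`; `E_lt` gives `z < v (j+1) < σ`), a
  fresh variable for `z`.  `eq i j`: `Dfn.eqv`.  `all i ψ`: for an assignment with values `< σ`,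
  `∀ a ∈ LevR (US s) (v 0), SSat … (update (fun i => vl (v (i+1))) i a)` is equivalent to
  `∀ x < σ (at the variable i+1), lam s (v 0) x → SSat …`: an element `a` of `LevR (US s) _` is in
  `US s` (`mem_levR`), so `a = vl x` with `x < s < σ`; and
  `(fun j => vl (update v (i+1) x (j+1))) = update (fun j => vl (v (j+1))) i (vl x)`.
  `lam s (v 0) (v (i+1))` is `Dfn.lam k 0 (i+1)` with the constant `s` substituted for a fresh
  variable `k` (`Dfn.subst`).
-/

open Set

universe u

namespace CWV

theorem ssat_bound (ψ : SF) : ∃ N : ℕ, ∀ (A : Set ZFSet.{0}) (v w : ℕ → ZFSet.{0}),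
    (∀ i < N, v i = w i) → (SSat A ψ v ↔ SSat A ψ w) := by
  induction ψ with
  | mem i j =>
    refine ⟨max i j + 1, fun A v w h => ?_⟩
    show v i ∈ v j ↔ w i ∈ w j
    rw [h i (by omega), h j (by omega)]
  | eq i j =>
    refine ⟨max i j + 1, fun A v w h => ?_⟩
    show v i = v j ↔ w i = w j
    rw [h i (by omega), h j (by omega)]
  | fls => exact ⟨0, fun A v w _ => Iff.rfl⟩
  | imp φ ψ ih1 ih2 =>
    obtain ⟨N1, h1⟩ := ih1
    obtain ⟨N2, h2⟩ := ih2
    refine ⟨max N1 N2, fun A v w h => ?_⟩
    show (SSat A φ v → SSat A ψ v) ↔ (SSat A φ w → SSat A ψ w)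
    rw [h1 A v w (fun i hi => h i (by omega)), h2 A v w (fun i hi => h i (by omega))]
  | all i ψ ih =>
    obtain ⟨N, h1⟩ := ih
    refine ⟨N, fun A v w h => forall₂_congr fun a _ => h1 A _ _ fun j hj => ?_⟩
    by_cases hji : j = i
    · subst hji
      simp
    · rw [Function.update_of_ne hji, Function.update_of_ne hji, h j hj]

theorem dfn_ssat {σ s : Od} {A : Set Od} (hs : s < σ) (hA : s ∈ A) (ψ : SF) :
    Dfn σ A (fun v => SSat (LevR (US s) (v 0)) ψ (fun i => vl (v (i + 1)))) := by
  induction ψ with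
  | mem i j =>
    refine (((Dfn.mem (i + j + 3) (j + 1)).and (Dfn.eqv (i + j + 3) (i + 1))).ex
      (i + j + 3)).congr fun v hv => ?_
    have e1 : ∀ x, Function.update v (i + j + 3) x (j + 1) = v (j + 1) := fun x =>
      Function.update_of_ne (by omega) _ _
    have e2 : ∀ x, Function.update v (i + j + 3) x (i + 1) = v (i + 1) := fun x =>
      Function.update_of_ne (by omega) _ _
    simp only [e1, e2, Function.update_self]
    show _ ↔ vl (v (i + 1)) ∈ vl (v (j + 1))
    rw [mem_vl]
    constructor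
    · rintro ⟨x, -, h1, h2⟩
      exact ⟨x, h1, h2⟩
    · rintro ⟨x, h1, h2⟩
      exact ⟨x, (E_lt h1).trans (hv _), h1, h2⟩
  | eq i j => exact Dfn.eqv (i + 1) (j + 1)
  | fls => exact Dfn.fls
  | imp φ ψ ih1 ih2 => exact ih1.imp ih2
  | all i ψ ih =>
    have hlam : Dfn σ A (fun v => lam s (v 0) (v (i + 1))) := by
      refine ((Dfn.lam (i + 2) 0 (i + 1)).subst hA hs (i + 2)).congr fun v _ => ?_
      have e1 : Function.update v (i + 2) s 0 = v 0 := Function.update_of_ne (by omega) _ _
      have e2 : Function.update v (i + 2) s (i + 1) = v (i + 1) :=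
        Function.update_of_ne (by omega) _ _
      rw [e1, e2, Function.update_self]
    refine ((hlam.imp ih).all (i + 1)).congr fun v hv => ?_
    have e0 : ∀ x, Function.update v (i + 1) x 0 = v 0 := fun x =>
      Function.update_of_ne (by omega) _ _
    have e1 : ∀ x, (fun j => vl (Function.update v (i + 1) x (j + 1))) =
        Function.update (fun j => vl (v (j + 1))) i (vl x) := by
      intro x
      funext j
      by_cases hj : j = i
      · subst hj
        simp
      · rw [Function.update_of_ne hj, Function.update_of_ne (by omega)]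
    simp only [e0, e1, Function.update_self]
    show _ ↔ ∀ a ∈ LevR (US s) (v 0), SSat (LevR (US s) (v 0)) ψ
      (Function.update (fun j => vl (v (j + 1))) i a)
    constructor
    · intro h a ha
      obtain ⟨x, hx, rfl⟩ := (mem_levR.1 ha).1
      exact h x (lt_trans hx hs) ⟨hx, ha⟩
    · intro h x _ hl
      exact h _ hl.2

end CWV
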