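import Pool.Agent.Work.MP_8b5b22_gt.C.CDefs
import Pool.Agent.Work.MP_8b5b22_gt.C.SSd
import Pool.Agent.Work.MP_8b5b22_gt.C.CEq

/-!
# Module C/CLamH (M)

The collapse is elementary between corresponding relative levels.

Let `s, ζ < β`, membership agree below `s` (so equality of values agrees below `s`, `eqv_agree`
with `τ = s`) and `lam s ζ ξ ↔ lam (e s) (e ζ) (e ξ)` for `ξ < s`.  Write `A = LevR (US s) ζ`,
`B = LevR (US (e s)) (e ζ)`.  Induction on `ψ` for all `x`.
* `mem i j`: `vl a ∈ vl b ↔ vl (e a) ∈ vl (e b)` for `a, b < s`: (→) `z ∈ E b`, `vl z = vl a`, then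
  `e z ∈ E (e b)`.  (←) `z ∈ E (e b)`, `vl z = vl (e a)`; by `TV` one may take `z ∈ M`, `z = e z₀`,
  `z₀ < b < s` so `z₀ ∈ E b` and `vl z₀ = vl a`.
* `eq i j`: `eqv_agree`.
* `all i ψ` (→): suppose `b ∈ B` is a counterexample on the right; `b = vl y`, `y < e s`,
  `lam (e s) (e ζ) y`.  The set of such `y` (`lam (e s) (e ζ) y ∧ ¬ SSat B ψ (update (vl ∘ e ∘ x) i
  (vl y))`) is definable over `M`: by `dfn_ssat` with the constants `e ζ` for the variable `0`,
  `e (x j)` for the variable `j + 1 ≠ i + 1` (use `dfn_mix` through the formula of `dfn_ssat`, see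
  `Dfn.mixc`, `Dfn.updc` in `C/Dfn`).  So `y = e y₀`, `y₀ < s`, `lam s ζ y₀`, so `vl y₀ ∈ A`, and the
  induction hypothesis for `update x i y₀` gives a contradiction.  (←): for `a ∈ A`, `a = vl y₀`,
  `y₀ < s`, `lam s ζ y₀`, so `vl (e y₀) ∈ B`, and the induction hypothesis for `update x i y₀`.
-/

open Set

universe u

namespace CWV

private theorem upd_vl (x : ℕ → Od) (i : ℕ) (y : Od) :
    Function.update (fun j => vl (x j)) i (vl y) = fun j => vl (Function.update x i y j) := by
  funext j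
  by_cases h : j = i
  · subst h
    simp
  · simp [Function.update_of_ne h]

private theorem upd_vle (e : Od → Od) (x : ℕ → Od) (i : ℕ) (y : Od) :
    Function.update (fun j => vl (e (x j))) i (vl (e y)) =
      fun j => vl (e (Function.update x i y j)) := by
  funext j
  by_cases h : j = i
  · subst h
    simp
  · simp [Function.update_of_ne h]

theorem ssat_agree {σ β s ζ : Od} {M : Set Od} {e : Od → Od} (hM : TV σ M) (hc : Coll M β e)
    (hs : s < β) (hζ : ζ < β) (hE : ∀ x < s, ∀ y < s, (x ∈ E y ↔ e x ∈ E (e y)))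
    (hl : ∀ ξ < s, (lam s ζ ξ ↔ lam (e s) (e ζ) (e ξ))) (ψ : SF) (x : ℕ → Od)
    (hx : ∀ i, x i < s) :
    SSat (LevR (US s) ζ) ψ (fun i => vl (x i)) ↔
      SSat (LevR (US (e s)) (e ζ)) ψ (fun i => vl (e (x i))) := by
  have hmem : ∀ a, a < β → e a ∈ M := hc.mem
  have hlt : ∀ a, a < β → e a < σ := fun a ha => hM.1 _ (hc.mem a ha)
  have heq := eqv_agree hM hc hs.le hE
  have hA0 : ∀ y < s, (lam s ζ y ↔ vl y ∈ LevR (US s) ζ) := fun y hy =>
    ⟨fun h => h.2, fun h => ⟨hy, h⟩⟩
  induction ψ generalizing x with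
  | mem i j =>
    have hi := hx i
    have hj := hx j
    have hiβ := hi.trans hs
    have hjβ := hj.trans hs
    change vl (x i) ∈ vl (x j) ↔ vl (e (x i)) ∈ vl (e (x j))
    rw [mem_vl, mem_vl]
    constructor
    · rintro ⟨z, hz, hzi⟩
      have hzs : z < s := (E_lt hz).trans hj
      exact ⟨e z, (hE z hzs _ hj).1 hz, (heq z hzs _ hi).1 hzi⟩
    · rintro ⟨z, hz, hzi⟩
      have hd : Dfn σ M (fun v => (fun z => z ∈ E (e (x j)) ∧ vl z = vl (e (x i))) (v 0)) := by
        have h1 := (Dfn.mem (σ := σ) (A := M) 0 1).subst (hmem _ hjβ) (hlt _ hjβ) 1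
        have h2 := (Dfn.eqv (σ := σ) (A := M) 0 1).subst (hmem _ hiβ) (hlt _ hiβ) 1
        refine (h1.and h2).congr fun v _ => ?_
        simp
      obtain ⟨z', hz'M, hz', hz'i⟩ := hM.2 (fun z => z ∈ E (e (x j)) ∧ vl z = vl (e (x i))) 0 hd
        ⟨z, (E_lt hz).trans (hlt _ hjβ), hz, hzi⟩
      obtain ⟨z₀, hz₀, rfl⟩ := hc.surj z' hz'M
      have h3 : z₀ < x j := (hc.lt_iff hz₀ hjβ).1 (E_lt hz')
      have h4 : z₀ < s := h3.trans hj
      exact ⟨z₀, (hE z₀ h4 _ hj).2 hz', (heq z₀ h4 _ hi).2 hz'i⟩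
  | eq i j => exact heq _ (hx i) _ (hx j)
  | fls => exact Iff.rfl
  | imp φ ψ ih1 ih2 =>
    exact imp_congr (ih1 x hx) (ih2 x hx)
  | all i ψ ih =>
    change (∀ a ∈ LevR (US s) ζ, SSat (LevR (US s) ζ) ψ (Function.update (fun j => vl (x j)) i a)) ↔
      (∀ b ∈ LevR (US (e s)) (e ζ),
        SSat (LevR (US (e s)) (e ζ)) ψ (Function.update (fun j => vl (e (x j))) i b))
    have hupd : ∀ y < s, ∀ j, Function.update x i y j < s := fun y hy => upd_lt hx hy
    constructor
    · intro hall b hb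
      by_contra hcon
      obtain ⟨y, hy, rfl⟩ : b ∈ US (e s) := (mem_levR.1 hb).1
      have hy' : y < e s := hy
      -- the constants
      let w : ℕ → Od := fun j => if j = 0 then e ζ else e (x (j - 1))
      have hw : ∀ j, w j ∈ M := by
        intro j
        by_cases h : j = 0
        · simpa [w, h] using hmem ζ hζ
        · simpa [w, h] using hmem _ ((hx (j - 1)).trans hs)
      have hw' : ∀ j, w j < σ := fun j => hM.1 _ (hw j)
      have hws : ∀ y : Od, (SSat (LevR (US (e s)) (Function.update w (i + 1) y 0)) ψ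
          (fun j => vl (Function.update w (i + 1) y (j + 1))) ↔
          SSat (LevR (US (e s)) (e ζ)) ψ
            (Function.update (fun j => vl (e (x j))) i (vl y))) := by
        intro y
        have h0 : Function.update w (i + 1) y 0 = e ζ := by
          simp [w]
        have h1 : (fun j => vl (Function.update w (i + 1) y (j + 1))) =
            Function.update (fun j => vl (e (x j))) i (vl y) := by
          funext j
          by_cases h : j = i
          · subst h
            simp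
          · simp [w, h]
        rw [h0, h1]
      have hd1 := (dfn_ssat (hlt s hs) (hmem s hs) ψ).updc w hw hw' (i + 1)
      have hd2 : Dfn σ M (fun v => lam (e s) (e ζ) (v (i + 1))) := by
        have h1 := ((Dfn.lam (σ := σ) (A := M) (i + 2) (i + 3) (i + 1)).subst
          (hmem s hs) (hlt s hs) (i + 2)).subst (hmem ζ hζ) (hlt ζ hζ) (i + 3)
        refine h1.congr fun v _ => ?_
        simp
      have hd : Dfn σ M (fun v => (fun y => lam (e s) (e ζ) y ∧
          ¬ SSat (LevR (US (e s)) (e ζ)) ψ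
            (Function.update (fun j => vl (e (x j))) i (vl y))) (v (i + 1))) := by
        refine (hd2.and hd1.not).congr fun v _ => ?_
        simp only [hws]
      obtain ⟨y', hy'M, hlam, hns⟩ := hM.2 (fun y => lam (e s) (e ζ) y ∧
          ¬ SSat (LevR (US (e s)) (e ζ)) ψ
            (Function.update (fun j => vl (e (x j))) i (vl y))) (i + 1) hd
        ⟨y, hy'.trans (hlt s hs), ⟨hy', hb⟩, hcon⟩
      obtain ⟨y₀, hy₀, rfl⟩ := hc.surj y' hy'M
      have hy₀s : y₀ < s := (hc.lt_iff hy₀ hs).1 hlam.1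
      have h3 := hall _ ((hl y₀ hy₀s).2 hlam).2
      rw [upd_vl] at h3
      rw [upd_vle] at hns
      exact hns ((ih _ (hupd y₀ hy₀s)).1 h3)
    · intro hall a ha
      obtain ⟨y, hy, rfl⟩ : a ∈ US s := (mem_levR.1 ha).1
      have hy' : y < s := hy
      have h3 := hall _ ((hl y hy').1 ⟨hy', ha⟩).2
      rw [upd_vle] at h3
      rw [upd_vl]
      exact (ih _ (hupd y hy')).2 h3

end CWV
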