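import Pool.Agent.Work.MP_8b5b22_gt.C.CDefs
import Pool.Agent.Work.MP_8b5b22_gt.C.RelM

/-!
# Module C/CSat (S-M)

If the relations agree below `s < β` then `e` is elementary from the structure on `s` to the
structure on `e s`.

Induction on `φ` (for all `v`).  Atoms: `Agree` for the three values (`tv (e ∘ c) (e ∘ v) t =
e (tv c v t)`).  `all i φ`: if `Sat s c (all i φ) v` fails to transfer there is `y < e s` with
`¬ Sat (e s) (e ∘ c) φ (update (e ∘ v) i y)`.  The predicate
`D y := y < e s ∧ ¬ Sat (e s) (e ∘ c) φ (update (e ∘ v) i y)` is definable over `M` (variable `i`;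
`dfn_relmix` with `τ = e s`, `w = e ∘ v`, `V j = (j == i)`; `y < e s` by `Dfn.lt` and `Dfn.subst`),
so by `TV` there is such `y ∈ M`, `y = e y₀` with `y₀ < s` (`Coll.lt_iff`), and
`update (e ∘ v) i (e y₀) = e ∘ update v i y₀`.  The other direction is direct.
-/

open Set

universe u

namespace CWV

theorem sat_agree {σ β s : Od} {M : Set Od} {e : Od → Od} (hM : TV σ M) (hc : Coll M β e)
    (hs : s < β) (ha : Agree e s) {C : Type u} (c : C → Od) (hcs : ∀ x, c x < s) (φ : Fm C)
    (v : ℕ → Od) (hv : ∀ i, v i < s) :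
    Sat s c φ v ↔ Sat (e s) (e ∘ c) φ (e ∘ v) := by
  have hesM : e s ∈ M := hc.mem s hs
  have hesσ : e s < σ := hM.1 _ hesM
  induction φ generalizing v with
  | rel r a b d =>
    have key : ∀ t : ℕ ⊕ C, tv c v t < s ∧ tv (e ∘ c) (e ∘ v) t = e (tv c v t) := by
      intro t
      cases t with
      | inl j => exact ⟨hv j, rfl⟩
      | inr x => exact ⟨hcs x, rfl⟩
    rw [sat_rel, sat_rel, (key a).2, (key b).2, (key d).2]
    exact ha r _ _ _ (key a).1 (key b).1 (key d).1
  | fls => simp
  | imp φ ψ ih1 ih2 =>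
    rw [sat_imp, sat_imp]
    exact imp_congr (ih1 v hv) (ih2 v hv)
  | all i φ ih =>
    rw [sat_all, sat_all]
    have hupd : ∀ x, e ∘ Function.update v i x = Function.update (e ∘ v) i (e x) := by
      intro x
      exact Function.comp_update e v i x
    constructor
    · intro h y hy
      by_contra hcon
      have hD1 : Dfn σ M (fun v' => v' i < e s) := by
        refine ((Dfn.lt i (i + 1)).subst hesM hesσ (i + 1)).congr fun v' _ => ?_
        simp
      have hD2 : Dfn σ M (fun v' => Sat (e s) (e ∘ c) φ (Function.update (e ∘ v) i (v' i))) := by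
        refine (dfn_relmix hesσ.le hesM (e ∘ c) (fun x => hc.mem _ ((hcs x).trans hs)) (e ∘ v)
          (fun j => hc.mem _ ((hv j).trans hs)) φ (fun j => j == i)).congr fun v' _ => ?_
        have : (fun j => if (j == i) then v' j else (e ∘ v) j) =
            Function.update (e ∘ v) i (v' i) := by
          funext j
          by_cases hj : j = i
          · subst hj
            simp
          · simp [hj]
        rw [this]
      obtain ⟨x, hxM, hx1, hx2⟩ := hM.2
        (fun y => y < e s ∧ ¬ Sat (e s) (e ∘ c) φ (Function.update (e ∘ v) i y)) i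
        (hD1.and hD2.not) ⟨y, hy.trans hesσ, hy, hcon⟩
      obtain ⟨x₀, hx₀, rfl⟩ := hc.surj x hxM
      have hlt : x₀ < s := (hc.lt_iff hx₀ hs).1 hx1
      have h1 := (ih (Function.update v i x₀) (upd_lt hv hlt)).1 (h x₀ hlt)
      rw [hupd] at h1
      exact hx2 h1
    · intro h x hx
      refine (ih (Function.update v i x) (upd_lt hv hx)).2 ?_
      rw [hupd]
      exact h (e x) (hc.mono x s hx hs)

end CWV
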