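import Pool.Agent.Work.MP_8b5b22_gt.C.Defs

/-!
# Module C/Loc (M)

Locality.  If `S x = S' x` for all `x < s` then the six relations agree on arguments `< s`, and
satisfaction over the structure on `s` agrees.

* `val_congr`: `val S x = val S' x` for `x < s`, by strong induction on `x`, `mem_val` and
  `ZFSet.ext`.
* `relV_congr`: case by case.  For `.mem` : `S y = S' y` as `y < s`.  For `.lam` : `z < x < s`, and
  `val S '' Iio x = val S' '' Iio x` (`Set.image_congr`), `val S z = val S' z`.
* `satR_congr`: induction on the formula; the quantifier runs over `x < s`, and `update v i x` has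
  again all values `< s`.
-/

open Set

universe u

namespace CWV

theorem val_congr {S S' : Od → Set Od} {s : Od} (h : ∀ x < s, S x = S' x) :
    ∀ x < s, val S x = val S' x := by
  intro x
  induction x using WellFoundedLT.induction with
  | ind x ih =>
    intro hx
    ext y
    rw [mem_val, mem_val, h x hx]
    constructor
    · rintro ⟨z, hz, h1, h2⟩
      exact ⟨z, hz, h1, by rw [← ih z hz (hz.trans hx)]; exact h2⟩
    · rintro ⟨z, hz, h1, h2⟩
      exact ⟨z, hz, h1, by rw [ih z hz (hz.trans hx)]; exact h2⟩

theorem relV_congr {S S' : Od → Set Od} {s : Od} (h : ∀ x < s, S x = S' x) (r : RS)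
    {x y z : Od} (hx : x < s) (hy : y < s) (hz : z < s) :
    RelV S r x y z ↔ RelV S' r x y z := by
  have hv := val_congr h
  cases r with
  | lt => exact Iff.rfl
  | pr => exact Iff.rfl
  | mem =>
    show x ∈ S y ↔ x ∈ S' y
    rw [h y hy]
  | eqv =>
    show val S x = val S y ↔ val S' x = val S' y
    rw [hv x hx, hv y hy]
  | lam =>
    show (z < x ∧ val S z ∈ LevR (val S '' Set.Iio x) y) ↔
      (z < x ∧ val S' z ∈ LevR (val S' '' Set.Iio x) y)
    have h1 : val S '' Set.Iio x = val S' '' Set.Iio x :=
      Set.image_congr fun a ha => hv a (lt_trans ha hx)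
    rw [h1, hv z hz]
  | od =>
    show val S y = Ordinal.toZFSet x ↔ val S' y = Ordinal.toZFSet x
    rw [hv y hy]

theorem satR_congr {S S' : Od → Set Od} {s : Od} (h : ∀ x < s, S x = S' x) {C : Type u}
    (c : C → Od) (hc : ∀ x, c x < s) (φ : Fm C) (v : ℕ → Od) (hv : ∀ i, v i < s) :
    SatR (RelV S) s c φ v ↔ SatR (RelV S') s c φ v := by
  have ht : ∀ (v : ℕ → Od), (∀ i, v i < s) → ∀ t : ℕ ⊕ C, tv c v t < s := by
    intro v hv t
    cases t with
    | inl i => exact hv i
    | inr a => exact hc a
  induction φ generalizing v with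
  | rel r a b d => exact relV_congr h r (ht v hv a) (ht v hv b) (ht v hv d)
  | fls => exact Iff.rfl
  | imp φ ψ ih1 ih2 =>
    show (_ → _) ↔ (_ → _)
    exact imp_congr (ih1 v hv) (ih2 v hv)
  | all i φ ih =>
    show (∀ x < s, _) ↔ (∀ x < s, _)
    refine forall_congr' fun x => forall_congr' fun hx => ih _ fun j => ?_
    by_cases hj : j = i
    · subst hj
      rw [Function.update_self]
      exact hx
    · rw [Function.update_of_ne hj]
      exact hv j

end CWV
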