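import Pool.Agent.Work.MP_8b5b22_gt.C.Pair1
import Pool.Agent.Work.MP_8b5b22_gt.C.Loc

/-!
# Module C/Fix (S-M)

Existence of the membership relation: `∃ S, ∀ γ, S γ = Step S γ`.

Define `S` by well-founded recursion: `S γ = Step (fun x => if x < γ then S x else ∅) γ`
(`WellFounded.fix` with `F γ IH = Step (fun x => if h : x < γ then IH x h else ∅) γ`).
To show `S γ = Step S γ`: in `Step` the ordinal `s` satisfies `s ≤ g s n ≤ g (g s n) p = γ`
(`le_g_left`), so the truncated function agrees with `S` below `s`; `satR_congr` with the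
assignment `asg ξ p` (values `ξ, p < s`) and no constants.
-/

open Set

universe u

namespace CWV

theorem exists_fix : ∃ S : Od → Set Od, ∀ γ, S γ = Step S γ := by
  classical
  let F : (γ : Od) → ((x : Od) → x < γ → Set Od) → Set Od :=
    fun γ IH => Step (fun x => if h : x < γ then IH x h else ∅) γ
  let S : Od → Set Od := (wellFounded_lt : WellFounded ((· < ·) : Od → Od → Prop)).fix F
  have hS : ∀ γ, S γ = Step (fun x => if h : x < γ then S x else ∅) γ := by
    intro γ
    exact WellFounded.fix_eq _ F γ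
  refine ⟨S, fun γ => ?_⟩
  rw [hS γ]
  ext ξ
  have key : ∀ (s p : Od) (n : ℕ), γ = g (g s n) p → p < s → ξ < s →
      (SatR (RelV (fun x => if h : x < γ then S x else ∅)) s nc (fml n) (asg ξ p) ↔
        SatR (RelV S) s nc (fml n) (asg ξ p)) := by
    intro s p n hγ hp hξ
    have hs : s ≤ γ := by
      rw [hγ]
      exact (le_g_left s n).trans (le_g_left _ p)
    refine satR_congr (fun x hx => ?_) nc (fun e => e.elim) (fml n) (asg ξ p) (fun i => ?_)
    · show (if h : x < γ then S x else ∅) = S x
      rw [dif_pos (hx.trans_le hs)]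
    · unfold asg
      split_ifs
      · exact hξ
      · exact hp
  constructor
  · rintro ⟨s, p, n, h1, h2, h3, h4⟩
    exact ⟨s, p, n, h1, h2, h3, (key s p n h1 h2 h3).1 h4⟩
  · rintro ⟨s, p, n, h1, h2, h3, h4⟩
    exact ⟨s, p, n, h1, h2, h3, (key s p n h1 h2 h3).2 h4⟩

end CWV
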