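import Pool.Agent.Work.MP_8b5b22_gt.C.Tr
import Pool.Agent.Work.MP_8b5b22_gt.C.CNat

/-!
# Module C/GoodH (M)

Let the countable ordinals in `M` be exactly those below `δ < ω₁`, and `ω₁ ∈ M`.

* `Hl.delta`: `e x = x` for `x < δ` (`Coll.init`); `W1 = e a` for some `a < β`; `a = δ`: for `x < a`,
  `e x < W1` is in `M`, so `e x < δ`, so `x ≤ e x < δ`...; if `δ < a` then `e δ < W1`, `e δ ∈ M`, so
  `e δ < δ`, but `e δ = e (e δ)`... contradiction with injectivity (`e (e δ) = e δ` as `e δ < δ`, so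
  `e δ = δ`).  If `a < δ` then `e a = a < δ < W1`, contradiction.
* `Hl.omega_lt`: `ω < δ` or `ω ≤ δ`: `ω ∈ M` (`omega_mem`) and `ω < W1`.
* `good_of_hull`: suppose `DR β R`, `R` bounded by `β`, `Surj δ R`; let `R'` be as in `Hl.pull`.  Let
  `B b := b < W1 ∧ ¬ ∃ n < ω, (R' n b ∧ ∀ b' < σ, R' n b' → b' = b)` (constants `W1, ω ∈ M`;
  `Dfn.ren2`).  If some `b < σ` satisfies `B` then by `TV` some `b ∈ M` does; `b < W1` so `b < δ` and
  `e b = b`.  Take `n` with `R n b` unique (`Surj`): `R' n b` (`e n = n`).  If `R' n b'` with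
  `b' < σ`, `b' ≠ b` then by `TV` there is such `b' ∈ M`, `b' = e b₀`, `R n b₀`, so `b₀ = b` and
  `b' = e b = b`, contradiction.  So for all `b < W1` there is a natural number `n` with
  `R' n b` and uniqueness of `b` below `σ`; this gives an injection of `Iio W1` into `ℕ`
  (`not_countable_W1`).
-/

open Set

universe u

namespace CWV

theorem Hl.delta {σ β δ : Od} {M : Set Od} {e : Od → Od} (H : Hl σ M β e) (hd : δ < W1)
    (hδ : ∀ x < W1, (x ∈ M ↔ x < δ)) (hW : W1 ∈ M) :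
    e δ = W1 ∧ δ < β ∧ (∀ x < δ, e x = x) ∧ (∀ x < β, e x < W1 → x < δ) := by
  have hin := H.co.init (δ := δ) (fun x hx => (hδ x (hx.trans hd)).2 hx)
  have h4 : ∀ x < β, e x < W1 → x < δ := by
    intro x hx h
    have h1 : e x < δ := (hδ _ h).1 (H.co.mem x hx)
    obtain ⟨h2, h3⟩ := hin _ h1
    have h5 := H.co.inj h2 hx h3
    rwa [h5] at h1
  obtain ⟨a, ha, hea⟩ := H.co.surj W1 hW
  have haδ : a = δ := by
    rcases lt_trichotomy a δ with h | h | h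
    · have h1 := (hin a h).2
      rw [hea] at h1
      rw [← h1] at h
      exact absurd h (not_lt.2 hd.le)
    · exact h
    · have h1 := H.co.mono δ a h ha
      rw [hea] at h1
      exact absurd (h4 δ (h.trans ha) h1) (lt_irrefl _)
  subst haδ
  exact ⟨hea, ha, fun x hx => (hin x hx).2, h4⟩

theorem Hl.omega_lt {σ β δ : Od} {M : Set Od} {e : Od → Od} (H : Hl σ M β e)
    (hδ : ∀ x < W1, (x ∈ M ↔ x < δ)) : Ordinal.omega0 < δ :=
  (hδ _ omega_lt_W1).1 (omega_mem H.tv H.om)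

theorem good_of_hull {σ β δ : Od} {M : Set Od} {e : Od → Od} (H : Hl σ M β e) (hd : δ < W1)
    (hδ : ∀ x < W1, (x ∈ M ↔ x < δ)) (hW : W1 ∈ M) : Good β δ := by
  obtain ⟨-, hδβ, hfix, -⟩ := H.delta hd hδ hW
  have hωδ := H.omega_lt hδ
  refine ⟨H.cb, hδβ, fun R hRb hR hS => ?_⟩
  obtain ⟨R', hR', hRR⟩ := H.pull hR
  have hWσ : W1 < σ := H.tv.1 _ hW
  have hωM : Ordinal.omega0 ∈ M := omega_mem H.tv H.om
  have hωσ : Ordinal.omega0 < σ := H.om
  -- the set of the exceptions is definable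
  have hD : Dfn σ M (fun v => v 0 < W1 ∧ ¬ ∃ n < σ, n < Ordinal.omega0 ∧ R' n (v 0) ∧
      ∀ b' < σ, R' n b' → b' = v 0) := by
    have k1 : Dfn σ M (fun v => v 0 < W1) :=
      ((Dfn.lt 0 5).subst hW hWσ 5).congr fun v _ => by simp
    have k2 : Dfn σ M (fun v => v 2 < Ordinal.omega0) :=
      ((Dfn.lt 2 6).subst hωM hωσ 6).congr fun v _ => by simp
    have k3 : Dfn σ M (fun v => ∀ b' < σ, R' (v 2) b' → b' = v 0) :=
      (((hR'.ren2 2 3).imp (Dfn.eq 3 0)).all 3).congr fun v _ => by simp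
    refine (k1.and ((k2.and ((hR'.ren2 2 0).and k3)).ex 2).not).congr fun v _ => ?_
    simp
  have key : ∀ b < W1, ∃ n < σ, n < Ordinal.omega0 ∧ R' n b ∧ ∀ b' < σ, R' n b' → b' = b := by
    by_contra hcon
    push Not at hcon
    obtain ⟨b₁, hb₁, hb₁'⟩ := hcon
    obtain ⟨b, hbM, hbW, hb⟩ := H.tv.2 (fun b => b < W1 ∧ ¬ ∃ n < σ, n < Ordinal.omega0 ∧
      R' n b ∧ ∀ b' < σ, R' n b' → b' = b) 0 hD ⟨b₁, hb₁.trans hWσ, hb₁, fun ⟨n, h1, h2, h3, h4⟩ => by
        obtain ⟨b', h5, h6, h7⟩ := hb₁' n h1 h2 h3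
        exact h7 (h4 b' h5 h6)⟩
    have hbδ : b < δ := (hδ b hbW).1 hbM
    obtain ⟨n, hn, hu⟩ := hS b hbδ
    have hnδ : (n : Od) < δ := (nat_lt_omega n).trans hωδ
    have hnM : (n : Od) ∈ M := nat_mem H.tv H.om.le n
    have hnβ : (n : Od) < β := (hRb _ _ hn).1
    have hbβ : b < β := (hRb _ _ hn).2
    have hRn : R' n b := by
      have := (hRR _ hnβ _ hbβ).1 hn
      rwa [hfix _ hnδ, hfix _ hbδ] at this
    refine hb ⟨n, (nat_lt_omega n).trans H.om, nat_lt_omega n, hRn, ?_⟩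
    by_contra hcon2
    push Not at hcon2
    obtain ⟨b₂, hb₂, hb₂R, hb₂n⟩ := hcon2
    have hD2 : Dfn σ M (fun v => R' n (v 0) ∧ v 0 ≠ b) := by
      have k1 : Dfn σ M (fun v => R' n (v 0)) :=
        ((hR'.ren2 7 0).subst hnM ((nat_lt_omega n).trans H.om) 7).congr fun v _ => by simp
      have k2 : Dfn σ M (fun v => v 0 = b) :=
        ((Dfn.eq 0 8).subst hbM (H.tv.1 _ hbM) 8).congr fun v _ => by simp
      exact k1.and k2.not
    obtain ⟨b', hb'M, hb'R, hb'n⟩ := H.tv.2 (fun x => R' n x ∧ x ≠ b) 0 hD2 ⟨b₂, hb₂, hb₂R, hb₂n⟩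
    obtain ⟨b₀, hb₀, rfl⟩ := H.co.surj b' hb'M
    have h1 : R n b₀ := (hRR _ hnβ _ hb₀).2 (by rwa [hfix _ hnδ])
    have h2 := hu _ h1
    subst h2
    exact hb'n (hfix _ hbδ)
  have key2 : ∀ b : Set.Iio W1, ∃ n : ℕ, R' n b ∧ ∀ b' < σ, R' n b' → b' = b := by
    intro b
    obtain ⟨n, -, h2, h3, h4⟩ := key b.1 b.2
    obtain ⟨k, rfl⟩ := Ordinal.lt_omega0.1 h2
    exact ⟨k, h3, h4⟩
  choose f hf1 hf2 using key2
  refine not_countable_W1 ?_
  have hinj : Function.Injective f := by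
    intro a b hab
    refine Subtype.ext ?_
    refine hf2 b a.1 (lt_trans a.2 hWσ) ?_
    rw [← hab]
    exact hf1 a
  exact Set.countable_coe_iff.1 hinj.countable

end CWV
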