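import Mathlib

/-!
# The constructible hierarchy, with Mathlib's notion of definability (fixed file)
-/

open Set

namespace CWL

/-- one binary relation symbol -/
inductive MemRel : ℕ → Type
  | mem : MemRel 2

/-- the language of set theory -/
def LSet : FirstOrder.Language := ⟨fun _ => Empty, MemRel⟩

/-- a class `A` of sets as a structure `(A, ∈)` -/
instance structureOn (A : Set ZFSet.{0}) : LSet.Structure A where
  funMap := fun f => f.elim
  RelMap := fun r v => match r, v with
    | .mem, v => (v 0 : ZFSet.{0}) ∈ (v 1 : ZFSet.{0})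

/-- the subsets of `A` definable over `(A, ∈)` with parameters from `A` -/
def DefM (A : Set ZFSet.{0}) : Set ZFSet.{0} :=
  {x | (∀ y ∈ x, y ∈ A) ∧ (univ : Set A).Definable₁ LSet {y : A | (y : ZFSet.{0}) ∈ x}}

/-- Goedel's hierarchy: `L_0 = ∅`, `L_(α+1)` is the set of the definable subsets of `L_α`, unions at
limits -/
noncomputable def Lev (α : Ordinal.{0}) : Set ZFSet.{0} :=
  Ordinal.limitRecOn α ∅ (fun _ A => DefM A) (fun β _ IH => ⋃ γ, ⋃ h : γ < β, IH γ h)

theorem lev_zero : Lev 0 = ∅ := Ordinal.limitRecOn_zero _ _ _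

theorem lev_succ (α : Ordinal.{0}) : Lev (α + 1) = DefM (Lev α) :=
  Ordinal.limitRecOn_add_one _ _ _ _

theorem lev_limit {α : Ordinal.{0}} (h : Order.IsSuccLimit α) : Lev α = ⋃ γ < α, Lev γ :=
  Ordinal.limitRecOn_limit _ _ _ _ h

end CWL
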