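import Pool.Agent.Work.MP_8b5b22_gt.C.LinkS
import Pool.Agent.Work.MP_8b5b22_gt.C.Pair2
import Pool.Agent.Work.MP_8b5b22_gt.C.CNat

/-!
# Module C/LinkA (M)

Every constructible set has a code; all elements of `L_α` have codes below some `s`.

Strong induction on `α`.  Choose for every `ζ < α` an ordinal `s ζ` such that all elements of
`LevR univ ζ` have codes `< s ζ`; we may take `s ζ > 0` (replace by `s ζ + 1`).  Let `τ` be above `α`
and above all `s ζ`, `ζ < α` (the supremum over `Iio α`, a small family: `Ordinal.bddAbove_of_small`,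
`le_ciSup`), `ω ≤ τ`.  Let `σ > τ` be closed (`exists_closed`) and `σ' > σ` closed.  If
`x ∈ LevR univ α` then `x ∈ DefS (LevR univ ζ)` for some `ζ < α` (`mem_levR`), and `link_step` gives
the code `g (g σ n) p`, which is `< σ'` as `σ, n, p < σ'`.
-/

open Set

universe u

namespace CWV

theorem link_all (α : Od) : ∃ s : Od, ∀ x ∈ LevR univ α, ∃ c < s, vl c = x := by
  induction α using WellFoundedLT.induction with
  | ind α ih =>
    choose! f hf using ih
    obtain ⟨τ, hτ⟩ : ∃ τ : Od, ∀ ζ < α, f ζ < τ := by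
      have hb : BddAbove (Set.range (fun ζ : Set.Iio α => f ζ.1)) := Ordinal.bddAbove_of_small
      obtain ⟨b, hb⟩ := hb
      exact ⟨b + 1, fun ζ hζ => Order.lt_add_one_iff.2 (hb ⟨⟨ζ, hζ⟩, rfl⟩)⟩
    obtain ⟨σ, hσ1, hσ⟩ := exists_closed (max (max τ α) Ordinal.omega0)
    obtain ⟨σ', hσ2, hσ'⟩ := exists_closed σ
    have h1 : τ < σ := ((le_max_left _ _).trans (le_max_left _ _)).trans_lt hσ1
    have h2 : α < σ := ((le_max_right _ _).trans (le_max_left _ _)).trans_lt hσ1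
    have h3 : Ordinal.omega0 < σ := (le_max_right _ _).trans_lt hσ1
    refine ⟨σ', fun x hx => ?_⟩
    obtain ⟨-, ζ, hζ, hx'⟩ := mem_levR.1 hx
    have h0 : 0 < τ := (bot_le : (0 : Od) ≤ f ζ).trans_lt (hτ ζ hζ)
    have hU : LevR univ ζ ⊆ US τ := by
      intro y hy
      obtain ⟨c, hc, hcy⟩ := hf ζ hζ y hy
      exact ⟨c, hc.trans (hτ ζ hζ), hcy⟩
    obtain ⟨n, p, hp, hnp⟩ := link_step hσ h1 h0 (hζ.trans h2) hU hx'
    exact ⟨g (g σ n) p, hσ'.2 _ (hσ'.2 _ hσ2 _ (((Ordinal.natCast_lt_omega0 n).trans h3).trans hσ2)) _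
      (hp.trans hσ2), hnp⟩

end CWV
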