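import Pool.Agent.Work.MP_8b5b22_gt.C.OneP
import Pool.Agent.Work.MP_8b5b22_gt.C.SSd
import Pool.Agent.Work.MP_8b5b22_gt.C.LevU

/-!
# Module C/LinkS (M)

Every definable subset of a level all of whose elements are coded below `s` is coded.

Let `A = LevR univ ζ = LevR (US s) ζ` (`levR_eq`).  Let `x ∈ DefS A` with `ψ, v`.  Choose codes
`c i < s` of `v i` (`0` for `∅`, `vl_zero`).  The predicate
`D z := lam s ζ z ∧ SSat A ψ (update v 0 (vl z))` is definable over the structure on `σ` with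
parameters `< σ`: `lam s ζ z` is `Dfn.lam` with two constants (`Dfn.subst`); and
`SSat (LevR (US s) (w 0)) ψ (fun i => vl (w (i+1)))` at `w 0 = ζ`, `w 1 = z`, `w (i+1) = c i` (`i ≥ 1`)
is `dfn_ssat` with constants (`Dfn.updc` at the variable `1`, then `Dfn.ren1` to variable `0`).
`code_of_dfn` gives `E (g (g σ n) p) = {z | z < σ ∧ D z}`.  By `mem_vl` the value is
`{vl z | lam s ζ z, …} = {y ∈ A | SSat A ψ (update v 0 y)} = x` (`ZFSet.ext`; `y ∈ A` is `vl z` with
`z < s < σ`, `mem_levR`).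
-/

open Set

universe u

namespace CWV

theorem link_step {σ s ζ : Od} (hσ : Closed σ) (hs : s < σ) (h0 : 0 < s) (hζ : ζ < σ)
    (hU : LevR univ ζ ⊆ US s) {x : ZFSet.{0}} (hx : x ∈ DefS (LevR univ ζ)) :
    ∃ (n : ℕ) (p : Od), p < σ ∧ vl (g (g σ n) p) = x := by
  classical
  have hLR : LevR (US s) ζ = LevR univ ζ := levR_eq hU ζ le_rfl
  obtain ⟨ψ, v, hv, hx⟩ := hx
  -- codes of the parameters
  have hc : ∀ i, ∃ c : Od, c < s ∧ vl c = v i := by
    intro i
    rcases hv i with h | h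
    · exact ⟨0, h0, by rw [vl_zero, h]⟩
    · obtain ⟨c, hc, hc'⟩ := hU h
      exact ⟨c, hc, hc'⟩
  choose c hcs hcv using hc
  -- the assignment
  let w : ℕ → Od := fun i => if i = 0 then ζ else c (i - 1)
  have hw0 : w 0 = ζ := rfl
  have hws : ∀ i, w (i + 1) = c i := fun i => rfl
  have hw : ∀ i, w i < σ := by
    intro i
    cases i with
    | zero => exact hζ
    | succ i => exact (hcs i).trans hs
  have hsat : Dfn σ (Iio σ) (fun u => SSat (LevR univ ζ) ψ (Function.update v 0 (vl (u 1)))) := by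
    have h := (dfn_ssat (A := Iio σ) hs hs ψ).updc w (fun j => hw j) hw 1
    refine h.congr fun u _ => ?_
    have e1 : Function.update w 1 (u 1) 0 = ζ := rfl
    have e2 : (fun i => vl (Function.update w 1 (u 1) (i + 1))) =
        Function.update v 0 (vl (u 1)) := by
      funext i
      cases i with
      | zero => simp
      | succ i =>
        rw [Function.update_of_ne (by omega), Function.update_of_ne (by omega), hws, hcv]
    rw [e1, e2, hLR]
  have hsat' := hsat.ren1 (P := fun z => SSat (LevR univ ζ) ψ (Function.update v 0 (vl z))) 0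
  have hlam : Dfn σ (Iio σ) (fun u => lam s ζ (u 0)) := by
    have h := ((Dfn.lam (σ := σ) (A := Iio σ) 1 2 0).subst (a := s) hs hs 1).subst (a := ζ) hζ hζ 2
    refine h.congr fun u _ => ?_
    simp
  obtain ⟨n, p, hp, hE⟩ := code_of_dfn hσ
    (D := fun z => lam s ζ z ∧ SSat (LevR univ ζ) ψ (Function.update v 0 (vl z)))
    (hlam.and hsat')
  refine ⟨n, p, hp, ?_⟩
  refine ZFSet.ext fun y => ?_
  rw [mem_vl, hx, hE]
  constructor
  · rintro ⟨z, ⟨_, hz, hz'⟩, rfl⟩
    refine ⟨?_, hz'⟩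
    rw [← hLR]
    exact hz.2
  · rintro ⟨hy, hy'⟩
    obtain ⟨z, hz, rfl⟩ := hU hy
    refine ⟨z, ⟨lt_trans hz hs, ⟨hz, ?_⟩, hy'⟩, rfl⟩
    rw [hLR]
    exact hy

end CWV
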