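import Pool.Agent.Work.MP_8b5b22_gt.C.LDefs
import Pool.Agent.Work.MP_8b5b22_gt.C.Defs

/-!
# Module C/MDefA (M)

Mathlib-definable sets are definable with the syntax `SF`.

From `Set.definable_iff_finitely_definable`, `Set.definable_iff_exists_formula_sum`: there are a
finite set `A₀` of parameters and `φ : LSet.Formula (A₀ ⊕ Fin 1)`; relabel `A₀ ≃ Fin k`: a formula
in the free variables `Fin k ⊕ Fin 1`.  Translate `φ : LSet.BoundedFormula α n` (with
`α = Fin k ⊕ Fin 1`) to `SF`: name the free variables by `inr 0 ↦ 0`, `inl i ↦ i + 1` and the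
bound variable `i : Fin n` by `k + 1 + i`; terms are variables (`LSet` has no functions);
`all φ ↦ SF.all (k + 1 + n) (tr φ)`.  Show by induction: `φ.Realize v xs ↔ SSat A (tr φ) w` whenever
`w` has the values of `v` and `xs` at the names (`Fin.snoc`).  Take `ψ = tr φ` and the assignment
with value `b_i` at `i + 1` (`i < k`) and `∅` elsewhere; variable `0` is updated to `y`.
-/

open Set

namespace CWV

open CWL

private theorem exists_name {A : Set ZFSet.{0}} {α : Type 1} (nm : α → ℕ) (N n : ℕ)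
    (t : LSet.Term (α ⊕ Fin n)) : ∃ k : ℕ, ∀ (v : α → A) (xs : Fin n → A)
      (w : ℕ → ZFSet.{0}), (∀ a, w (nm a) = v a) → (∀ i : Fin n, w (N + i) = xs i) →
        w k = (t.realize (Sum.elim v xs) : A) := by
  cases t with
  | var x =>
    cases x with
    | inl a => exact ⟨nm a, fun v xs w h1 _ => h1 a⟩
    | inr i => exact ⟨N + i, fun v xs w _ h2 => h2 i⟩
  | func f ts => exact f.elim

private theorem exists_tr {A : Set ZFSet.{0}} {α : Type 1} (nm : α → ℕ) (N : ℕ)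
    (hN : ∀ a, nm a < N) {n : ℕ} (φ : LSet.BoundedFormula α n) :
    ∃ ψ : SF, ∀ (v : α → A) (xs : Fin n → A) (w : ℕ → ZFSet.{0}),
      (∀ a, w (nm a) = v a) → (∀ i : Fin n, w (N + i) = xs i) →
        (φ.Realize v xs ↔ SSat A ψ w) := by
  induction φ with
  | falsum => exact ⟨SF.fls, fun v xs w _ _ => Iff.rfl⟩
  | equal t₁ t₂ =>
    obtain ⟨k₁, h₁⟩ := exists_name (A := A) nm N _ t₁
    obtain ⟨k₂, h₂⟩ := exists_name (A := A) nm N _ t₂
    refine ⟨SF.eq k₁ k₂, fun v xs w hv hx => ?_⟩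
    show t₁.realize (Sum.elim v xs) = t₂.realize (Sum.elim v xs) ↔ w k₁ = w k₂
    rw [h₁ v xs w hv hx, h₂ v xs w hv hx]
    exact Subtype.ext_iff
  | rel R ts =>
    cases R with
    | mem =>
      obtain ⟨k₁, h₁⟩ := exists_name (A := A) nm N _ (ts 0)
      obtain ⟨k₂, h₂⟩ := exists_name (A := A) nm N _ (ts 1)
      refine ⟨SF.mem k₁ k₂, fun v xs w hv hx => ?_⟩
      show (((ts 0).realize (Sum.elim v xs) : A) : ZFSet.{0}) ∈
        (((ts 1).realize (Sum.elim v xs) : A) : ZFSet.{0}) ↔ w k₁ ∈ w k₂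
      rw [h₁ v xs w hv hx, h₂ v xs w hv hx]
  | imp φ₁ φ₂ ih₁ ih₂ =>
    obtain ⟨ψ₁, h₁⟩ := ih₁
    obtain ⟨ψ₂, h₂⟩ := ih₂
    refine ⟨SF.imp ψ₁ ψ₂, fun v xs w hv hx => ?_⟩
    show (φ₁.Realize v xs → φ₂.Realize v xs) ↔ (SSat A ψ₁ w → SSat A ψ₂ w)
    rw [h₁ v xs w hv hx, h₂ v xs w hv hx]
  | @all n φ ih =>
    obtain ⟨ψ, h⟩ := ih
    refine ⟨SF.all (N + n) ψ, fun v xs w hv hx => ?_⟩
    have key : ∀ x : A, (φ.Realize v (Fin.snoc xs x) ↔
        SSat A ψ (Function.update w (N + n) (x : ZFSet.{0}))) := by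
      intro x
      refine h v (Fin.snoc xs x) _ (fun a => ?_) (fun i => ?_)
      · rw [Function.update_of_ne (by have := hN a; omega)]
        exact hv a
      · refine Fin.lastCases ?_ (fun i => ?_) i
        · rw [Fin.snoc_last, Fin.val_last, Function.update_self]
        · rw [Fin.snoc_castSucc, Fin.val_castSucc, Function.update_of_ne (by omega)]
          exact hx i
    constructor
    · intro hr a ha
      exact (key ⟨a, ha⟩).1 (hr ⟨a, ha⟩)
    · intro hs x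
      exact (key x).2 (hs x x.2)

theorem defS_of_defM {A : Set ZFSet.{0}} {x : ZFSet.{0}} (hx : x ∈ DefM A) : x ∈ DefS A := by
  obtain ⟨hsub, hdef⟩ := hx
  obtain ⟨A₀, -, h1⟩ := Set.definable_iff_finitely_definable.1 hdef
  obtain ⟨φ, hφ⟩ := Set.definable_iff_exists_formula_sum.1 h1
  let E := Finite.equivFin (↥(A₀ : Set A))
  let nm : (↥(A₀ : Set A)) ⊕ Fin 1 → ℕ := Sum.elim (fun a => (E a : ℕ) + 1) (fun _ => 0)
  have hN : ∀ a, nm a < Nat.card (↥(A₀ : Set A)) + 1 := by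
    rintro (a | a)
    · exact Nat.succ_lt_succ (E a).2
    · exact Nat.succ_pos _
  obtain ⟨ψ, hψ⟩ := exists_tr (A := A) nm _ hN φ
  let w : ℕ → ZFSet.{0} := fun i =>
    if h : 1 ≤ i ∧ i - 1 < Nat.card (↥(A₀ : Set A)) then
      (((E.symm ⟨i - 1, h.2⟩ : ↥(A₀ : Set A)) : A) : ZFSet.{0}) else ∅
  have hw : ∀ a : ↥(A₀ : Set A), w ((E a : ℕ) + 1) = ((a : A) : ZFSet.{0}) := by
    intro a
    have h : 1 ≤ (E a : ℕ) + 1 ∧ (E a : ℕ) + 1 - 1 < Nat.card (↥(A₀ : Set A)) :=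
      ⟨Nat.succ_le_succ (Nat.zero_le _), by rw [Nat.add_sub_cancel]; exact (E a).2⟩
    show (if h : 1 ≤ (E a : ℕ) + 1 ∧ (E a : ℕ) + 1 - 1 < Nat.card (↥(A₀ : Set A)) then
      (((E.symm ⟨(E a : ℕ) + 1 - 1, h.2⟩ : ↥(A₀ : Set A)) : A) : ZFSet.{0}) else ∅) = _
    rw [dif_pos h]
    have e : (⟨(E a : ℕ) + 1 - 1, h.2⟩ : Fin (Nat.card (↥(A₀ : Set A)))) = E a :=
      Fin.ext (Nat.add_sub_cancel _ _)
    rw [e, E.symm_apply_apply]
  refine ⟨ψ, w, fun i => ?_, fun y => ?_⟩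
  · show (if h : 1 ≤ i ∧ i - 1 < Nat.card (↥(A₀ : Set A)) then
      (((E.symm ⟨i - 1, h.2⟩ : ↥(A₀ : Set A)) : A) : ZFSet.{0}) else ∅) ∈ insert ∅ A
    split_ifs with h
    · exact Set.mem_insert_of_mem _ (Subtype.coe_prop _)
    · exact Set.mem_insert _ _
  · have key : ∀ hy : y ∈ A, (y ∈ x ↔ SSat A ψ (Function.update w 0 y)) := by
      intro hy
      have h2 : (fun _ : Fin 1 => (⟨y, hy⟩ : A)) ∈
          {v : Fin 1 → A | ((v 0 : A) : ZFSet.{0}) ∈ x} ↔
          (fun _ : Fin 1 => (⟨y, hy⟩ : A)) ∈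
            {v | φ.Realize (Sum.elim (fun a : ↥(A₀ : Set A) => (a : A)) v)} :=
        Set.ext_iff.1 hφ _
      have h3 := hψ (Sum.elim (fun a : ↥(A₀ : Set A) => (a : A)) (fun _ : Fin 1 => (⟨y, hy⟩ : A)))
        default (Function.update w 0 y) (fun a => ?_) (fun i => i.elim0)
      · exact h2.trans h3
      · rcases a with a | a
        · show Function.update w 0 y ((E a : ℕ) + 1) = ((a : A) : ZFSet.{0})
          rw [Function.update_of_ne (Nat.succ_ne_zero _)]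
          exact hw a
        · show Function.update w 0 y 0 = y
          rw [Function.update_self]
    constructor
    · intro hy
      exact ⟨hsub y hy, (key (hsub y hy)).1 hy⟩
    · rintro ⟨hy, hs⟩
      exact (key hy).2 hs

end CWV
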