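import Pool.Agent.Work.MP_8b5b22_gt.C.Dfn

/-!
# Module C/Ren (M)

Renaming of variables in definable predicates which depend on one or two values only.

* `Dfn.ren1`: choose a variable `k` different from `i` and `j`.  For assignments with values below
  `σ`, `P (v j)` iff `∃ x < σ (at k), x = v j ∧ ∃ y < σ (at i), y = v k ∧ P (v i)`; use `Dfn.ex`,
  `Dfn.eq`, `Dfn.and` and `Dfn.congr` with `simp [Function.update_apply]`.
* `Dfn.ren2`: the same with two fresh variables `k, l` (different from `0, 1, i, j` and each other):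
  `∃ x (at k), x = v i ∧ ∃ y (at l), y = v j ∧ ∃ a (at 0), a = v k ∧ ∃ b (at 1), b = v l ∧ P a b`.
-/

open Set

universe u

namespace CWV

private theorem ren1_ne {σ : Od} {A : Set Od} {P : Od → Prop} {i k : ℕ} (hk : k ≠ i)
    (h : Dfn σ A (fun v => P (v i))) : Dfn σ A (fun v => P (v k)) := by
  refine (((Dfn.eq i k).and h).ex i).congr fun v hv => ?_
  simp only [Function.update_self, Function.update_of_ne hk]
  constructor
  · rintro ⟨y, -, h1, h2⟩
    rwa [h1] at h2
  · intro h1
    exact ⟨v k, hv k, rfl, h1⟩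

theorem Dfn.ren1 {σ : Od} {A : Set Od} {P : Od → Prop} {i : ℕ} (h : Dfn σ A (fun v => P (v i)))
    (j : ℕ) : Dfn σ A (fun v => P (v j)) := by
  have h1 : Dfn σ A (fun v => P (v (i + j + 1))) := ren1_ne (by omega) h
  exact ren1_ne (by omega) h1

/-- replace the variable `i` by the variable `k`, where `k` is different from `i`, `l` -/
private theorem ren2_fst {σ : Od} {A : Set Od} {P : Od → Od → Prop} {i k l : ℕ} (hk : k ≠ i)
    (hl : l ≠ i) (h : Dfn σ A (fun v => P (v i) (v l))) :
    Dfn σ A (fun v => P (v k) (v l)) := by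
  refine (((Dfn.eq i k).and h).ex i).congr fun v hv => ?_
  simp only [Function.update_self, Function.update_of_ne hk, Function.update_of_ne hl]
  constructor
  · rintro ⟨y, -, h1, h2⟩
    rwa [h1] at h2
  · intro h1
    exact ⟨v k, hv k, rfl, h1⟩

theorem Dfn.ren2 {σ : Od} {A : Set Od} {P : Od → Od → Prop}
    (h : Dfn σ A (fun v => P (v 0) (v 1))) (i j : ℕ) : Dfn σ A (fun v => P (v i) (v j)) := by
  -- first to fresh variables
  have h1 : Dfn σ A (fun v => P (v (i + j + 2)) (v 1)) :=
    ren2_fst (by omega) (by omega) h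
  have h2 : Dfn σ A (fun v => P (v (i + j + 2)) (v (i + j + 3))) :=
    ren2_fst (P := fun a b => P b a) (i := 1) (l := i + j + 2) (by omega) (by omega) h1
  have h3 : Dfn σ A (fun v => P (v i) (v (i + j + 3))) :=
    ren2_fst (by omega) (by omega) h2
  exact ren2_fst (P := fun a b => P b a) (i := i + j + 3) (l := i) (by omega) (by omega) h3

end CWV
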