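import Pool.Agent.Work.MP_8b5b22_gt.C.Code
import Pool.Agent.Work.MP_8b5b22_gt.C.Ren
import Pool.Agent.Work.MP_8b5b22_gt.C.Pair1
import Pool.Agent.Work.MP_8b5b22_gt.C.OneQ
import Pool.Agent.Work.MP_8b5b22_gt.C.DclB
import Pool.Agent.Work.MP_8b5b22_gt.C.DclC

/-!
# Module C/OneP (M)

Over a closed `σ` one parameter suffices.

Say that `P` (a predicate on assignments) has one parameter if
`∃ p < σ, ∃ N, ∀ k ≥ N, ∃ Q, Dfn σ ∅ Q ∧ ∀ v, (∀ i, v i < σ) → v k = p → (Q v ↔ P v)`.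
Show by induction on `φ : Fm (Iio σ)` that `Sat σ (↑) φ` has one parameter.
* `rel r a b d`: let `x₁, x₂, x₃` be the constants among `a, b, d` (`0` at the places of variables),
  `p = g x₁ (g x₂ x₃)`; for `k` large choose fresh variables `u₁ u₂ u₃ w`; `Q v` :=
  `∃ u₁ u₂ u₃ w < σ, v k = g u₁ w ∧ w = g u₂ u₃ ∧ RelV E r (t₁) (t₂) (t₃)` with `t_i = u_i` or the
  variable (`g_inj`; `σ` closed).
* `fls`: trivial.  `imp φ ψ`: `p = g p₁ p₂`; for `k` large choose fresh `k₁, k₂ ≥ N₁, N₂`, different from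
  `k` and not among the variables on which matters depend (take `k₁ = k+1, k₂ = k+2`); `Q v` :=
  `∃ x₁ x₂ < σ (at k₁, k₂), v k = g x₁ x₂ ∧ (Q₁ → Q₂)`.  Here `Sat σ (↑) φ` must not depend on the
  variables `k, k₁, k₂`: strengthen the claim by: `P v ↔ P w` if `v, w` agree below `N`
  (as in `sat_bound`).
* `all i φ`: the same `p`, `N' = max N (i+1)`, `Q' v := ∀ x < σ, Q (update v i x)`.
Finally let `Dfn σ (Iio σ) (fun v => D (v 0))`, take `k = max N 1`, `Q` defined by a formula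
without constants (`Fm ∅`, map to `Fm Empty`), which is some `fml n`; the assignment `asg ξ p` has
`v 0 = ξ`, `v k = p`.
`code_of_dfn`: `mem_E_code`, set extensionality.

(The proof below uses the definable closure instead: finitely many parameters are in `dcl σ {p}` for
an iterated pair `p`, and `one_fml`.)
-/

open Set

universe u

namespace CWV

private theorem fst_mem_dcl {σ a b : Od} (ha : a < σ) (hb : b < σ) (hab : g a b < σ) :
    a ∈ dcl σ {g a b} := by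
  refine ⟨ha, ?_⟩
  have h := ((Dfn.pr (σ := σ) (A := {g a b}) 1 0 2).ex 2).subst (Set.mem_singleton (g a b)) hab 1
  refine h.congr fun v _ => ?_
  simp only [Function.update_self, ne_eq, not_false_eq_true, OfNat.one_ne_ofNat,
    Function.update_of_ne, zero_ne_one, OfNat.zero_ne_ofNat]
  constructor
  · rintro ⟨x, -, hx⟩
    exact (g_inj hx).1.symm
  · rintro rfl
    exact ⟨b, hb, rfl⟩

private theorem snd_mem_dcl {σ a b : Od} (ha : a < σ) (hb : b < σ) (hab : g a b < σ) :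
    b ∈ dcl σ {g a b} := by
  refine ⟨hb, ?_⟩
  have h := ((Dfn.pr (σ := σ) (A := {g a b}) 1 2 0).ex 2).subst (Set.mem_singleton (g a b)) hab 1
  refine h.congr fun v _ => ?_
  simp only [Function.update_self, ne_eq, not_false_eq_true, OfNat.one_ne_ofNat,
    Function.update_of_ne, zero_ne_one, OfNat.zero_ne_ofNat]
  constructor
  · rintro ⟨x, -, hx⟩
    exact (g_inj hx).2.symm
  · rintro rfl
    exact ⟨a, ha, rfl⟩

private theorem dcl_trans {σ p q : Od} (h : p ∈ dcl σ {q}) : dcl σ {p} ⊆ dcl σ {q} := by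
  intro x hx
  refine ⟨hx.1, dfn_of_dcl (hx.2.mono ?_)⟩
  rintro y rfl
  exact h

private theorem finite_dcl {σ : Od} (hσ : Closed σ) {B : Set Od} (hB : B.Finite)
    (hBσ : B ⊆ Set.Iio σ) : ∃ p < σ, B ⊆ dcl σ {p} := by
  induction B, hB using Set.Finite.induction_on with
  | empty => exact ⟨0, hσ.1, Set.empty_subset _⟩
  | @insert a B _ _ ih =>
    obtain ⟨p, hp, hBp⟩ := ih fun x hx => hBσ (Set.mem_insert_of_mem _ hx)
    have ha : a < σ := hBσ (Set.mem_insert _ _)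
    have hgp : g a p < σ := hσ.2 a ha p hp
    refine ⟨g a p, hgp, ?_⟩
    rintro x (rfl | hx)
    · exact fst_mem_dcl ha hp hgp
    · exact dcl_trans (snd_mem_dcl ha hp hgp) (hBp hx)

theorem one_param {σ : Od} (hσ : Closed σ) {D : Od → Prop}
    (h : Dfn σ (Set.Iio σ) (fun v => D (v 0))) :
    ∃ (n : ℕ) (p : Od), p < σ ∧ ∀ ξ < σ, (D ξ ↔ Sat σ nc (fml n) (asg ξ p)) := by
  obtain ⟨B, hB, hfin, hD⟩ := dfn_finite h
  obtain ⟨p, hp, hBp⟩ := finite_dcl hσ hfin hB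
  obtain ⟨n, hn⟩ := one_fml hp (dfn_of_dcl (hD.mono hBp))
  exact ⟨n, p, hp, hn⟩

theorem code_of_dfn {σ : Od} (hσ : Closed σ) {D : Od → Prop}
    (h : Dfn σ (Set.Iio σ) (fun v => D (v 0))) :
    ∃ (n : ℕ) (p : Od), p < σ ∧ E (g (g σ n) p) = {ξ | ξ < σ ∧ D ξ} := by
  obtain ⟨n, p, hp, hn⟩ := one_param hσ h
  refine ⟨n, p, hp, ?_⟩
  ext ξ
  rw [mem_E_code, Set.mem_ofPred_eq]
  constructor
  · rintro ⟨-, h1, h2⟩
    exact ⟨h1, (hn ξ h1).2 h2⟩
  · rintro ⟨h1, h2⟩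
    exact ⟨hp, h1, (hn ξ h1).1 h2⟩

end CWV
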