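import Pool.Agent.Work.MP_8b5b22_gt.C.GoodH
import Pool.Agent.Work.MP_8b5b22_gt.C.Hull
import Pool.Agent.Work.MP_8b5b22_gt.C.Coded
import Pool.Agent.Work.MP_8b5b22_gt.C.DCod
import Pool.Agent.Work.MP_8b5b22_gt.C.DclC
import Pool.Agent.Work.MP_8b5b22_gt.C.DclB
import Pool.Agent.Work.MP_8b5b22_gt.C.Pair2

/-!
# Module C/PBa (M)

Part (b), the pointwise definable hull.

Choose for every `0 < ξ < W1` a function `f ξ : ℕ → Od` with range `Iio ξ`.  Let `γ₁` code the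
relation `R₁ x y := ∃ ξ < W1, ∃ n : ℕ, 0 < ξ ∧ x = g ξ n ∧ y = f ξ n` and `γ₂` code `R`
(`exists_coded`).  Let `σ` be closed, `γ₁, γ₂, W1 < σ`, `p = g γ₁ (g γ₂ W1) < σ`, `M = dcl σ {p}`.
`p ∈ M` (`subset_dcl`), and `g γ₂ W1, γ₁, γ₂, W1 ∈ M` by `TV` and `g_inj`
(`D x := ∃ y < σ, p = g x y` etc.).  `M` is countable.  `M ∩ Iio W1` is an initial segment: let
`ξ ∈ M`, `y < ξ < W1`; `y = f ξ n`; `n ∈ M` (`nat_mem`); `D y := ∃ x < σ, x = g ξ n ∧ R₁ x y` (with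
`R₁` definable over `M` by `dfn_coded`, `Dfn.mono`, `Dfn.ren2`) holds only for `y` (`g_inj`,
`g ξ n < W1` by `closed_W1`), so `y ∈ M`.  Let `δ` be the least ordinal not in `M` (exists, `≤ σ`);
then for `x < W1`: `x ∈ M ↔ x < δ`; `δ < W1` as `M` is countable (`not_countable_W1`: otherwise
`Iio W1 ⊆ M`).  `exists_hull` gives `β < W1` and `e`.
-/

open Set

universe u

namespace CWV

private theorem unpair {σ : Od} {M : Set Od} (hM : TV σ M) {a b : Od} (h : g a b ∈ M)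
    (ha : a < σ) (hb : b < σ) : a ∈ M ∧ b ∈ M := by
  have hg : g a b < σ := hM.1 _ h
  constructor
  · have h1 : Dfn σ M (fun v => ∃ y < σ, g a b = g (v 0) y) := by
      refine (((Dfn.pr 2 0 1).ex 1).subst h hg 2).congr fun v _ => ?_
      simp [Function.update_apply]
    obtain ⟨x, hx, y, -, hxy⟩ := hM.2 (fun x => ∃ y < σ, g a b = g x y) 0 h1 ⟨a, ha, b, hb, rfl⟩
    rw [(g_inj hxy).1]
    exact hx
  · have h1 : Dfn σ M (fun v => ∃ y < σ, g a b = g y (v 0)) := by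
      refine (((Dfn.pr 2 1 0).ex 1).subst h hg 2).congr fun v _ => ?_
      simp [Function.update_apply]
    obtain ⟨x, hx, y, -, hxy⟩ := hM.2 (fun x => ∃ y < σ, g a b = g y x) 0 h1 ⟨b, hb, a, ha, rfl⟩
    rw [(g_inj hxy).2]
    exact hx

theorem exists_pointwise (H : HC) (R : Od → Od → Prop) :
    ∃ (σ p β δ : Od) (e : Od → Od), Hl σ (dcl σ {p}) β e ∧ p < σ ∧ δ < W1 ∧
      (∀ x < W1, (x ∈ dcl σ {p} ↔ x < δ)) ∧ W1 ∈ dcl σ {p} ∧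
      Dfn σ (dcl σ {p}) (fun v => v 0 < W1 ∧ v 1 < W1 ∧ R (v 0) (v 1)) := by
  have hf : ∀ ξ : Od, ∃ f : ℕ → Od, 0 < ξ → ξ < W1 → Set.Iio ξ = range f := by
    intro ξ
    by_cases h : 0 < ξ ∧ ξ < W1
    · obtain ⟨f, hf⟩ := (lt_W1_iff.1 h.2).exists_eq_range ⟨0, h.1⟩
      exact ⟨f, fun _ _ => hf⟩
    · exact ⟨fun _ => 0, fun h1 h2 => absurd ⟨h1, h2⟩ h⟩
  choose f hf using hf
  obtain ⟨γ₁, h₁⟩ := exists_coded H
    (fun x y => ∃ ξ < W1, ∃ n : ℕ, 0 < ξ ∧ x = g ξ n ∧ y = f ξ n)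
  obtain ⟨γ₂, h₂⟩ := exists_coded H R
  obtain ⟨σ, hσ', hσ⟩ := exists_closed (max (max γ₁ γ₂) W1)
  have hγ₁ : γ₁ < σ := ((le_max_left _ _).trans (le_max_left _ _)).trans_lt hσ'
  have hγ₂ : γ₂ < σ := ((le_max_right _ _).trans (le_max_left _ _)).trans_lt hσ'
  have hWσ : W1 < σ := (le_max_right _ _).trans_lt hσ'
  have hω : Ordinal.omega0 < σ := omega_lt_W1.trans hWσ
  obtain ⟨p, hp⟩ : ∃ p, p = g γ₁ (g γ₂ W1) := ⟨_, rfl⟩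
  have hq : g γ₂ W1 < σ := hσ.2 _ hγ₂ _ hWσ
  have hpσ : p < σ := hp ▸ hσ.2 _ hγ₁ _ hq
  obtain ⟨M, hMdef⟩ : ∃ M, M = dcl σ {p} := ⟨_, rfl⟩
  have hTV : TV σ M := hMdef ▸ tv_dcl σ {p}
  have hpM : p ∈ M := hMdef ▸ subset_dcl (by simpa using hpσ) (mem_singleton p)
  obtain ⟨hγ₁M, hqM⟩ := unpair hTV (hp ▸ hpM) hγ₁ hq
  obtain ⟨hγ₂M, hWM⟩ := unpair hTV hqM hγ₂ hWσ
  have hMc : M.Countable := hMdef ▸ countable_dcl (countable_singleton p)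
  have hR1 : Dfn σ M (fun v => v 0 < W1 ∧ v 1 < W1 ∧
      ∃ ξ < W1, ∃ n : ℕ, 0 < ξ ∧ v 0 = g ξ n ∧ v 1 = f ξ n) :=
    (dfn_coded hσ hγ₁ (R := fun a b => a < W1 ∧ b < W1 ∧
      ∃ ξ < W1, ∃ n : ℕ, 0 < ξ ∧ a = g ξ n ∧ b = f ξ n) h₁).mono (singleton_subset_iff.2 hγ₁M)
  have hR2 : Dfn σ M (fun v => v 0 < W1 ∧ v 1 < W1 ∧ R (v 0) (v 1)) :=
    (dfn_coded hσ hγ₂ (R := fun a b => a < W1 ∧ b < W1 ∧ R a b) h₂).mono
      (singleton_subset_iff.2 hγ₂M)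
  -- initial segment
  have hinit : ∀ ξ ∈ M, ξ < W1 → ∀ y < ξ, y ∈ M := by
    intro ξ hξ hξW y hy
    have hξ0 : 0 < ξ := (zero_le (a := y)).trans_lt hy
    have hymem : y ∈ range (f ξ) := (hf ξ hξ0 hξW) ▸ hy
    obtain ⟨n, rfl⟩ := hymem
    have hnM : (n : Od) ∈ M := nat_mem hTV hω.le n
    have hD : Dfn σ M (fun v => ∃ x < σ, x = g ξ n ∧ (x < W1 ∧ v 0 < W1 ∧
        ∃ ξ < W1, ∃ n : ℕ, 0 < ξ ∧ x = g ξ n ∧ v 0 = f ξ n)) := by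
      have h3 := Dfn.ren2 (P := fun a b => a < W1 ∧ b < W1 ∧
        ∃ ξ < W1, ∃ n : ℕ, 0 < ξ ∧ a = g ξ n ∧ b = f ξ n) hR1 1 0
      refine (((((Dfn.pr 1 2 3).and h3).ex 1).subst hnM (hTV.1 _ hnM) 3).subst hξ
        (hTV.1 _ hξ) 2).congr fun v _ => ?_
      simp [Function.update_apply]
    have hgσ : g ξ n < σ := hσ.2 _ (hTV.1 _ hξ) _ (hTV.1 _ hnM)
    have hnW : (n : Od) < W1 := (nat_lt_omega n).trans omega_lt_W1
    obtain ⟨y', hy', x, hx, rfl, -, -, ξ', -, n', -, hg, hyy⟩ := hTV.2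
      (fun y => ∃ x < σ, x = g ξ n ∧ (x < W1 ∧ y < W1 ∧
        ∃ ξ < W1, ∃ n : ℕ, 0 < ξ ∧ x = g ξ n ∧ y = f ξ n)) 0 hD
      ⟨f ξ n, hy.trans (hTV.1 _ hξ), g ξ n, hgσ, rfl, closed_W1.2 _ hξW _ hnW, hy.trans hξW,
        ξ, hξW, n, hξ0, rfl, rfl⟩
    obtain ⟨h4, h5⟩ := g_inj hg
    have h6 : n = n' := by exact_mod_cast h5
    subst h4 h6
    rw [← hyy]
    exact hy'
  -- the least ordinal not in `M`
  have hne : (Mᶜ).Nonempty := ⟨σ, fun h => lt_irrefl _ (hTV.1 _ h)⟩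
  obtain ⟨δ, hδdef⟩ : ∃ δ, δ = sInf Mᶜ := ⟨_, rfl⟩
  have hδM : δ ∉ M := by
    have := csInf_mem hne
    rw [hδdef]
    exact this
  have hδmin : ∀ x < δ, x ∈ M := by
    intro x hx
    by_contra h
    rw [hδdef] at hx
    exact absurd (csInf_le' (s := Mᶜ) h) (not_le.2 hx)
  have hδ : ∀ x < W1, (x ∈ M ↔ x < δ) := by
    intro x hx
    refine ⟨fun h => ?_, hδmin x⟩
    by_contra hcon
    rw [not_lt] at hcon
    rcases hcon.lt_or_eq with h1 | h1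
    · exact hδM (hinit x h hx δ h1)
    · exact hδM (h1 ▸ h)
  have hδW : δ < W1 := by
    by_contra hcon
    rw [not_lt] at hcon
    exact not_countable_W1 (hMc.mono fun x hx => hδmin x (lt_of_lt_of_le hx hcon))
  obtain ⟨β, e, hH, -⟩ := exists_hull hσ hω (A := {p}) (countable_singleton p)
  subst hMdef
  exact ⟨σ, p, β, δ, e, hH, hpσ, hδW, hδ, hWM, hR2⟩

end CWV
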