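import Mathlib

/-!
# MP_8b5b22_gt, folder C: if every set of countable ordinals is constructible then `CWG.Sharp` holds.

This file: the Goedel pairing of ordinals (definitions; the properties are proved in `C/Pair.lean`).
-/

namespace CWV

/-- ordinals of the lowest universe -/
abbrev Od : Type 1 := Ordinal.{0}

/-- Goedel's order on pairs: first the maximum, then the first, then the second coordinate. -/
def ltG (p q : Od × Od) : Prop :=
  max p.1 p.2 < max q.1 q.2 ∨
    (max p.1 p.2 = max q.1 q.2 ∧ (p.1 < q.1 ∨ (p.1 = q.1 ∧ p.2 < q.2)))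

theorem wf_ltG : WellFounded ltG := by
  have h : WellFounded (InvImage (Prod.Lex (· < ·) (Prod.Lex (· < ·) (· < ·)) :
      (Od × Od × Od) → (Od × Od × Od) → Prop) (fun p : Od × Od => (max p.1 p.2, p.1, p.2))) :=
    InvImage.wf _ (WellFounded.prod_lex wellFounded_lt (WellFounded.prod_lex wellFounded_lt wellFounded_lt))
  refine Subrelation.wf ?_ h
  rintro ⟨a, b⟩ ⟨c, d⟩ h
  rcases h with h | ⟨h, h' | ⟨h', h''⟩⟩
  · exact Prod.Lex.left _ _ h
  · simp only [InvImage]
    rw [h]
    exact Prod.Lex.right _ (Prod.Lex.left _ _ h')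
  · simp only [InvImage]
    rw [h]
    simp only at h'
    subst h'
    exact Prod.Lex.right _ (Prod.Lex.right _ h'')

instance : IsWellFounded (Od × Od) ltG := ⟨wf_ltG⟩

instance smallBelow (p : Od × Od) : Small.{0} {q : Od × Od // ltG q p} := by
  have : Small.{0} (Set.Iic (max p.1 p.2) ×ˢ Set.Iic (max p.1 p.2) : Set (Od × Od)) := by
    infer_instance
  refine small_of_injective (β := (Set.Iic (max p.1 p.2) ×ˢ Set.Iic (max p.1 p.2) : Set (Od × Od)))
    (f := fun q => ⟨q.1, ?_, ?_⟩) ?_
  · have h := q.2
    rcases h with h | ⟨h, -⟩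
    · exact (le_max_left _ _).trans h.le
    · exact (le_max_left _ _).trans h.le
  · have h := q.2
    rcases h with h | ⟨h, -⟩
    · exact (le_max_right _ _).trans h.le
    · exact (le_max_right _ _).trans h.le
  · intro q q' h
    simpa [Subtype.ext_iff] using h

/-- The order isomorphism of the pairs of ordinals, ordered by `ltG`, with the ordinals. -/
noncomputable def gp : Od × Od → Od :=
  wf_ltG.fix fun p IH => ⨆ q : {q : Od × Od // ltG q p}, (IH q.1 q.2 + 1)

theorem gp_eq (p : Od × Od) : gp p = ⨆ q : {q : Od × Od // ltG q p}, (gp q.1 + 1) := by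
  rw [gp, WellFounded.fix_eq]

/-- Goedel pairing -/
noncomputable def g (a b : Od) : Od := gp (a, b)

/-- closed under pairing (and not zero) -/
def Closed (σ : Od) : Prop := 0 < σ ∧ ∀ a < σ, ∀ b < σ, g a b < σ

end CWV
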