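import Pool.Agent.Work.MP_8b5b22_gt.C.SDefs
import Pool.Agent.Work.MP_8b5b22_gt.G.ClubA

/-!
# Module C/Trf (M)

Transfer to the type `Ω = ω₁.ToType` (a `Type`), with the order isomorphism `ι : Iio W1 ≃o Ω`
(`Ordinal.ToType.mk`).  `WellFoundedLT Ω` is an instance.  `CWG.Om Ω`: `lt_W1_iff`,
`not_countable_W1`.

`CWG.Sharp Ω`: for `δ : Ω` let `M δ` be the image of `N (ι⁻¹ δ)` under
`F ↦ (fun z => if h : F (ι⁻¹ z) < W1 then ι (F (ι⁻¹ z)) else z)`; countable.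
(a) For `F : Ω → Ω` let `F₀ : Od → Od` be `ι⁻¹ ∘ F ∘ ι` on `Iio W1` and `0` above; `hA` gives `h`; let
`h' : Ω → Ω` be `ι ∘ h ∘ ι⁻¹`; the set of all `δ` closed under `h'` contains a club
(`CWG.club_closed` in `G/ClubA`, intersect with `δ` not minimal); for such `δ`, `hA` gives
`F' ∈ N (ι⁻¹ δ)`.
(b) For stationary `A n ⊆ Ω` the sets `ι⁻¹ '' A n` satisfy `StatO`: for `h` the set of all nonminimal
`ξ` closed under `h'` contains a club.  `hB` gives `δ`; a finite `Φ ⊆ M δ` is the image of a finite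
subset of `N` (`Set.exists_subset_image_finite` or choice); on `ζ < ξ < δ` the functions of `Φ` are
given by `F` (values `F ζ < ξ < W1`).
-/

open Set

namespace CWV

theorem sharp_transfer (N : Od → Set (Od → Od)) (hN : ∀ δ < W1, (N δ).Countable)
    (hA : ∀ F : Od → Od, (∀ ζ < W1, F ζ < W1) → ∃ h : Od → Od, (∀ ζ < W1, h ζ < W1) ∧
      ∀ δ < W1, 0 < δ → (∀ ζ < δ, h ζ < δ) → ∃ F' ∈ N δ, ∀ ζ < δ, F' ζ = F ζ)
    (hB : ∀ A : ℕ → Set Od, (∀ n, StatO (A n)) → ∃ δ < W1, 0 < δ ∧ ∀ n,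
      ∀ Φ : Set (Od → Od), Φ.Finite → Φ ⊆ N δ → ∀ γ < δ,
        ∃ ξ ∈ A n, γ < ξ ∧ ξ < δ ∧ ∀ F ∈ Φ, ∀ ζ < ξ, F ζ < ξ) :
    ∃ (Ω : Type) (_ : LinearOrder Ω), WellFoundedLT Ω ∧ CWG.Om Ω ∧ CWG.Sharp Ω := by
  classical
  let ι : Set.Iio W1 ≃o W1.ToType := Ordinal.ToType.mk
  have hW0 : (0 : Od) < W1 := (zero_le (a := Ordinal.omega0)).trans_lt omega_lt_W1
  have hO : CWG.Om W1.ToType := by
    refine ⟨fun a => ?_, fun h => ?_⟩
    · have hc : (Set.Iio (ι.symm a).1).Countable := lt_W1_iff.1 (ι.symm a).2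
      have hc' := Set.countable_coe_iff.2 hc
      refine Set.countable_coe_iff.1 ?_
      refine Function.Injective.countable (f := fun z : Set.Iio a =>
        (⟨(ι.symm z.1).1, ?_⟩ : Set.Iio (ι.symm a).1)) ?_
      · have h1 : ι.symm z.1 < ι.symm a := ι.symm.lt_iff_lt.2 z.2
        exact h1
      · intro x y hxy
        have h1 : (ι.symm x.1).1 = (ι.symm y.1).1 :=
          congrArg (fun w : Set.Iio (ι.symm a).1 => w.1) hxy
        exact Subtype.ext (ι.symm.injective (Subtype.ext h1))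
    · refine not_countable_W1 ?_
      have h1 : Countable W1.ToType := Set.countable_univ_iff.1 h
      exact Set.countable_coe_iff.1 ι.injective.countable
  -- translation of functions
  let T : (Od → Od) → (W1.ToType → W1.ToType) := fun F z =>
    if h : F (ι.symm z).1 < W1 then ι ⟨F (ι.symm z).1, h⟩ else z
  have hT : ∀ (F : Od → Od) (z : W1.ToType) (h : F (ι.symm z).1 < W1),
      T F z = ι ⟨F (ι.symm z).1, h⟩ := fun F z h => dif_pos h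
  let a₀ : W1.ToType := ι ⟨0, hW0⟩
  -- club of the closure points of a function
  have hcl : ∀ h : Od → Od, (∀ ζ < W1, h ζ < W1) → ∃ C : Set W1.ToType, CWG.Club C ∧
      ∀ δ ∈ C, 0 < (ι.symm δ).1 ∧ ∀ ζ < (ι.symm δ).1, h ζ < (ι.symm δ).1 := by
    intro h hh
    let h' : W1.ToType → W1.ToType := fun z => ι ⟨h (ι.symm z).1, hh _ (ι.symm z).2⟩
    refine ⟨{d | CWG.ClosedUnder h' d} ∩ Ioi a₀,
      CWG.club_inter hO (CWG.club_closed hO h') (CWG.club_Ioi hO a₀), ?_⟩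
    rintro δ ⟨h1, h2⟩
    constructor
    · have h3 : ι.symm a₀ < ι.symm δ := ι.symm.lt_iff_lt.2 h2
      have h4 : ι.symm a₀ = ⟨0, hW0⟩ := ι.symm_apply_apply _
      rw [h4] at h3
      exact h3
    · intro ζ hζ
      have hζW : ζ < W1 := hζ.trans (ι.symm δ).2
      have h3 : ι ⟨ζ, hζW⟩ < δ := by
        rw [← ι.lt_symm_apply]
        exact hζ
      have h4 := h1 _ h3
      have h5 : h' (ι ⟨ζ, hζW⟩) = ι ⟨h ζ, hh _ hζW⟩ := by
        show ι ⟨h (ι.symm (ι ⟨ζ, hζW⟩)).1, _⟩ = _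
        congr 1
        refine Subtype.ext ?_
        show h (ι.symm (ι ⟨ζ, hζW⟩)).1 = h ζ
        rw [ι.symm_apply_apply]
      rw [h5, ← ι.lt_symm_apply] at h4
      exact h4
  refine ⟨W1.ToType, inferInstance, inferInstance, hO, fun δ => T '' N (ι.symm δ).1,
    fun δ => (hN _ (ι.symm δ).2).image T, fun F => ?_, fun A hA' => ?_⟩
  · let F₀ : Od → Od := fun a => if h : a < W1 then (ι.symm (F (ι ⟨a, h⟩))).1 else 0
    have hF₀ : ∀ (a : Od) (h : a < W1), F₀ a = (ι.symm (F (ι ⟨a, h⟩))).1 := fun a h => dif_pos h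
    obtain ⟨h, hh, hkey⟩ := hA F₀ (fun ζ hζ => by
      rw [hF₀ ζ hζ]
      exact (ι.symm _).2)
    obtain ⟨C, hC, hC'⟩ := hcl h hh
    refine ⟨C, hC, fun δ hδ => ?_⟩
    obtain ⟨h1, h2⟩ := hC' δ hδ
    obtain ⟨F', hF', h3⟩ := hkey (ι.symm δ).1 (ι.symm δ).2 h1 h2
    refine ⟨T F', ⟨F', hF', rfl⟩, fun z hz => ?_⟩
    have hz' : (ι.symm z).1 < (ι.symm δ).1 := ι.symm.lt_iff_lt.2 hz
    have h4 : F' (ι.symm z).1 = (ι.symm (F z)).1 := by
      rw [h3 _ hz', hF₀ _ (ι.symm z).2]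
      have h5 : ι ⟨(ι.symm z).1, (ι.symm z).2⟩ = z := ι.apply_symm_apply z
      rw [h5]
    have h5 : F' (ι.symm z).1 < W1 := by
      rw [h4]
      exact (ι.symm _).2
    rw [hT F' z h5]
    have h6 : (⟨F' (ι.symm z).1, h5⟩ : Set.Iio W1) = ι.symm (F z) := Subtype.ext h4
    rw [h6, ι.apply_symm_apply]
  · let A₀ : ℕ → Set Od := fun n => {a | ∃ h : a < W1, ι ⟨a, h⟩ ∈ A n}
    have hA₀ : ∀ n, StatO (A₀ n) := by
      intro n h hh
      obtain ⟨C, hC, hC'⟩ := hcl h hh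
      obtain ⟨ξ, hξA, hξC⟩ := hA' n C hC
      obtain ⟨h1, h2⟩ := hC' ξ hξC
      refine ⟨(ι.symm ξ).1, ⟨(ι.symm ξ).2, ?_⟩, (ι.symm ξ).2, h1, h2⟩
      have h5 : ι ⟨(ι.symm ξ).1, (ι.symm ξ).2⟩ = ξ := ι.apply_symm_apply ξ
      rw [h5]
      exact hξA
    obtain ⟨δ₀, hδW, hδ0, hkey⟩ := hB A₀ hA₀
    refine ⟨ι ⟨δ₀, hδW⟩, ⟨a₀, ι.lt_iff_lt.2 (by exact hδ0)⟩, fun n Φ hΦ hΦM _ γ hγ => ?_⟩
    have hsy : (ι.symm (ι ⟨δ₀, hδW⟩)).1 = δ₀ := by rw [ι.symm_apply_apply]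
    have hch : ∀ F : W1.ToType → W1.ToType, F ∈ Φ → ∃ F₀ : Od → Od, F₀ ∈ N δ₀ ∧ T F₀ = F := by
      intro F hF
      obtain ⟨F₀, h1, h2⟩ := hΦM hF
      rw [hsy] at h1
      exact ⟨F₀, h1, h2⟩
    choose! k hk1 hk2 using hch
    obtain ⟨ξ₀, ⟨hξW, hξA⟩, h1, h2, h3⟩ := hkey n (k '' Φ) (hΦ.image k) (by
      rintro _ ⟨F, hF, rfl⟩
      exact hk1 F hF) (ι.symm γ).1 (by
      have h4 : ι.symm γ < ι.symm (ι ⟨δ₀, hδW⟩) := ι.symm.lt_iff_lt.2 hγ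
      rw [ι.symm_apply_apply] at h4
      exact h4)
    refine ⟨ι ⟨ξ₀, hξW⟩, hξA, ?_, ι.lt_iff_lt.2 (by exact h2), fun F hF z hz => ?_⟩
    · rw [← ι.symm_apply_lt]
      exact h1
    · have hz' : (ι.symm z).1 < ξ₀ := by
        have h4 : ι.symm z < ι.symm (ι ⟨ξ₀, hξW⟩) := ι.symm.lt_iff_lt.2 hz
        rw [ι.symm_apply_apply] at h4
        exact h4
      have h4 := h3 (k F) ⟨F, hF, rfl⟩ _ hz'
      rw [← hk2 F hF, hT (k F) z (h4.trans hξW)]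
      exact ι.lt_iff_lt.2 (by exact h4)

end CWV
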